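import Pool.Agent.Lib.MP_1a91b9_ntP.J.Sys

/-!
# MP_1a91b9_nt, several twists over `Q(sqrt -3)`, part D: the main term of the joint system

The average for a product of maximal unlinked sets is a convolution of the averages of the factors.
-/

set_option autoImplicit false
set_option linter.unusedSectionVars false

namespace Pool.Agent.Lib.MP_1a91b9_ntP

open Finset Pool.Agent.Lib.MP_1a91b9_ntH Pool.Agent.Lib.MP_1a91b9_ntH.Da

noncomputable section

variable {A : Type} [Fintype A] [DecidableEq A] {k : A → ℕ} {κ : Type} [Fintype κ]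
  {W : A → Type} {P : ∀ a, Loc κ (k a) (W a)} {y : F4} {w : ∀ a, W a}

theorem mgJ_zero (V : ∀ a, Finset (Lab (k a))) (a : A) (B : LabJ k → F4) {u : Lab (k a)}
    (hu : u ∉ V a) : mgJ V a B u = 0 := by
  classical
  unfold mgJ
  refine sum_eq_zero fun l hl => absurd ?_ hu
  obtain ⟨h1, h2⟩ := mem_filter.1 hl
  rw [← h2]
  exact Fintype.mem_piFinset.1 h1 a

/-- The function with the value `z` on `V`. -/
def exV {n : ℕ} (V : Finset (Lab n)) (z : F4) (u : Lab n) : F4 := by
  classical exact if u ∈ V then z else 0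

theorem exV_of {n : ℕ} {V : Finset (Lab n)} {z : F4} {u : Lab n} (h : u ∈ V) : exV V z u = z := by
  unfold exV
  rw [if_pos h]

theorem exV_not {n : ℕ} {V : Finset (Lab n)} {z : F4} {u : Lab n} (h : u ∉ V) : exV V z u = 0 := by
  unfold exV
  rw [if_neg h]

theorem gh_exV {n : ℕ} {W : Type} (P : Loc κ n W) (w : W) (V : Finset (Lab n)) (z : F4) :
    (P.sys 0 w).gh V (exV V z) = (P.sys z w).toLSys.cU V := by
  unfold LSys.gh LSys.cU
  congr 1
  refine sum_congr rfl fun B _ => congrArg sg ?_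
  have h1 : ∑ l, F4.tr (exV V z l * B l) = ∑ l ∈ V, F4.tr (z * B l) := by
    rw [← sum_subset (subset_univ V) fun l _ hl => ?_]
    · exact sum_congr rfl fun l hl => by rw [exV_of hl]
    · rw [exV_not hl, zero_mul, F4.tr_zero]
  rw [h1]
  unfold LSys.th
  have h2 : ∑ l ∈ V, F4.tr ((P.sys z w).gam l * B l) =
      ∑ l ∈ V, F4.tr ((P.sys 0 w).gam l * B l) + ∑ l ∈ V, F4.tr (z * B l) := by
    rw [← sum_add_distrib]
    refine sum_congr rfl fun l _ => ?_
    show F4.tr ((P.gam w l + z) * B l) = F4.tr ((P.gam w l + 0) * B l) + _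
    rw [add_zero, add_mul, F4.tr_add]
  rw [h2]
  show _ = _ + _ + ∑ l ∈ V, ∑ m ∈ V, (if (P.sys 0 w).o l < (P.sys 0 w).o m then
    (P.sys 0 w).Phi m l * F4.tr (B l * B m) else 0)
  ring

/-- The coefficient of a family of characters. -/
def coH (V : ∀ a, Finset (Lab (k a))) (y : F4) (h : ∀ a, Lab (k a) → F4) (l : LabJ k) : F4 := by
  classical exact if l ∈ Fintype.piFinset V then y + ∑ a, h a (l a) else 0

theorem coH_of {V : ∀ a, Finset (Lab (k a))} {y : F4} {h : ∀ a, Lab (k a) → F4} {l : LabJ k}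
    (hl : l ∈ Fintype.piFinset V) : coH V y h l = y + ∑ a, h a (l a) := by
  unfold coH
  rw [if_pos hl]

theorem coH_not {V : ∀ a, Finset (Lab (k a))} {y : F4} {h : ∀ a, Lab (k a) → F4} {l : LabJ k}
    (hl : l ∉ Fintype.piFinset V) : coH V y h l = 0 := by
  unfold coH
  rw [if_neg hl]

open Classical in
theorem cU_four1 {V : ∀ a, Finset (Lab (k a))} (hV : ∀ a, V a ∈ Us (k a)) :
    (LJ P y w).toLSys.cU (Fintype.piFinset V) =
      ∑ h : ∀ a, Lab (k a) → F4, (∏ a, ((P a).sys 0 (w a)).gh (V a) (h a)) *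
        (if coH V y h = 0 then 1 else 0) := by
  set U := Fintype.piFinset V with hUd
  set N : ℝ := (Fintype.card (LabJ k → F4) : ℝ) with hN
  have hN0 : N ≠ 0 := Nat.cast_ne_zero.2 Fintype.card_ne_zero
  have h1 : ∀ B : LabJ k → F4, sg ((LJ P y w).th U B) =
      ∑ h : ∀ a, Lab (k a) → F4, (∏ a, ((P a).sys 0 (w a)).gh (V a) (h a)) *
        sg (∑ l, F4.tr (coH V y h l * B l)) := by
    intro B
    have e1 : ∀ a, sg (((P a).sys 0 (w a)).th (V a) (mgJ V a B)) =
        ∑ h : Lab (k a) → F4, ((P a).sys 0 (w a)).gh (V a) h *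
          sg (∑ l ∈ U, F4.tr (h (l a) * B l)) := by
      intro a
      rw [Pool.Agent.Lib.MP_1a91b9_ntH.fourier]
      refine sum_congr rfl fun h _ => ?_
      have e2 : ∑ l ∈ U, F4.tr (h (l a) * B l) = ∑ u ∈ V a, F4.tr (h u * mgJ V a B u) := by
        rw [← F4.tr_sum, ← F4.tr_sum, sum_mgJ V a B h]
      rw [e2]
      congr 2
      refine (sum_subset (subset_univ _) fun u _ hu => ?_).symm
      rw [mgJ_zero V a B hu, mul_zero, F4.tr_zero]
    rw [th_pi hV B, sg_add, sgD_sum, prod_congr rfl fun a _ => e1 a, prod_univ_sum,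
      Fintype.piFinset_univ, sum_mul]
    refine sum_congr rfl fun h _ => ?_
    rw [prod_mul_distrib, mul_assoc]
    congr 1
    rw [← sgD_sum, ← sg_add]
    congr 1
    rw [mul_sum, F4.tr_sum, sum_comm, ← sum_add_distrib]
    refine Eq.trans ?_ (sum_subset (subset_univ U) fun l _ hl => by
      rw [coH_not hl, zero_mul, F4.tr_zero])
    refine sum_congr rfl fun l hl => ?_
    rw [coH_of hl, add_mul, F4.tr_add, sum_mul, F4.tr_sum]
    ring
  have h2 : (LJ P y w).toLSys.cU U = (∑ B : LabJ k → F4, sg ((LJ P y w).th U B)) / N := rfl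
  rw [h2, sum_congr rfl fun B _ => h1 B, sum_comm, sum_div]
  refine sum_congr rfl fun h _ => ?_
  rw [← mul_sum, Pool.Agent.Lib.MP_1a91b9_ntH.sum_sg (coH V y h), mul_div_assoc]
  congr 1
  split_ifs
  · rw [← hN, div_self hN0]
  · rw [zero_div]

open Classical in
theorem cU_pi1 {V : ∀ a, Finset (Lab (k a))} (hV : ∀ a, V a ∈ Us (k a)) :
    (LJ P y w).toLSys.cU (Fintype.piFinset V) =
      ∑ z ∈ univ.filter (fun z : A → F4 => ∑ a, z a = y),
        ∏ a, ((P a).sys (z a) (w a)).toLSys.cU (V a) := by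
  rw [cU_four1 hV]
  choose v hv using fun a => Us_nonempty (hV a)
  have hvU : v ∈ Fintype.piFinset V := Fintype.mem_piFinset.2 hv
  have ha : ∀ x x' : F4, x + x' = 0 ↔ x = x' := by decide
  set ex : (A → F4) → ∀ a, Lab (k a) → F4 := fun z a => exV (V a) (z a) with hex
  have hinj : Function.Injective ex := by
    intro z z' h
    funext a
    have h1 := congrFun (congrFun h a) (v a)
    simp only [hex] at h1
    rwa [exV_of (hv a), exV_of (hv a)] at h1
  have hco : ∀ z : A → F4, ∑ a, z a = y → coH V y (ex z) = 0 := by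
    intro z hz
    funext l
    by_cases hl : l ∈ Fintype.piFinset V
    · rw [coH_of hl]
      have h1 : ∑ a, ex z a (l a) = y := by
        rw [← hz]
        exact sum_congr rfl fun a _ => exV_of (Fintype.mem_piFinset.1 hl a)
      rw [h1]
      exact F4.add_self y
    · rw [coH_not hl]
      rfl
  have h1 : ∑ z ∈ univ.filter (fun z : A → F4 => ∑ a, z a = y),
      ∏ a, ((P a).sys (z a) (w a)).toLSys.cU (V a) =
      ∑ h ∈ (univ.filter (fun z : A → F4 => ∑ a, z a = y)).image ex,
        (∏ a, ((P a).sys 0 (w a)).gh (V a) (h a)) * (if coH V y h = 0 then 1 else 0) := by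
    rw [sum_image fun z _ z' _ h => hinj h]
    refine sum_congr rfl fun z hz => ?_
    rw [if_pos (hco z (mem_filter.1 hz).2), mul_one]
    exact prod_congr rfl fun a _ => (gh_exV (P a) (w a) (V a) (z a)).symm
  rw [h1]
  refine (sum_subset (subset_univ _) fun h _ hn => ?_).symm
  by_contra hne
  apply hn
  have h2 : coH V y h = 0 := by
    by_contra h3
    rw [if_neg h3, mul_zero] at hne
    exact hne rfl
  have h3 : ∀ a, ∀ u, u ∉ V a → h a u = 0 := by
    intro a u hu
    by_contra h4
    apply hne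
    rw [prod_eq_zero (mem_univ a) (gh_supp _ (V a) (h a) u hu h4), zero_mul]
  have h4 : ∀ l ∈ Fintype.piFinset V, ∑ a, h a (l a) = y := by
    intro l hl
    have h5 := congrFun h2 l
    rw [coH_of hl] at h5
    exact ((ha _ _).1 h5).symm
  have h5 : ∀ a, ∀ u ∈ V a, h a u = h a (v a) := by
    intro a u hu
    have h6 : Function.update v a u ∈ Fintype.piFinset V := by
      rw [Fintype.mem_piFinset]
      intro b
      by_cases hb : b = a
      · subst hb
        rw [Function.update_self]
        exact hu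
      · rw [Function.update_of_ne hb]
        exact hv b
    have h7 := h4 _ h6
    rw [← h4 v hvU, ← add_sum_erase _ _ (mem_univ a), ← add_sum_erase _ _ (mem_univ a),
      Function.update_self] at h7
    have h8 : ∑ b ∈ univ.erase a, h b (Function.update v a u b) = ∑ b ∈ univ.erase a, h b (v b) :=
      sum_congr rfl fun b hb => by rw [Function.update_of_ne (ne_of_mem_erase hb)]
    rw [h8] at h7
    exact add_right_cancel h7
  rw [mem_image]
  refine ⟨fun a => h a (v a), mem_filter.2 ⟨mem_univ _, h4 v hvU⟩, ?_⟩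
  funext a u
  by_cases hu : u ∈ V a
  · show exV (V a) (h a (v a)) u = h a u
    rw [exV_of hu, h5 a u hu]
  · show exV (V a) (h a (v a)) u = h a u
    rw [exV_not hu, h3 a u hu]

/-- The conditions of the additional characters. -/
theorem del_iff {ρ : A → ZMod 2} {τ : A → κ → ZMod 2} (hP : ∀ a, (P a).Ok (ρ a) (τ a))
    {V : ∀ a, Finset (Lab (k a))} (hV : ∀ a, V a ∈ Us (k a)) :
    (∀ l ∈ Fintype.piFinset V, (LJ P y w).del l = 0) ↔
      ∀ a, ∀ l ∈ V a, (P a).del (w a) l = 0 := by
  choose v hv using fun a => Us_nonempty (hV a)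
  have hvU : v ∈ Fintype.piFinset V := Fintype.mem_piFinset.2 hv
  constructor
  · intro h a
    have h1 : ∀ j, ∀ l ∈ V a, ∀ l' ∈ V a, (P a).del (w a) l j = (P a).del (w a) l' j := by
      have key : ∀ j, ∀ u ∈ V a, (P a).del (w a) u j = (P a).del (w a) (v a) j := by
        intro j u hu
        have h6 : Function.update v a u ∈ Fintype.piFinset V := by
          rw [Fintype.mem_piFinset]
          intro b
          by_cases hb : b = a
          · subst hb
            rw [Function.update_self]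
            exact hu
          · rw [Function.update_of_ne hb]
            exact hv b
        have h7 : (LJ P y w).del (Function.update v a u) j = (LJ P y w).del v j := by
          rw [h _ h6, h _ hvU]
        have h8 : (∑ b, (P b).del (w b) (Function.update v a u b)) j =
            (∑ b, (P b).del (w b) (v b)) j := h7
        rw [Finset.sum_apply, Finset.sum_apply, ← add_sum_erase _ _ (mem_univ a),
          ← add_sum_erase _ _ (mem_univ a), Function.update_self] at h8
        have h9 : ∑ b ∈ univ.erase a, (P b).del (w b) (Function.update v a u b) j =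
            ∑ b ∈ univ.erase a, (P b).del (w b) (v b) j :=
          sum_congr rfl fun b hb => by rw [Function.update_of_ne (ne_of_mem_erase hb)]
        rw [h9] at h8
        exact add_right_cancel h8
      intro j l hl l' hl'
      rw [key j l hl, key j l' hl']
    intro l hl
    funext j
    exact (hP a).cst (w a) (V a) (hV a) j (h1 j) l hl
  · intro h l hl
    show ∑ a, (P a).del (w a) (l a) = 0
    exact sum_eq_zero fun a _ => h a (l a) (Fintype.mem_piFinset.1 hl a)

open Classical in
theorem cU_pi {ρ : A → ZMod 2} {τ : A → κ → ZMod 2} (hP : ∀ a, (P a).Ok (ρ a) (τ a))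
    {V : ∀ a, Finset (Lab (k a))} (hV : ∀ a, V a ∈ Us (k a)) :
    (LJ P y w).cU (Fintype.piFinset V) =
      ∑ z ∈ univ.filter (fun z : A → F4 => ∑ a, z a = y),
        ∏ a, ((P a).sys (z a) (w a)).cU (V a) := by
  by_cases h : ∀ a, ∀ l ∈ V a, (P a).del (w a) l = 0
  · rw [LSysG.cU, if_pos ((del_iff hP hV).2 h), cU_pi1 hV]
    refine sum_congr rfl fun z _ => prod_congr rfl fun a _ => ?_
    rw [LSysG.cU, if_pos]
    exact h a
  · rw [LSysG.cU, if_neg fun h' => h ((del_iff hP hV).1 h')]
    push Not at h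
    obtain ⟨a, l, hl, hne⟩ := h
    refine (sum_eq_zero fun z _ => prod_eq_zero (mem_univ a) ?_).symm
    rw [LSysG.cU, if_neg]
    intro h'
    exact hne (h' l hl)

open Classical in
theorem sum_cUJ {ρ : A → ZMod 2} {τ : A → κ → ZMod 2} (hP : ∀ a, (P a).Ok (ρ a) (τ a))
    (hd : Function.Injective fun a => (ρ a, τ a)) :
    ∑ U ∈ (LJ P y w).Us, (LJ P y w).cU U =
      ∑ z ∈ univ.filter (fun z : A → F4 => ∑ a, z a = y),
        ∏ a, ∑ U ∈ Us (k a), ((P a).sys (z a) (w a)).cU U := by
  have hinj : ∀ V ∈ Fintype.piFinset (fun a => Us (k a)), ∀ V' ∈ Fintype.piFinset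
      (fun a => Us (k a)), Fintype.piFinset V = Fintype.piFinset V' → V = V' := by
    intro V hV V' hV' h
    rw [← pjJ_pi (Fintype.mem_piFinset.1 hV), ← pjJ_pi (Fintype.mem_piFinset.1 hV'), h]
  have h1 : ∑ U ∈ (LJ P y w).Us, (LJ P y w).cU U =
      ∑ U ∈ (Fintype.piFinset fun a => Us (k a)).image fun V => Fintype.piFinset V,
        (LJ P y w).cU U := by
    refine (sum_subset ?_ fun U hU hn => ?_).symm
    · intro U hU
      rw [mem_image] at hU
      obtain ⟨V, hV, rfl⟩ := hU
      exact (mem_UsJ P y w).2 (pi_UnlJ (Fintype.mem_piFinset.1 hV))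
    · by_contra hne
      obtain ⟨h2, h3⟩ := decLJ hP hd hU hne
      exact hn (mem_image.2 ⟨pjJ U, Fintype.mem_piFinset.2 h3, h2.symm⟩)
  rw [h1, sum_image hinj, sum_congr rfl fun V hV => cU_pi hP (Fintype.mem_piFinset.1 hV), sum_comm]
  refine sum_congr rfl fun z _ => ?_
  rw [prod_univ_sum]

variable [∀ a, Fintype (W a)]

open Classical in
/-- **The main term of the joint system.** -/
theorem sum_GJ {ρ : A → ZMod 2} {τ : A → κ → ZMod 2} (hP : ∀ a, (P a).Ok (ρ a) (τ a))
    (hd : Function.Injective fun a => (ρ a, τ a)) :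
    ∑ w : ∀ a, W a, sg (∑ a, (P a).e0 (w a)) * ∑ U ∈ (LJ P y w).Us, (LJ P y w).cU U =
      ∑ z ∈ univ.filter (fun z : A → F4 => ∑ a, z a = y), ∏ a, (P a).G (z a) := by
  have h1 : ∀ w : ∀ a, W a, sg (∑ a, (P a).e0 (w a)) * ∑ U ∈ (LJ P y w).Us, (LJ P y w).cU U =
      ∑ z ∈ univ.filter (fun z : A → F4 => ∑ a, z a = y),
        ∏ a, (sg ((P a).e0 (w a)) * ∑ U ∈ Us (k a), ((P a).sys (z a) (w a)).cU U) := by
    intro w
    rw [sum_cUJ hP hd, mul_sum]
    refine sum_congr rfl fun z _ => ?_
    rw [prod_mul_distrib, sgD_sum]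
  rw [sum_congr rfl fun w _ => h1 w, sum_comm]
  refine sum_congr rfl fun z _ => ?_
  unfold Loc.G
  rw [prod_univ_sum, Fintype.piFinset_univ]

/-- The main term, if the main terms of the factors vanish for the nontrivial characters. -/
theorem sum_GJ' {ρ : A → ZMod 2} {τ : A → κ → ZMod 2} (hP : ∀ a, (P a).Ok (ρ a) (τ a))
    (hd : Function.Injective fun a => (ρ a, τ a)) {g : A → ℝ}
    (hG : ∀ a z, (P a).G z = if z = 0 then g a else 0) :
    ∑ w : ∀ a, W a, sg (∑ a, (P a).e0 (w a)) * ∑ U ∈ (LJ P y w).Us, (LJ P y w).cU U =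
      if y = 0 then ∏ a, g a else 0 := by
  classical
  rw [sum_GJ hP hd]
  split_ifs with hy
  · subst hy
    rw [sum_eq_single (0 : A → F4)]
    · exact prod_congr rfl fun a _ => (hG a _).trans (if_pos rfl)
    · intro z _ hz
      obtain ⟨a, ha⟩ := Function.ne_iff.1 hz
      exact prod_eq_zero (mem_univ a) ((hG a _).trans (if_neg ha))
    · intro h
      refine absurd (mem_filter.2 ⟨mem_univ _, ?_⟩) h
      exact sum_const_zero
  · refine sum_eq_zero fun z hz => ?_
    have hz0 : z ≠ 0 := by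
      rintro rfl
      apply hy
      rw [← (mem_filter.1 hz).2]
      exact sum_const_zero
    obtain ⟨a, ha⟩ := Function.ne_iff.1 hz0
    exact prod_eq_zero (mem_univ a) ((hG a _).trans (if_neg ha))

end

end Pool.Agent.Lib.MP_1a91b9_ntP
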