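import Pool.Agent.Lib.MP_1a91b9_ntH.D.Expand
import Pool.Agent.Lib.MP_1a91b9_ntP.J.Avg
import Pool.Agent.Lib.MP_1a91b9_ntP.D.Off

/-!
# MP_1a91b9_nt, several twists over `Q(sqrt -3)`, part D: the labels of the primes of the border

The labels of the primes of `T ⊆ B` are parameters of the local system.
-/

set_option autoImplicit false
set_option linter.unusedSectionVars false

namespace Pool.Agent.Lib.MP_1a91b9_ntP

open Finset Pool.Agent.Lib.MP_1a91b9_ntH Pool.Agent.Lib.MP_1a91b9_ntH.Da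
  Pool.Agent.Lib.MP_1a91b9_ntE
open Pool.Agent.Lib.MP_1a91b9_ntQ (Off up dn up_injective sum_up up_mem_Sx mem_up up_dn dn_up
  disj_up)

noncomputable section

section General

variable {ι : Type} [DecidableEq ι] {L : Type} [Fintype L] [DecidableEq L]

/-- The exponent on an unlinked set. -/
theorem ee_unl' (D : Dat ι) (hD : D.Rec) (Λ : LSys L) (hi : Function.Injective Λ.o)
    (hd : ∀ l, Λ.Phi l l = 0) (U : Finset L) (hU : Λ.Unl U) (d : L → Finset ι) (hd' : PD d)
    (h0 : ∀ l, l ∉ U → d l = ∅) : D.ee Λ d = Λ.th U fun l => D.A (d l) := by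
  have h : ({ Λ with m := Fintype.card L + 2 } : LSys L).OK :=
    { diag := hd
      inj := hi
      two := Nat.le_add_left _ _
      k1 := fun U _ => (card_le_univ U).trans (Nat.le_add_right _ _)
      k2 := fun U _ hc => absurd hc (by
        have h1 := card_le_univ U
        show U.card ≠ Fintype.card L + 2
        omega) }
  exact ee_unl D hD { Λ with m := Fintype.card L + 2 } h U hU d hd' h0

/-- The exponent of a labelling with labels in an unlinked set. -/
theorem eS_unl (D : Dat ι) (hD : D.Rec) (Λ : LSys L) (hi : Function.Injective Λ.o)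
    (hd : ∀ l, Λ.Phi l l = 0) {U : Finset L} (hU : Λ.Unl U) (T : Finset ι) (z : T → L)
    (hz : ∀ t, z t ∈ U) : D.eS Λ T z = Λ.th U fun l => D.A (famOf T z l) := by
  rw [eS_eq]
  refine ee_unl' D hD Λ hi hd U hU _ ?_ ?_
  · intro l m hlm
    rw [disjoint_left]
    intro q h1 h2
    obtain ⟨h3, h4⟩ := mem_famOf.1 h1
    obtain ⟨h5, h6⟩ := mem_famOf.1 h2
    exact hlm (h4.symm.trans h6)
  · intro l hl
    rw [eq_empty_iff_forall_notMem]
    intro q hq
    obtain ⟨h1, h2⟩ := mem_famOf.1 hq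
    exact hl (h2 ▸ hz _)

/-- Sums over the labels. -/
theorem sum_famOf (D : Dat ι) (T : Finset ι) (z : T → L) {U : Finset L} (hz : ∀ t, z t ∈ U)
    (x : L → F4) : ∑ t : T, x (z t) * D.a t = ∑ l ∈ U, x l * D.A (famOf T z l) := by
  have h1 : ∀ l, x l * D.A (famOf T z l) = ∑ t ∈ univ.filter (fun t : T => z t = l),
      x (z t) * D.a t := by
    intro l
    unfold famOf Dat.A
    rw [sum_map, mul_sum]
    refine sum_congr rfl fun t ht => ?_
    rw [(mem_filter.1 ht).2]
    rfl
  rw [sum_congr rfl fun l _ => h1 l]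
  exact (sum_fiberwise_of_maps_to (fun t _ => hz t) fun t => x (z t) * D.a t).symm

theorem sum_famOf_one (D : Dat ι) (T : Finset ι) (z : T → L) {U : Finset L}
    (hz : ∀ t, z t ∈ U) : ∑ l ∈ U, D.A (famOf T z l) = D.A T := by
  have h := sum_famOf D T z hz fun _ => 1
  simp only [one_mul] at h
  rw [← h]
  exact sum_coe_sort T D.a

end General

section Ext

variable {ι : Type} [DecidableEq ι] {n : ℕ} {W : Type}

/-- The exponent of a labelling for a local system. -/
def Loc.ex (P : Loc Unit n W) (D : DatE ι) (w : W) (S : Finset ι) (f : S → Lab n) : ZMod 2 :=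
  D.toDat.eS (P.sys 0 w).toLSys S f + ∑ j : S, P.del w (f j) () * D.g j

/-- The local system with the labels of the primes of `T`. -/
def Loc.ext (P : Loc Unit n W) (D : DatE ι) (B T : Finset ι) :
    Loc (Unit ⊕ B) n (W × (T → Lab n)) where
  e0 w := P.e0 w.1 + P.ex D w.1 T w.2
  gam w l := P.gam w.1 l + ∑ t : T, F4.of (Phi (w.2 t) l) * D.a t
  del w l := Sum.elim (P.del w.1 l) fun b => ∑ t : T, if b.1 = t.1 then Lk l (w.2 t) else 0

theorem ext_del_inl (P : Loc Unit n W) (D : DatE ι) (B T : Finset ι) (w : W × (T → Lab n))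
    (l : Lab n) (j : Unit) : (P.ext D B T).del w l (Sum.inl j) = P.del w.1 l j := rfl

theorem ext_del_mem (P : Loc Unit n W) (D : DatE ι) (B T : Finset ι) (w : W × (T → Lab n))
    (l : Lab n) (b : B) (hb : b.1 ∈ T) :
    (P.ext D B T).del w l (Sum.inr b) = Lk l (w.2 ⟨b.1, hb⟩) := by
  show ∑ t : T, (if b.1 = t.1 then Lk l (w.2 t) else 0) = _
  rw [sum_eq_single (⟨b.1, hb⟩ : T)]
  · rw [if_pos rfl]
  · intro t _ ht
    rw [if_neg]
    intro h
    exact ht (Subtype.ext h.symm)
  · intro h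
    exact absurd (mem_univ _) h

theorem ext_del_not (P : Loc Unit n W) (D : DatE ι) (B T : Finset ι) (w : W × (T → Lab n))
    (l : Lab n) (b : B) (hb : b.1 ∉ T) : (P.ext D B T).del w l (Sum.inr b) = 0 := by
  show ∑ t : T, (if b.1 = t.1 then Lk l (w.2 t) else 0) = _
  refine sum_eq_zero fun t _ => if_neg ?_
  intro h
  exact hb (h ▸ t.2)

theorem Qf_par {n : ℕ} (v x y : Lab n) :
    Qf v + Qf (v + x) + Qf (v + y) + Qf (v + x + y) = Bf x y := by
  rw [Qf_add (v + x) y, Qf_add v x, Qf_add v y, Bf_add']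
  generalize Qf v = a
  generalize Qf x = b
  generalize Qf y = c
  generalize Bf v x = d
  generalize Bf v y = e
  generalize Bf x y = f
  revert a b c d e f
  decide

theorem ext_Ok {P : Loc Unit n W} {ρ : ZMod 2} {τ : Unit → ZMod 2} (h : P.Ok ρ τ) (D : DatE ι)
    (B T : Finset ι) :
    (P.ext D B T).Ok ρ (Sum.elim τ fun b => if b.1 ∈ T then 1 else 0) where
  gam4 w u x y := by
    show F4.tr (P.gam w.1 u + ∑ t : T, F4.of (Phi (w.2 t) u) * D.a t +
      (P.gam w.1 (u + x) + ∑ t : T, F4.of (Phi (w.2 t) (u + x)) * D.a t) +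
      (P.gam w.1 (u + y) + ∑ t : T, F4.of (Phi (w.2 t) (u + y)) * D.a t) +
      (P.gam w.1 (u + x + y) + ∑ t : T, F4.of (Phi (w.2 t) (u + x + y)) * D.a t)) = _
    have e1 : ∑ t : T, F4.of (Phi (w.2 t) u) * D.a t +
        ∑ t : T, F4.of (Phi (w.2 t) (u + x)) * D.a t +
        ∑ t : T, F4.of (Phi (w.2 t) (u + y)) * D.a t +
        ∑ t : T, F4.of (Phi (w.2 t) (u + x + y)) * D.a t = 0 := by
      rw [← sum_add_distrib, ← sum_add_distrib, ← sum_add_distrib]
      refine sum_eq_zero fun t _ => ?_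
      rw [← add_mul, ← add_mul, ← add_mul, ← F4of_add, ← F4of_add, ← F4of_add, Phi_aff,
        F4of_zero, zero_mul]
    have e2 : P.gam w.1 u + ∑ t : T, F4.of (Phi (w.2 t) u) * D.a t +
      (P.gam w.1 (u + x) + ∑ t : T, F4.of (Phi (w.2 t) (u + x)) * D.a t) +
      (P.gam w.1 (u + y) + ∑ t : T, F4.of (Phi (w.2 t) (u + y)) * D.a t) +
      (P.gam w.1 (u + x + y) + ∑ t : T, F4.of (Phi (w.2 t) (u + x + y)) * D.a t) =
      (P.gam w.1 u + P.gam w.1 (u + x) + P.gam w.1 (u + y) + P.gam w.1 (u + x + y)) +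
      (∑ t : T, F4.of (Phi (w.2 t) u) * D.a t +
        ∑ t : T, F4.of (Phi (w.2 t) (u + x)) * D.a t +
        ∑ t : T, F4.of (Phi (w.2 t) (u + y)) * D.a t +
        ∑ t : T, F4.of (Phi (w.2 t) (u + x + y)) * D.a t) := by ring
    rw [e2, e1, add_zero]
    exact h.gam4 w.1 u x y
  del4 w u x y j := by
    rcases j with j | b
    · exact h.del4 w.1 u x y j
    · by_cases hb : b.1 ∈ T
      · rw [ext_del_mem _ _ _ _ _ _ _ hb, ext_del_mem _ _ _ _ _ _ _ hb,
          ext_del_mem _ _ _ _ _ _ _ hb, ext_del_mem _ _ _ _ _ _ _ hb, Lk_eq, Lk_eq, Lk_eq, Lk_eq]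
        show _ = (if b.1 ∈ T then 1 else 0) * Bf x y
        rw [if_pos hb, one_mul]
        generalize w.2 ⟨b.1, hb⟩ = v
        have e1 : u + x + v = u + v + x := by abel
        have e2 : u + y + v = u + v + y := by abel
        have e3 : u + x + y + v = u + v + x + y := by abel
        rw [e1, e2, e3]
        exact Qf_par _ _ _
      · rw [ext_del_not _ _ _ _ _ _ _ hb, ext_del_not _ _ _ _ _ _ _ hb,
          ext_del_not _ _ _ _ _ _ _ hb, ext_del_not _ _ _ _ _ _ _ hb]
        show _ = (if b.1 ∈ T then 1 else 0) * Bf x y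
        rw [if_neg hb, zero_mul]
        rfl
  cst w U hU j hj := by
    rcases j with j | b
    · exact h.cst w.1 U hU j hj
    · by_cases hb : b.1 ∈ T
      · simp only [ext_del_mem _ _ _ _ _ _ _ hb] at hj ⊢
        obtain ⟨h1, h2⟩ := mem_Us'.1 hU
        by_cases hz : w.2 ⟨b.1, hb⟩ ∈ U
        · exact fun l hl => h1 l hl _ hz
        · obtain ⟨l, hl, l', hl', h3, h4⟩ := K2 h1 h2 hz
          have h5 := hj l hl l' hl'
          rw [h3, h4] at h5
          exact absurd h5 one_ne_zero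
      · exact fun l _ => ext_del_not _ _ _ _ _ _ _ hb

/-- The conditions of the additional characters. -/
theorem ext_del_iff (P : Loc Unit n W) (D : DatE ι) {B T : Finset ι} (hT : T ⊆ B)
    (w : W × (T → Lab n)) {U : Finset (Lab n)} (hU : U ∈ Us n) :
    (∀ l ∈ U, (P.ext D B T).del w l = 0) ↔ (∀ l ∈ U, P.del w.1 l = 0) ∧ ∀ t, w.2 t ∈ U := by
  obtain ⟨h1, h2⟩ := mem_Us'.1 hU
  constructor
  · intro h
    refine ⟨fun l hl => funext fun j => congrFun (h l hl) (Sum.inl j), fun t => ?_⟩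
    by_contra hz
    obtain ⟨l, hl, -, -, h3, -⟩ := K2 h1 h2 hz
    have h5 := congrFun (h l hl) (Sum.inr ⟨t.1, hT t.2⟩)
    rw [ext_del_mem P D B T w l ⟨t.1, hT t.2⟩ t.2] at h5
    have h6 : Lk l (w.2 t) = 0 := h5
    rw [h3] at h6
    exact one_ne_zero h6
  · rintro ⟨h3, h4⟩ l hl
    funext j
    rcases j with j | b
    · exact congrFun (h3 l hl) j
    · by_cases hb : b.1 ∈ T
      · rw [ext_del_mem P D B T w l b hb]
        exact h1 l hl _ (h4 _)
      · exact ext_del_not P D B T w l b hb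

theorem th_ext (P : Loc Unit n W) (D : DatE ι) (B : Finset ι) {T : Finset ι} (y : F4)
    (w : W × (T → Lab n)) {U : Finset (Lab n)} (hz : ∀ t, w.2 t ∈ U) (A : Lab n → F4) :
    ((P.ext D B T).sys y w).th U A = (P.sys y w.1).th U A +
      plU (P.sys y w.1).toLSys U A (fun l => D.toDat.A (famOf T w.2 l)) +
      ∑ l ∈ U, ∑ m ∈ U, (Phi m l + Phi l m) * F4.tr (A l * D.toDat.A (famOf T w.2 m)) := by
  have h1 : ∀ l, F4.tr (((P.ext D B T).sys y w).gam l * A l) = F4.tr ((P.sys y w.1).gam l * A l) +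
      ∑ m ∈ U, Phi m l * F4.tr (A l * D.toDat.A (famOf T w.2 m)) := by
    intro l
    have h2 : ((P.ext D B T).sys y w).gam l = (P.sys y w.1).gam l +
        ∑ m ∈ U, F4.of (Phi m l) * D.toDat.A (famOf T w.2 m) := by
      rw [← sum_famOf D.toDat T w.2 hz fun m => F4.of (Phi m l)]
      show P.gam w.1 l + _ + y = P.gam w.1 l + y + _
      ring
    rw [h2, add_mul, Da.F4.tr_add, sum_mul, Da.F4.tr_sum]
    congr 1
    refine sum_congr rfl fun m _ => ?_
    have hd : ∀ (t : ZMod 2) (x y : F4), F4.tr (F4.of t * x * y) = t * F4.tr (y * x) := by decide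
    exact hd _ _ _
  have h3 : ∑ l ∈ U, ∑ m ∈ U, Phi m l * F4.tr (A l * D.toDat.A (famOf T w.2 m)) =
      plU (P.sys y w.1).toLSys U A (fun l => D.toDat.A (famOf T w.2 l)) +
      ∑ l ∈ U, ∑ m ∈ U, (Phi m l + Phi l m) * F4.tr (A l * D.toDat.A (famOf T w.2 m)) := by
    unfold plU
    rw [← sum_add_distrib]
    refine sum_congr rfl fun l _ => ?_
    rw [← sum_add_distrib]
    refine sum_congr rfl fun m _ => ?_
    show _ = Phi l m * _ + _
    have h2 : (2 : ZMod 2) = 0 := rfl
    linear_combination (- Phi l m * F4.tr (A l * D.toDat.A (famOf T w.2 m))) * h2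
  unfold LSys.th
  rw [sum_congr rfl fun l _ => h1 l, sum_add_distrib, h3]
  show _ = _ + ∑ l ∈ U, ∑ m ∈ U, (if (P.sys y w.1).o l < (P.sys y w.1).o m then
    (P.sys y w.1).Phi m l * F4.tr (A l * A m) else 0) + _ + _
  have e : ∑ l ∈ U, ∑ m ∈ U, (if ((P.ext D B T).sys y w).o l < ((P.ext D B T).sys y w).o m then
      ((P.ext D B T).sys y w).Phi m l * F4.tr (A l * A m) else 0) =
      ∑ l ∈ U, ∑ m ∈ U, (if (P.sys y w.1).o l < (P.sys y w.1).o m then
        (P.sys y w.1).Phi m l * F4.tr (A l * A m) else 0) := rfl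
  rw [e]
  ring

theorem th_y {κ : Type} (P : Loc κ n W) (y : F4) (w : W) (U : Finset (Lab n)) (K : Lab n → F4) :
    (P.sys y w).th U K = (P.sys 0 w).th U K + F4.tr (y * ∑ l ∈ U, K l) := by
  unfold LSys.th
  have h2 : ∑ l ∈ U, F4.tr ((P.sys y w).gam l * K l) =
      ∑ l ∈ U, F4.tr ((P.sys 0 w).gam l * K l) + F4.tr (y * ∑ l ∈ U, K l) := by
    rw [mul_sum, Da.F4.tr_sum, ← sum_add_distrib]
    refine sum_congr rfl fun l _ => ?_
    show F4.tr ((P.gam w l + y) * K l) = F4.tr ((P.gam w l + 0) * K l) + _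
    rw [add_zero, add_mul, Da.F4.tr_add]
  rw [h2]
  show _ = _ + ∑ l ∈ U, ∑ m ∈ U, (if (P.sys y w).o l < (P.sys y w).o m then
    (P.sys y w).Phi m l * F4.tr (K l * K m) else 0) + _
  ring

/-- The sum over the labels of the border. -/
theorem cU_ext (P : Loc Unit n W) (D : DatE ι) (hD : D.toDat.Rec) {B T : Finset ι} (hT : T ⊆ B)
    (y : F4) (w : W) {U : Finset (Lab n)} (hU : U ∈ Us n) :
    ∑ z : T → Lab n, sg (P.ex D w T z) * ((P.ext D B T).sys y (w, z)).cU U =
      (4 ^ n) ^ T.card * sg (F4.tr (y * D.toDat.A T)) * (P.sys y w).cU U := by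
  classical
  obtain ⟨hU1, hU2⟩ := mem_Us'.1 hU
  by_cases hdel : ∀ l ∈ U, P.del w l = 0
  · have h1 : ∀ z : T → Lab n, sg (P.ex D w T z) * ((P.ext D B T).sys y (w, z)).cU U =
        if z ∈ Fintype.piFinset fun _ : T => U then
          sg (F4.tr (y * D.toDat.A T)) * (P.sys y w).cU U else 0 := by
      intro z
      by_cases hz : z ∈ Fintype.piFinset fun _ : T => U
      · rw [if_pos hz]
        rw [Fintype.mem_piFinset] at hz
        have hc : ∀ l ∈ U, ((P.ext D B T).sys y (w, z)).del l = 0 :=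
          (ext_del_iff P D hT (w, z) hU).2 ⟨hdel, hz⟩
        have hc' : ∀ l ∈ U, (P.sys y w).del l = 0 := hdel
        rw [LSysG.cU, if_pos hc, LSysG.cU, if_pos hc']
        set K : Lab n → F4 := fun l => D.toDat.A (famOf T z l) with hK
        have hex : P.ex D w T z = (P.sys 0 w).th U K := by
          unfold Loc.ex
          rw [eS_unl D.toDat hD (P.sys 0 w).toLSys (sys_inj P 0 w) (fun l => Phi_self l)
            (U := U) hU1 T z hz]
          have h2 : ∑ j : T, P.del w (z j) () * D.g j = 0 := by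
            refine sum_eq_zero fun j _ => ?_
            rw [hdel _ (hz j)]
            exact zero_mul _
          rw [h2, add_zero]
        have hth : ∀ A : Lab n → F4, P.ex D w T z + ((P.ext D B T).sys y (w, z)).th U A =
            F4.tr (y * D.toDat.A T) + (P.sys y w).th U (A + K) := by
          intro A
          have h3 : ∑ l ∈ U, ∑ m ∈ U, (Phi m l + Phi l m) *
              F4.tr (A l * D.toDat.A (famOf T z m)) = 0 := by
            refine sum_eq_zero fun l hl => sum_eq_zero fun m hm => ?_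
            have h4 : Phi m l + Phi l m = 0 := hU1 m hm l hl
            rw [h4, zero_mul]
          rw [th_ext P D B y (w, z) hz A, h3, add_zero,
            th_add (sys_inj P y w) (fun l => Phi_self l) (U := U) hU1 A K, th_y P y w U K, hex,
            sum_famOf_one D.toDat T z hz]
          have h2 : (2 : ZMod 2) = 0 := rfl
          show (P.sys 0 w).th U K + ((P.sys y w).th U A + plU (P.sys y w).toLSys U A K) = _
          linear_combination (- F4.tr (y * D.toDat.A T)) * h2
        unfold LSys.cU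
        rw [← mul_div_assoc, ← mul_div_assoc, mul_sum, mul_sum]
        congr 1
        rw [← Equiv.sum_comp (Equiv.addRight K) fun A => sg (F4.tr (y * D.toDat.A T)) *
          sg ((P.sys y w).th U A)]
        refine sum_congr rfl fun A _ => ?_
        rw [← sgD_add, hth A, sgD_add]
        rfl
      · rw [if_neg hz]
        have hc : ¬ ∀ l ∈ U, ((P.ext D B T).sys y (w, z)).del l = 0 := by
          intro h
          exact hz (Fintype.mem_piFinset.2 ((ext_del_iff P D hT (w, z) hU).1 h).2)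
        rw [LSysG.cU, if_neg hc, mul_zero]
    rw [sum_congr rfl fun z _ => h1 z, sum_ite_mem, univ_inter, sum_const, Fintype.card_piFinset]
    simp only [prod_const, card_univ, Fintype.card_coe, hU2, nsmul_eq_mul]
    push_cast
    ring
  · have hc' : ¬ ∀ l ∈ U, (P.sys y w).del l = 0 := hdel
    rw [LSysG.cU, if_neg hc', mul_zero]
    refine sum_eq_zero fun z _ => ?_
    have hc : ¬ ∀ l ∈ U, ((P.ext D B T).sys y (w, z)).del l = 0 := by
      intro h
      exact hdel ((ext_del_iff P D hT (w, z) hU).1 h).1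
    rw [LSysG.cU, if_neg hc, mul_zero]

/-- The main term. -/
theorem G_ext [Fintype W] (P : Loc Unit n W) (D : DatE ι) (hD : D.toDat.Rec) {B T : Finset ι}
    (hT : T ⊆ B) (y : F4) :
    (P.ext D B T).G y = (4 ^ n) ^ T.card * sg (F4.tr (y * D.toDat.A T)) * P.G y := by
  unfold Loc.G
  rw [Fintype.sum_prod_type, mul_sum]
  refine sum_congr rfl fun w _ => ?_
  have h1 : ∀ z : T → Lab n, sg ((P.ext D B T).e0 (w, z)) *
      ∑ U ∈ Us n, ((P.ext D B T).sys y (w, z)).cU U = sg (P.e0 w) *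
      ∑ U ∈ Us n, sg (P.ex D w T z) * ((P.ext D B T).sys y (w, z)).cU U := by
    intro z
    show sg (P.e0 w + P.ex D w T z) * _ = _
    rw [sgD_add, mul_assoc, mul_sum (a := sg (P.ex D w T z))]
  rw [sum_congr rfl fun z _ => h1 z, ← mul_sum, sum_comm,
    sum_congr rfl fun U hU => cU_ext P D hD hT y w hU, ← mul_sum]
  ring

end Ext

end

end Pool.Agent.Lib.MP_1a91b9_ntP
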