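import Pool.Agent.Lib.MP_1a91b9_ntE.D.MomE
import Pool.Agent.Lib.MP_1a91b9_ntP.J.Ext

/-!
# MP_1a91b9_nt, several twists over `Q(sqrt -3)`, part D: the local systems of the classes
-/

set_option autoImplicit false
set_option linter.unusedSectionVars false

namespace Pool.Agent.Lib.MP_1a91b9_ntP

open Finset Pool.Agent.Lib.MP_1a91b9_ntH Pool.Agent.Lib.MP_1a91b9_ntH.Da
  Pool.Agent.Lib.MP_1a91b9_ntH2.Db Pool.Agent.Lib.MP_1a91b9_ntE
  Pool.Agent.Lib.MP_1a91b9_ntE.Dc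

noncomputable section

variable {n : ℕ}

/-- The local system of the odd class `c`. -/
def odL (n : ℕ) (c : F4) : Loc Unit n Unit where
  e0 _ := 0
  gam _ l := gam2 c 0 l
  del _ _ _ := 0

/-- The local system of the even class `c`. -/
def evL (n : ℕ) (c : F4) : Loc Unit n ((Fin n → F4) × (Fin n → F4)) where
  e0 w := F4.tr (c * (w.2 ⬝ᵥ w.1))
  gam w l := gamE c 0 w.2 w.1 l
  del w l _ := delE w.1 l

theorem tr_gam2' (c : F4) (l : Lab n) : F4.tr (gam2 c 0 l) = (1 + F4.tr c) * Qf l := by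
  have hQ : Qf l = F4.tr (F4.cj (l.1 ⬝ᵥ l.2)) := by
    rw [Qf, dotProduct_comm, Da.F4.tr_cj]
  have hd : ∀ g c : F4, F4.tr (g + 0 + c * F4.of (F4.tr g)) = (1 + F4.tr c) * F4.tr g := by decide
  rw [gam2, gam, hQ]
  exact hd _ _

theorem odL_Ok (n : ℕ) (c : F4) : (odL n c).Ok (1 + F4.tr c) fun _ => 0 where
  gam4 w u x y := by
    show F4.tr (gam2 c 0 u + gam2 c 0 (u + x) + gam2 c 0 (u + y) + gam2 c 0 (u + x + y)) = _
    rw [Da.F4.tr_add, Da.F4.tr_add, Da.F4.tr_add, tr_gam2', tr_gam2', tr_gam2', tr_gam2',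
      ← Qf_par u x y]
    ring
  del4 w u x y j := by
    show (0 : ZMod 2) + 0 + 0 + 0 = 0 * _
    rw [zero_mul, add_zero, add_zero, add_zero]
  cst _ _ _ _ _ _ _ := rfl

theorem evL_Ok (n : ℕ) (c : F4) : (evL n c).Ok (1 + F4.tr c) fun _ => 1 where
  gam4 w u x y := by
    have h1 : ∀ l : Lab n, F4.tr (gamE c 0 w.2 w.1 l) = (1 + F4.tr c) * Qf l +
        F4.tr (w.2 ⬝ᵥ l.2) := by
      intro l
      have h2 := tr_gamE c 0 w.2 w.1 l 1
      rw [mul_one, mul_one, mul_one, tr_gam2'] at h2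
      have h3 : F4.tr 1 = 0 := by decide
      rw [h2, h3, mul_zero, add_zero]
    show F4.tr (gamE c 0 w.2 w.1 u + gamE c 0 w.2 w.1 (u + x) + gamE c 0 w.2 w.1 (u + y) +
      gamE c 0 w.2 w.1 (u + x + y)) = _
    rw [Da.F4.tr_add, Da.F4.tr_add, Da.F4.tr_add, h1, h1, h1, h1, ← Qf_par u x y]
    simp only [Prod.snd_add, dotProduct_add, Da.F4.tr_add]
    have h2 : (2 : ZMod 2) = 0 := rfl
    linear_combination (2 * F4.tr (w.2 ⬝ᵥ u.2) + F4.tr (w.2 ⬝ᵥ x.2) + F4.tr (w.2 ⬝ᵥ y.2)) * h2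
  del4 w u x y j := by
    show delE w.1 u + delE w.1 (u + x) + delE w.1 (u + y) + delE w.1 (u + x + y) = 1 * _
    rw [one_mul, ← Qf_par u x y]
    unfold delE
    simp only [Prod.fst_add, dotProduct_add, Da.F4.tr_add]
    have h2 : (2 : ZMod 2) = 0 := rfl
    linear_combination (2 * F4.tr (w.1 ⬝ᵥ u.1) + F4.tr (w.1 ⬝ᵥ x.1) + F4.tr (w.1 ⬝ᵥ y.1)) * h2
  cst w U hU j hj := by
    obtain ⟨h1, h2⟩ := mem_Us'.1 hU
    have h3 : ∀ l, (evL n c).del w l j = Lk l ((0, w.1) : Lab n) := by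
      intro l
      show delE w.1 l = _
      rw [delE_eq, Lk_eq]
    simp only [h3] at hj ⊢
    by_cases hz : ((0, w.1) : Lab n) ∈ U
    · exact fun l hl => h1 l hl _ hz
    · obtain ⟨l, hl, l', hl', h5, h6⟩ := K2 h1 h2 hz
      have h7 := hj l hl l' hl'
      rw [h5, h6] at h7
      exact absurd h7 one_ne_zero

theorem odL_G (n : ℕ) (c y : F4) : (odL n c).G y = if y = 0 then (Nk n : ℝ) else 0 := by
  rw [← K3c (oL (L := Lab n)) oL_inj c y]
  unfold Loc.G
  rw [Fintype.sum_unique]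
  show sg 0 * _ = _
  rw [Da.sg_zero, one_mul]
  refine sum_congr rfl fun U _ => ?_
  have h1 : ∀ l ∈ U, ((odL n c).sys y ()).del l = 0 := fun l _ => rfl
  rw [LSysG.cU, if_pos h1]
  unfold LSys.cU cU2
  congr 1
  refine sum_congr rfl fun A _ => ?_
  congr 1
  unfold LSys.th theta2
  congr 1
  refine sum_congr rfl fun l _ => ?_
  show F4.tr ((gam2 c 0 l + y) * A l) = _
  have h2 : gam2 c 0 l + y = gam2 c y l := by
    unfold gam2 gam
    ring
  rw [h2]

theorem evL_G (n : ℕ) (c y : F4) :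
    (evL n c).G y = if y = 0 then (4 : ℝ) ^ n * Nk n else 0 := by
  classical
  rw [← K3E (oL (L := Lab n)) oL_inj c y]
  unfold Loc.G
  rw [Fintype.sum_prod_type]
  refine sum_congr rfl fun y' _ => sum_congr rfl fun x' _ => ?_
  show sg (F4.tr (c * (x' ⬝ᵥ y'))) * _ = _
  congr 1
  refine sum_congr rfl fun U _ => ?_
  have hc : (∀ l ∈ U, ((evL n c).sys y (y', x')).del l = 0) ↔ ∀ l ∈ U, delE y' l = 0 := by
    constructor
    · exact fun h l hl => congrFun (h l hl) ()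
    · exact fun h l hl => funext fun _ => h l hl
  rw [LSysG.cU, cUE, if_congr hc rfl rfl]
  refine if_congr Iff.rfl ?_ rfl
  unfold LSys.cU
  congr 1
  refine sum_congr rfl fun A _ => ?_
  congr 1
  unfold LSys.th thE
  congr 1
  refine sum_congr rfl fun l _ => ?_
  show F4.tr ((gamE c 0 x' y' l + y) * A l) = _
  have h2 : gamE c 0 x' y' l + y = gamE c y x' y' l := by
    unfold gamE gam2 gam
    ring
  rw [h2]

variable {ι : Type} [DecidableEq ι]

theorem odL_ex (D : DatE ι) (c : F4) (S : Finset ι) (w : Unit) (F : S → Lab n) :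
    (odL n c).ex D w S F = eS2 D.toDat c 0 S F := by
  have h1 : ∑ j : S, (odL n c).del w (F j) () * D.g j = 0 := sum_eq_zero fun j _ => zero_mul _
  unfold Loc.ex
  rw [h1, add_zero]
  unfold eS2 Dat.eS
  congr 1
  refine sum_congr rfl fun j _ => ?_
  show F4.tr ((gam2 c 0 (F j) + 0) * D.a j) = _
  rw [add_zero]

theorem odL_exp (D : DatE ι) (c : F4) (S : Finset ι) :
    ((twD c D.toDat).kc S : ℝ) ^ n * (1 * (4 ^ n) ^ S.card) =
      ∑ w, sg ((odL n c).e0 w) * ∑ F : S → Lab n, sg ((odL n c).ex D w S F) := by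
  have h := kc_pow_mul2 (k := n) D.toDat c 0 S
  rw [zero_mul, Da.F4.tr_zero, Da.sg_zero, mul_one] at h
  have h1 : ∀ w : Unit, sg ((odL n c).e0 w) * ∑ F : S → Lab n, sg ((odL n c).ex D w S F) =
      ∑ F : S → Lab n, sg (eS2 D.toDat c 0 S F) := by
    intro w
    have h2 : (odL n c).e0 w = 0 := rfl
    rw [h2, Da.sg_zero, one_mul]
    exact sum_congr rfl fun F _ => by rw [odL_ex]
  rw [one_mul, h, sum_congr rfl fun w _ => h1 w, sum_const, card_univ, Fintype.card_unit, one_smul]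

theorem evL_ex (D : DatE ι) (c : F4) (S : Finset ι) (w : (Fin n → F4) × (Fin n → F4))
    (F : S → Lab n) : (evL n c).ex D w S F = D.eS (LSkE n c 0 w.2 w.1) S F := by
  have h1 : ∑ j : S, F4.tr (((evL n c).sys 0 w).gam (F j) * D.a j) =
      ∑ j : S, F4.tr ((LSkE n c 0 w.2 w.1).gam (F j) * D.a j) := by
    refine sum_congr rfl fun j _ => ?_
    show F4.tr ((gamE c 0 w.2 w.1 (F j) + 0) * D.a j) = _
    rw [add_zero]
    rfl
  unfold Loc.ex Dat.eS DatE.eS Dat.eS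
  rw [h1]
  rfl

theorem evL_exp (D : DatE ι) (c : F4) (S : Finset ι) :
    (D.kcE c S : ℝ) ^ n * (4 ^ n * (4 ^ n) ^ S.card) =
      ∑ w, sg ((evL n c).e0 w) * ∑ F : S → Lab n, sg ((evL n c).ex D w S F) := by
  have h := kcE_pow_mul (k := n) D c 0 S
  have h0 : F4.tr (0 * D.A S) = 0 := by rw [zero_mul]; rfl
  rw [h0, Da.sg_zero, mul_one] at h
  rw [h]
  have h1 : ∀ w : (Fin n → F4) × (Fin n → F4), sg ((evL n c).e0 w) *
      ∑ F : S → Lab n, sg ((evL n c).ex D w S F) = sg (F4.tr (c * (w.2 ⬝ᵥ w.1))) *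
      ∑ F : S → Lab n, sg (D.eS (LSkE n c 0 w.2 w.1) S F) := by
    intro w
    have h3 : ∑ F : S → Lab n, sg ((evL n c).ex D w S F) =
      ∑ F : S → Lab n, sg (D.eS (LSkE n c 0 w.2 w.1) S F) :=
        sum_congr rfl fun F _ => congrArg sg (evL_ex D c S w F)
    rw [h3]
    rfl
  rw [sum_congr rfl fun w _ => h1 w, Fintype.sum_prod_type]

/-! ### Base systems -/

/-- A base system: the local systems of the moments of one matrix. -/
structure Bs (D : DatE ι) where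
  W : ℕ → Type
  fin : ∀ n, Fintype (W n)
  L : ∀ n, Loc Unit n (W n)
  b : ℕ → ℝ
  kz : Finset ι → ℕ
  ρ : ZMod 2
  τ : ZMod 2
  pos : ∀ n, 0 < b n
  ok : ∀ n, (L n).Ok ρ fun _ => τ
  G : ∀ n y, (L n).G y = if y = 0 then b n * Nk n else 0
  exp : ∀ n (S : Finset ι), (kz S : ℝ) ^ n * (b n * (4 ^ n) ^ S.card) =
    ∑ w, sg ((L n).e0 w) * ∑ F : S → Lab n, sg ((L n).ex D w S F)
  pow : ∀ S, ∃ r : ℕ, kz S = 4 ^ r

/-- The base system of the odd class `c`. -/
def odB [PS ι] (D : DatE ι) (c : F4) : Bs D where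
  W _ := Unit
  fin _ := inferInstance
  L n := odL n c
  b _ := 1
  kz S := (twD c D.toDat).kc S
  ρ := 1 + F4.tr c
  τ := 0
  pos _ := one_pos
  ok n := odL_Ok n c
  G n y := by
    rw [one_mul]
    exact odL_G n c y
  exp _ S := odL_exp D c S
  pow S := kc_pow (twD c D.toDat) S

/-- The base system of the even class `c`. -/
def evB [PS ι] (D : DatE ι) (c : F4) : Bs D where
  W n := (Fin n → F4) × (Fin n → F4)
  fin _ := inferInstance
  L n := evL n c
  b n := 4 ^ n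
  kz S := D.kcE c S
  ρ := 1 + F4.tr c
  τ := 1
  pos _ := by positivity
  ok n := evL_Ok n c
  G n y := evL_G n c y
  exp _ S := evL_exp D c S
  pow S := kcE_pow D c S

/-- The kernel is zero. -/
theorem odB_one [PS ι] (D : DatE ι) (c : F4) (S : Finset ι) :
    (odB D c).kz S = 1 ↔ ((twD c D.toDat).M S).det ≠ 0 := kc_eq_one (twD c D.toDat) S

theorem evB_one [PS ι] (D : DatE ι) (c : F4) (S : Finset ι) :
    (evB D c).kz S = 1 ↔ (D.NE c S).det ≠ 0 := kcE_eq_one D c S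

end

end Pool.Agent.Lib.MP_1a91b9_ntP
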