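import Pool.Agent.Lib.MP_1a91b9_ntP.J.Ext

/-!
# MP_1a91b9_nt, several twists over `Q(sqrt -3)`, part D: the labellings of `S ∪ T`

A labelling of `S ∪ T` is a labelling of `S` and a labelling of `T`.
-/

set_option autoImplicit false
set_option linter.unusedSectionVars false

namespace Pool.Agent.Lib.MP_1a91b9_ntP

open Finset Pool.Agent.Lib.MP_1a91b9_ntH Pool.Agent.Lib.MP_1a91b9_ntH.Da
  Pool.Agent.Lib.MP_1a91b9_ntE
open Pool.Agent.Lib.MP_1a91b9_ntQ (Off up dn up_injective sum_up up_mem_Sx mem_up up_dn dn_up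
  disj_up)

noncomputable section

variable {ι : Type} [DecidableEq ι] {B : Finset ι}

/-- The map of the index sets. -/
def glF (S : Finset (Off B)) (T : Finset ι) : S ⊕ T → ↥(up S ∪ T) :=
  Sum.elim (fun s => ⟨s.1.1, mem_union_left _ (mem_up.2 ⟨s.1.2, s.2⟩)⟩)
    fun t => ⟨t.1, mem_union_right _ t.2⟩

theorem glF_bij (S : Finset (Off B)) {T : Finset ι} (h : T ⊆ B) :
    Function.Bijective (glF S T) := by
  constructor
  · intro x y hxy
    have h1 : (glF S T x).1 = (glF S T y).1 := congrArg Subtype.val hxy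
    rcases x with s | t <;> rcases y with s' | t'
    · have h2 : s.1.1 = s'.1.1 := h1
      rw [Subtype.ext (Subtype.ext h2)]
    · have h2 : s.1.1 = t'.1 := h1
      exact absurd (h t'.2) (h2 ▸ s.1.2)
    · have h2 : t.1 = s'.1.1 := h1
      exact absurd (h t.2) (h2.symm ▸ s'.1.2)
    · have h2 : t.1 = t'.1 := h1
      rw [Subtype.ext h2]
  · rintro ⟨q, hq⟩
    rcases mem_union.1 hq with hq' | hq'
    · obtain ⟨h1, h2⟩ := mem_up.1 hq'
      exact ⟨Sum.inl ⟨⟨q, h1⟩, h2⟩, rfl⟩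
    · exact ⟨Sum.inr ⟨q, hq'⟩, rfl⟩

/-- The index sets. -/
def glE (S : Finset (Off B)) {T : Finset ι} (h : T ⊆ B) : S ⊕ T ≃ ↥(up S ∪ T) :=
  Equiv.ofBijective (glF S T) (glF_bij S h)

theorem sum_glE {M : Type} [AddCommMonoid M] (S : Finset (Off B)) {T : Finset ι} (h : T ⊆ B)
    (F : ↥(up S ∪ T) → M) :
    ∑ j, F j = ∑ s : S, F (glE S h (Sum.inl s)) + ∑ t : T, F (glE S h (Sum.inr t)) := by
  rw [← Equiv.sum_comp (glE S h), Fintype.sum_sum_type]

theorem card_glE (S : Finset (Off B)) {T : Finset ι} (h : T ⊆ B) :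
    (up S ∪ T).card = S.card + T.card := by
  have h1 := Fintype.card_congr (glE S h)
  rw [Fintype.card_sum, Fintype.card_coe, Fintype.card_coe, Fintype.card_coe] at h1
  exact h1.symm

variable {n : ℕ} {W : Type}

/-- The exponent of a labelling of `S ∪ T`. -/
theorem ex_glue (P : Loc Unit n W) (D : DatE ι) (hD : D.toDat.Rec) (w : W) (S : Finset (Off B))
    {T : Finset ι} (h : T ⊆ B) (F : ↥(up S ∪ T) → Lab n) :
    P.ex D w (up S ∪ T) F = P.ex D w T (fun t => F (glE S h (Sum.inr t))) +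
      (offG D B).eS ((P.ext D B T).sys 0 (w, fun t => F (glE S h (Sum.inr t)))) S
        fun s => F (glE S h (Sum.inl s)) := by
  set f : S → Lab n := fun s => F (glE S h (Sum.inl s)) with hf
  set z : T → Lab n := fun t => F (glE S h (Sum.inr t)) with hz
  -- the left hand side
  have e1 : P.ex D w (up S ∪ T) F =
      (∑ s : S, F4.tr ((P.gam w (f s) + 0) * D.a s.1.1) +
        ∑ t : T, F4.tr ((P.gam w (z t) + 0) * D.a t.1)) +
      ((∑ s : S, (∑ s' : S, Phi (f s) (f s') * D.s s.1.1 s'.1.1 +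
          ∑ t : T, Phi (f s) (z t) * D.s s.1.1 t.1)) +
        ∑ t : T, (∑ s : S, Phi (z t) (f s) * D.s t.1 s.1.1 +
          ∑ t' : T, Phi (z t) (z t') * D.s t.1 t'.1)) +
      (∑ s : S, P.del w (f s) () * D.g s.1.1 + ∑ t : T, P.del w (z t) () * D.g t.1) := by
    unfold Loc.ex Dat.eS
    rw [sum_glE S h, sum_glE S h, sum_glE S h]
    congr 2
    congr 1
    · refine sum_congr rfl fun s _ => ?_
      rw [sum_glE S h]
      rfl
    · refine sum_congr rfl fun t _ => ?_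
      rw [sum_glE S h]
      rfl
  have e2 : P.ex D w T z = ∑ t : T, F4.tr ((P.gam w (z t) + 0) * D.a t.1) +
      ∑ t : T, ∑ t' : T, Phi (z t) (z t') * D.s t.1 t'.1 +
      ∑ t : T, P.del w (z t) () * D.g t.1 := rfl
  have e3 : (offG D B).eS ((P.ext D B T).sys 0 (w, z)) S f =
      (∑ s : S, F4.tr ((P.gam w (f s) + ∑ t : T, F4.of (Phi (z t) (f s)) * D.a t.1 + 0) *
        D.a s.1.1) + ∑ s : S, ∑ s' : S, Phi (f s) (f s') * D.s s.1.1 s'.1.1) +
      ∑ s : S, (P.del w (f s) () * D.g s.1.1 +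
        ∑ b : B, (∑ t : T, if b.1 = t.1 then Lk (f s) (z t) else 0) * D.s s.1.1 b.1) := by
    unfold DatG.eS
    congr 1
    refine sum_congr rfl fun s _ => ?_
    unfold DatG.lg
    rw [Fintype.sum_sum_type, Fintype.sum_unique]
    rfl
  have e4 : ∀ s : S, ∑ b : B, (∑ t : T, if b.1 = t.1 then Lk (f s) (z t) else 0) *
      D.s s.1.1 b.1 = ∑ t : T, Lk (f s) (z t) * D.s s.1.1 t.1 := by
    intro s
    simp only [sum_mul]
    rw [sum_comm]
    refine sum_congr rfl fun t _ => ?_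
    rw [sum_eq_single (⟨t.1, h t.2⟩ : B)]
    · rw [if_pos rfl]
    · intro b _ hb
      rw [if_neg, zero_mul]
      intro h'
      exact hb (Subtype.ext h')
    · intro h'
      exact absurd (mem_univ _) h'
  have e5 : ∀ s : S, F4.tr ((P.gam w (f s) + ∑ t : T, F4.of (Phi (z t) (f s)) * D.a t.1 + 0) *
        D.a s.1.1) = F4.tr ((P.gam w (f s) + 0) * D.a s.1.1) +
        ∑ t : T, Phi (z t) (f s) * F4.tr (D.a t.1 * D.a s.1.1) := by
    intro s
    rw [add_zero, add_zero, add_mul, Da.F4.tr_add, sum_mul, Da.F4.tr_sum]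
    congr 1
    refine sum_congr rfl fun t _ => ?_
    have hd : ∀ (t : ZMod 2) (x y : F4), F4.tr (F4.of t * x * y) = t * F4.tr (x * y) := by decide
    exact hd _ _ _
  have e6 : ∑ t : T, ∑ s : S, Phi (z t) (f s) * D.s t.1 s.1.1 =
      ∑ s : S, ∑ t : T, Phi (z t) (f s) * (D.s s.1.1 t.1 + F4.tr (D.a t.1 * D.a s.1.1)) := by
    rw [sum_comm]
    refine sum_congr rfl fun s _ => sum_congr rfl fun t _ => ?_
    have hne : t.1 ≠ s.1.1 := by
      intro h'
      exact s.1.2 (h' ▸ h t.2)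
    have h1 := hD t.1 s.1.1 hne
    have h2 : ∀ x y c : ZMod 2, x + y = c → x = y + c := by decide
    rw [h2 _ _ _ h1]
  rw [e1, e2, e3]
  simp only [e4, e5, sum_add_distrib, mul_add] at e6 ⊢
  rw [e6]
  have e7 : ∑ s : S, ∑ t : T, Lk (f s) (z t) * D.s s.1.1 t.1 =
      ∑ s : S, ∑ t : T, Phi (f s) (z t) * D.s s.1.1 t.1 +
      ∑ s : S, ∑ t : T, Phi (z t) (f s) * D.s s.1.1 t.1 := by
    rw [← sum_add_distrib]
    refine sum_congr rfl fun s _ => ?_
    rw [← sum_add_distrib]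
    refine sum_congr rfl fun t _ => ?_
    rw [Lk, add_mul]
  rw [e7]
  ring

/-- Sums over the labellings of `S ∪ T`. -/
theorem sum_glue {M : Type} [AddCommMonoid M] (S : Finset (Off B)) {T : Finset ι} (h : T ⊆ B)
    (G : (T → Lab n) → (S → Lab n) → M) :
    ∑ F : ↥(up S ∪ T) → Lab n, G (fun t => F (glE S h (Sum.inr t)))
      (fun s => F (glE S h (Sum.inl s))) = ∑ z : T → Lab n, ∑ f : S → Lab n, G z f := by
  rw [← Fintype.sum_prod_type']
  refine Fintype.sum_equiv (((glE S h).arrowCongr (Equiv.refl (Lab n))).symm.trans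
    ((Equiv.sumArrowEquivProdArrow S T (Lab n)).trans (Equiv.prodComm _ _))) _ _ fun F => ?_
  rfl

/-- The expansion with the labels of the border. -/
theorem exp_glue [Fintype W] (P : Loc Unit n W) (D : DatE ι) (hD : D.toDat.Rec)
    (S : Finset (Off B)) {T : Finset ι} (h : T ⊆ B) :
    ∑ w, sg (P.e0 w) * ∑ F : ↥(up S ∪ T) → Lab n, sg (P.ex D w (up S ∪ T) F) =
      ∑ w, sg ((P.ext D B T).e0 w) * ∑ f : S → Lab n,
        sg ((offG D B).eS ((P.ext D B T).sys 0 w) S f) := by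
  rw [Fintype.sum_prod_type]
  refine sum_congr rfl fun w _ => ?_
  have h1 : ∀ F : ↥(up S ∪ T) → Lab n, sg (P.ex D w (up S ∪ T) F) =
      (fun (z : T → Lab n) (f : S → Lab n) => sg (P.ex D w T z) *
        sg ((offG D B).eS ((P.ext D B T).sys 0 (w, z)) S f))
        (fun t => F (glE S h (Sum.inr t))) (fun s => F (glE S h (Sum.inl s))) := by
    intro F
    rw [ex_glue P D hD w S h F, sgD_add]
  rw [sum_congr rfl fun F _ => h1 F, sum_glue S h fun (z : T → Lab n) (f : S → Lab n) =>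
    sg (P.ex D w T z) * sg ((offG D B).eS ((P.ext D B T).sys 0 (w, z)) S f), mul_sum]
  refine sum_congr rfl fun z _ => ?_
  rw [← mul_sum, ← mul_assoc]
  congr 1
  show _ = sg (P.e0 w + P.ex D w T z)
  rw [sgD_add]

end

end Pool.Agent.Lib.MP_1a91b9_ntP
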