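import Pool.Agent.Lib.MP_1a91b9_ntH.D.Lim

/-!
# MP_1a91b9_nt, several twists over `Q(sqrt -3)`, part D: from the joint moments of several variables to the
density of the event that all of them are `1`
-/

set_option autoImplicit false
set_option linter.unusedSectionVars false

namespace Pool.Agent.Lib.MP_1a91b9_ntP

open Finset Filter Topology Pool.Agent.Lib.MP_1a91b9_ntH Pool.Agent.Lib.MP_1a91b9_ntH.Da

noncomputable section

/-! ### The inequality -/

theorem prod_sub_le {A : Type} [DecidableEq A] (s : Finset A) (u i : A → ℝ)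
    (hi : ∀ a, 0 ≤ i a) (hu : ∀ a, i a ≤ u a) :
    ∏ a ∈ s, u a - ∏ a ∈ s, i a ≤ ∑ a ∈ s, (u a - i a) * ∏ b ∈ s.erase a, u b := by
  have hu0 : ∀ a, 0 ≤ u a := fun a => (hi a).trans (hu a)
  induction s using Finset.induction_on with
  | empty => simp
  | insert a s ha ih =>
    rw [prod_insert ha, prod_insert ha, sum_insert ha, erase_insert ha]
    have h1 : ∀ b ∈ s, (u b - i b) * ∏ x ∈ (insert a s).erase b, u x =
        u a * ((u b - i b) * ∏ x ∈ s.erase b, u x) := by
      intro b hb
      have hab : a ≠ b := fun h => ha (h ▸ hb)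
      rw [erase_insert_of_ne hab, prod_insert fun h => ha (mem_of_mem_erase h)]
      ring
    rw [sum_congr rfl h1, ← mul_sum]
    have h2 : 0 ≤ ∑ b ∈ s, (u b - i b) * ∏ x ∈ s.erase b, u x :=
      sum_nonneg fun b _ => mul_nonneg (sub_nonneg.2 (hu b)) (prod_nonneg fun x _ => hu0 x)
    have h3 : u a * ∏ b ∈ s, u b - i a * ∏ b ∈ s, i b =
        (u a - i a) * ∏ b ∈ s, u b + i a * (∏ b ∈ s, u b - ∏ b ∈ s, i b) := by ring
    rw [h3]
    have h4 : i a * (∏ b ∈ s, u b - ∏ b ∈ s, i b) ≤
        u a * ∑ b ∈ s, (u b - i b) * ∏ x ∈ s.erase b, u x :=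
      (mul_le_mul_of_nonneg_left ih (hi a)).trans (mul_le_mul_of_nonneg_right (hu a) h2)
    linarith

theorem bonf {A : Type} [Fintype A] [DecidableEq A] (u i l : A → ℝ) (hi : ∀ a, 0 ≤ i a)
    (hu : ∀ a, i a ≤ u a) (hl : ∀ a, l a ≤ i a) :
    ∑ a, l a * ∏ b ∈ univ.erase a, u b - ((Fintype.card A : ℝ) - 1) * ∏ a, u a ≤ ∏ a, i a := by
  have hu0 : ∀ a, 0 ≤ u a := fun a => (hi a).trans (hu a)
  have h1 := prod_sub_le univ u i hi hu
  have h2 : ∑ a, (u a - i a) * ∏ b ∈ univ.erase a, u b ≤
      ∑ a, (u a - l a) * ∏ b ∈ univ.erase a, u b :=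
    sum_le_sum fun a _ => mul_le_mul_of_nonneg_right (sub_le_sub_left (hl a) _)
      (prod_nonneg fun x _ => hu0 x)
  have h3 : ∑ a, (u a - l a) * ∏ b ∈ univ.erase a, u b =
      (Fintype.card A : ℝ) * ∏ a, u a - ∑ a, l a * ∏ b ∈ univ.erase a, u b := by
    have h4 : ∀ a, (u a - l a) * ∏ b ∈ univ.erase a, u b =
        ∏ b, u b - l a * ∏ b ∈ univ.erase a, u b := by
      intro a
      rw [← mul_prod_erase univ u (mem_univ a)]
      ring
    rw [sum_congr rfl fun a _ => h4 a, sum_sub_distrib, sum_const, card_univ, nsmul_eq_mul]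
  linarith

/-! ### Mean values -/

variable {β : Type}

/-- The mean value of `f` over the finite sets `B X` is `v`, up to `o(X) / #(B X)`. -/
def MV (B : ℕ → Finset β) (f : β → ℝ) (v : ℝ) : Prop :=
  ∀ ε : ℝ, 0 < ε → ∃ X₀ : ℕ, ∀ X : ℕ, X₀ ≤ X → |∑ b ∈ B X, f b - v * (B X).card| ≤ ε * X

theorem MV.add {B : ℕ → Finset β} {f h : β → ℝ} {v w : ℝ} (hf : MV B f v) (hh : MV B h w) :
    MV B (fun x => f x + h x) (v + w) := by
  intro ε hε
  obtain ⟨X1, h1⟩ := hf (ε / 2) (by positivity)
  obtain ⟨X2, h2⟩ := hh (ε / 2) (by positivity)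
  refine ⟨max X1 X2, fun X hX => ?_⟩
  have h3 := h1 X (le_trans (le_max_left _ _) hX)
  have h4 := h2 X (le_trans (le_max_right _ _) hX)
  rw [sum_add_distrib]
  calc |∑ b ∈ B X, f b + ∑ b ∈ B X, h b - (v + w) * (B X).card|
      = |(∑ b ∈ B X, f b - v * (B X).card) + (∑ b ∈ B X, h b - w * (B X).card)| := by
        congr 1
        ring
    _ ≤ _ := abs_add_le _ _
    _ ≤ ε / 2 * X + ε / 2 * X := add_le_add h3 h4
    _ = ε * X := by ring

theorem MV.smul {B : ℕ → Finset β} {f : β → ℝ} {v : ℝ} (hf : MV B f v) (a : ℝ) :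
    MV B (fun x => a * f x) (a * v) := by
  intro ε hε
  obtain ⟨X1, h1⟩ := hf (ε / (|a| + 1)) (by positivity)
  refine ⟨X1, fun X hX => ?_⟩
  have h3 := h1 X hX
  rw [← mul_sum, mul_assoc, ← mul_sub, abs_mul]
  calc |a| * |∑ b ∈ B X, f b - v * (B X).card|
      ≤ (|a| + 1) * (ε / (|a| + 1) * X) := by
        refine mul_le_mul (by linarith) h3 (abs_nonneg _) (by positivity)
    _ = ε * X := by field_simp

theorem MV.congr {B : ℕ → Finset β} {f h : β → ℝ} {v w : ℝ} (hf : MV B f v)
    (h1 : ∀ x, h x = f x) (h2 : w = v) : MV B h w := by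
  rw [h2, show h = f from funext h1]
  exact hf

theorem MV.zero (B : ℕ → Finset β) : MV B (fun _ => 0) 0 := by
  intro ε hε
  refine ⟨0, fun X _ => ?_⟩
  rw [sum_const_zero, zero_mul, sub_zero, abs_zero]
  positivity

theorem MV.sum {ι : Type} {B : ℕ → Finset β} {f : ι → β → ℝ} {v : ι → ℝ} (s : Finset ι)
    (h : ∀ i ∈ s, MV B (f i) (v i)) : MV B (fun x => ∑ i ∈ s, f i x) (∑ i ∈ s, v i) := by
  classical
  induction s using Finset.induction_on with
  | empty => exact (MV.zero B).congr (fun _ => rfl) rfl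
  | insert a s ha ih =>
    exact ((h a (mem_insert_self _ _)).add (ih fun i hi => h i (mem_insert_of_mem hi))).congr
      (fun x => sum_insert ha) (sum_insert ha)

theorem MV_Fj {B : ℕ → Finset β} {f : β → ℝ} {x : β → ℝ} {w : ℝ}
    (hm : ∀ k, MV B (fun b => f b * x b ^ k) (w * Nk k)) (j : ℕ) :
    ∀ m : ℕ, MV B (fun b => f b * (x b ^ m * Fj j (x b)))
      (w * (2 ^ (j ^ 2) * 4 ^ (j * m) * Nk m)) := by
  induction j with
  | zero =>
    intro m
    refine (hm m).congr (fun x => ?_) ?_
    · simp [Fj]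
    · simp
  | succ j ih =>
    intro m
    refine ((ih (m + 1)).add ((ih m).smul (-(4 ^ j)))).congr (fun x => ?_) ?_
    · rw [Fj, prod_range_succ, ← Fj]
      ring
    · rw [Nk_succ']
      have e1 : (4 : ℝ) ^ (j * (m + 1)) = 4 ^ (j * m) * 4 ^ j := by rw [← pow_add]; ring_nf
      have e2 : (4 : ℝ) ^ ((j + 1) * m) = 4 ^ (j * m) * 4 ^ m := by rw [← pow_add]; ring_nf
      have e3 : (2 : ℝ) ^ ((j + 1) ^ 2) = 2 ^ (j ^ 2) * 4 ^ j * 2 := by
        have : (4 : ℝ) ^ j = 2 ^ (2 * j) := by rw [pow_mul]; norm_num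
        rw [this, ← pow_add, ← pow_succ]
        ring_nf
      rw [e1, e2, e3]
      ring

theorem MV_pK {B : ℕ → Finset β} {f : β → ℝ} {x : β → ℝ} {w : ℝ}
    (hm : ∀ k, MV B (fun b => f b * x b ^ k) (w * Nk k)) (K : ℕ) :
    MV B (fun b => f b * pK K (x b)) (w * sK K) := by
  induction K with
  | zero =>
    refine (hm 0).congr (fun x => ?_) ?_
    · simp [pK]
    · simp [sK, Nk]
  | succ K ih =>
    refine (ih.add ((MV_Fj hm (K + 1) 0).smul
      ((-1) ^ (K + 1) / ∏ i ∈ range (K + 1), (4 ^ (i + 1) - 1)))).congr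
      (fun b => ?_) ?_
    · rw [pK_succ]
      ring
    · rw [sK, sum_range_succ, ← sK]
      simp [Nk]
      ring

variable {A : Type} [Fintype A] [DecidableEq A]

/-- The mean values of the products of the interpolation polynomials. -/
theorem MV_prod {B : ℕ → Finset β} {x : A → β → ℝ}
    (hm : ∀ k : A → ℕ, MV B (fun b => ∏ a, x a b ^ k a) (∏ a, (Nk (k a) : ℝ))) (Kf : A → ℕ) :
    MV B (fun b => ∏ a, pK (Kf a) (x a b)) (∏ a, sK (Kf a)) := by
  have key : ∀ (s : Finset A) (k : A → ℕ), MV B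
      (fun b => (∏ a ∈ s, pK (Kf a) (x a b)) * ∏ a ∈ univ \ s, x a b ^ k a)
      ((∏ a ∈ s, sK (Kf a)) * ∏ a ∈ univ \ s, (Nk (k a) : ℝ)) := by
    intro s
    induction s using Finset.induction_on with
    | empty =>
      intro k
      refine (hm k).congr (fun b => ?_) ?_
      · rw [prod_empty, one_mul, sdiff_empty]
      · rw [prod_empty, one_mul, sdiff_empty]
    | insert a s ha ih =>
      intro k
      have hins : univ \ s = insert a (univ \ insert a s) := by
        ext b
        rw [Finset.mem_sdiff, Finset.mem_insert, Finset.mem_sdiff, Finset.mem_insert]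
        by_cases hb : b = a
        · subst hb
          simp [ha]
        · simp [hb]
      have hna : a ∉ univ \ insert a s := by
        simp
      have h1 : ∀ j : ℕ, MV B (fun b => ((∏ a ∈ s, pK (Kf a) (x a b)) *
          ∏ a ∈ univ \ insert a s, x a b ^ k a) * x a b ^ j)
          (((∏ a ∈ s, sK (Kf a)) * ∏ a ∈ univ \ insert a s, (Nk (k a) : ℝ)) * Nk j) := by
        intro j
        refine (ih (Function.update k a j)).congr (fun b => ?_) ?_
        · rw [hins, prod_insert hna, Function.update_self]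
          have h2 : ∏ c ∈ univ \ insert a s, x c b ^ Function.update k a j c =
              ∏ c ∈ univ \ insert a s, x c b ^ k c :=
            prod_congr rfl fun c hc => by
              have hca : c ≠ a := by
                intro h
                rw [h] at hc
                exact hna hc
              rw [Function.update_of_ne hca]
          rw [h2]
          ring
        · rw [hins, prod_insert hna, Function.update_self]
          have h2 : ∏ c ∈ univ \ insert a s, (Nk (Function.update k a j c) : ℝ) =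
              ∏ c ∈ univ \ insert a s, (Nk (k c) : ℝ) :=
            prod_congr rfl fun c hc => by
              have hca : c ≠ a := by
                intro h
                rw [h] at hc
                exact hna hc
              rw [Function.update_of_ne hca]
          rw [h2]
          ring
      refine (MV_pK h1 (Kf a)).congr (fun b => ?_) ?_
      · rw [prod_insert ha]
        ring
      · rw [prod_insert ha]
        ring
  refine (key univ fun _ => 0).congr (fun b => ?_) ?_
  · rw [Finset.sdiff_self, prod_empty, mul_one]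
  · rw [Finset.sdiff_self, prod_empty, mul_one]

/-- The value of the lower bound. -/
def vN (n N : ℕ) : ℝ := n * (sK (2 * N + 1) * sK (2 * N) ^ (n - 1)) - (n - 1) * sK (2 * N) ^ n

theorem tendsto_vN {n : ℕ} (hn : 1 ≤ n) : Tendsto (vN n) atTop (𝓝 (cinf ^ n)) := by
  have h1 : Tendsto (fun N : ℕ => 2 * N + 1) atTop atTop :=
    tendsto_atTop_mono (fun N => by show N ≤ 2 * N + 1; omega) tendsto_id
  have h2 : Tendsto (fun N : ℕ => 2 * N) atTop atTop :=
    tendsto_atTop_mono (fun N => by show N ≤ 2 * N; omega) tendsto_id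
  have h3 := tendsto_sK.comp h1
  have h4 := tendsto_sK.comp h2
  have h5 := ((h3.mul (h4.pow (n - 1))).const_mul (n : ℝ)).sub
    ((h4.pow n).const_mul ((n : ℝ) - 1))
  have h6 : (n : ℝ) * (cinf * cinf ^ (n - 1)) - (n - 1) * cinf ^ n = cinf ^ n := by
    obtain ⟨m, rfl⟩ : ∃ m, n = m + 1 := ⟨n - 1, by omega⟩
    rw [Nat.add_sub_cancel, pow_succ]
    push_cast
    ring
  rw [h6] at h5
  exact h5

/-- **From the joint moments to the density.** -/
theorem dens_prod [Nonempty A] {B : ℕ → Finset β} {x : A → β → ℕ}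
    (hp : ∀ a b, ∃ r, x a b = 4 ^ r)
    (hm : ∀ k : A → ℕ, MV B (fun b => ∏ a, (x a b : ℝ) ^ k a) (∏ a, (Nk (k a) : ℝ)))
    {κ₀ : ℝ} (hκ : κ₀ < cinf ^ Fintype.card A) (ε : ℝ) (hε : 0 < ε) :
    ∃ X₀ : ℕ, ∀ X : ℕ, X₀ ≤ X →
      κ₀ * (B X).card - ε * X ≤ ((B X).filter fun b => ∀ a, x a b = 1).card := by
  classical
  set n := Fintype.card A with hn
  have hn1 : 1 ≤ n := Fintype.card_pos
  obtain ⟨N, hN⟩ := ((tendsto_vN hn1).eventually (lt_mem_nhds hκ)).exists
  have hodd : Odd (2 * N + 1) := ⟨N, rfl⟩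
  have heven : Even (2 * N) := ⟨N, by ring⟩
  -- the mean values
  have hA : ∀ a, MV B (fun b => pK (2 * N + 1) (x a b) * ∏ c ∈ univ.erase a, pK (2 * N) (x c b))
      (sK (2 * N + 1) * sK (2 * N) ^ (n - 1)) := by
    intro a
    refine (MV_prod hm fun c => if c = a then 2 * N + 1 else 2 * N).congr (fun b => ?_) ?_
    · rw [← mul_prod_erase univ _ (mem_univ a), if_pos rfl]
      congr 1
      exact prod_congr rfl fun c hc => by rw [if_neg (ne_of_mem_erase hc)]
    · rw [← mul_prod_erase univ _ (mem_univ a), if_pos rfl]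
      congr 1
      rw [prod_congr rfl fun c hc => by rw [if_neg (ne_of_mem_erase hc)], prod_const,
        card_erase_of_mem (mem_univ a), card_univ]
  have hB : MV B (fun b => ∏ a, pK (2 * N) (x a b)) (sK (2 * N) ^ n) := by
    refine (MV_prod hm fun _ => 2 * N).congr (fun b => rfl) ?_
    rw [prod_const, card_univ]
  have hC := (MV.sum univ fun a _ => hA a).add (hB.smul (-((n : ℝ) - 1)))
  obtain ⟨X0, h0⟩ := hC ε hε
  refine ⟨X0, fun X hX => ?_⟩
  have h1 := (abs_le.1 (h0 X hX)).1
  have h2 : ∑ b ∈ B X, (∑ a, pK (2 * N + 1) (x a b) * ∏ c ∈ univ.erase a, pK (2 * N) (x c b) +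
      -((n : ℝ) - 1) * ∏ a, pK (2 * N) (x a b)) ≤
      (((B X).filter fun b => ∀ a, x a b = 1).card : ℝ) := by
    rw [card_eq_sum_ones, sum_filter]
    push_cast
    refine sum_le_sum fun b _ => ?_
    have h3 := bonf (fun a => pK (2 * N) (x a b)) (fun a => if x a b = 1 then (1 : ℝ) else 0)
      (fun a => pK (2 * N + 1) (x a b)) (fun a => by split_ifs <;> norm_num) (fun a => ?_)
      (fun a => ?_)
    · have h4 : ∏ a, (if x a b = 1 then (1 : ℝ) else 0) = if ∀ a, x a b = 1 then 1 else 0 := by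
        split_ifs with h
        · exact prod_eq_one fun a _ => if_pos (h a)
        · push Not at h
          obtain ⟨a, ha⟩ := h
          exact prod_eq_zero (mem_univ a) (if_neg ha)
      rw [h4, ← hn] at h3
      linarith
    · split_ifs with h
      · rw [h, Nat.cast_one, pK_one]
      · obtain ⟨r, hr⟩ := hp a b
        have hr0 : r ≠ 0 := by
          intro h0
          rw [h0, pow_zero] at hr
          exact h hr
        rw [hr]
        push_cast
        exact (pK_pow (2 * N) r hr0).2 heven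
    · split_ifs with h
      · rw [h, Nat.cast_one, pK_one]
      · obtain ⟨r, hr⟩ := hp a b
        have hr0 : r ≠ 0 := by
          intro h0
          rw [h0, pow_zero] at hr
          exact h hr
        rw [hr]
        push_cast
        exact (pK_pow (2 * N + 1) r hr0).1 hodd
  have h5 : ∑ _a : A, sK (2 * N + 1) * sK (2 * N) ^ (n - 1) +
      -((n : ℝ) - 1) * sK (2 * N) ^ n = vN n N := by
    rw [sum_const, card_univ, nsmul_eq_mul, vN]
    ring
  rw [h5] at h1
  have h6 := mul_le_mul_of_nonneg_right hN.le (Nat.cast_nonneg (α := ℝ) (B X).card)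
  linarith

end

end Pool.Agent.Lib.MP_1a91b9_ntP
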