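import Pool.Agent.Lib.MP_1a91b9_ntP.D.Engine
import Pool.Agent.Lib.MP_1a91b9_ntP.J.Base
import Pool.Agent.Lib.MP_1a91b9_ntP.J.Glue
import Pool.Agent.Lib.MP_1a91b9_ntP.J.Lim

/-!
# MP_1a91b9_nt, several twists over `Q(sqrt -3)`, part D: the joint moments
-/

set_option autoImplicit false
set_option linter.unusedSectionVars false

namespace Pool.Agent.Lib.MP_1a91b9_ntP

open Finset Pool.Agent.Lib.MP_1a91b9_ntH Pool.Agent.Lib.MP_1a91b9_ntH.Da
  Pool.Agent.Lib.MP_1a91b9_ntE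
open Pool.Agent.Lib.MP_1a91b9_ntQ (Off up dn up_injective sum_up up_mem_Sx mem_up up_dn dn_up
  disj_up)

noncomputable section

/-! ### The exponent of the joint system -/

section Joint

variable {A : Type} [Fintype A] [DecidableEq A] {k : A → ℕ} {κ : Type} [Fintype κ]
  {W : A → Type} {ι : Type} [DecidableEq ι]

/-- The exponent of the joint system. -/
theorem eS_LJ (D : DatG ι κ) (P : ∀ a, Loc κ (k a) (W a)) (y : F4) (w : ∀ a, W a)
    (S : Finset ι) (f : S → LabJ k) :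
    D.eS (LJ P y w) S f = ∑ a, D.eS ((P a).sys 0 (w a)) S (fun j => f j a) +
      F4.tr (y * D.toDat.A S) := by
  have e1 : ∑ j : S, F4.tr ((LJ P y w).gam (f j) * D.a j) =
      ∑ a, ∑ j : S, F4.tr (((P a).sys 0 (w a)).gam (f j a) * D.a j) +
        F4.tr (y * D.toDat.A S) := by
    have h1 : F4.tr (y * D.toDat.A S) = ∑ j : S, F4.tr (y * D.a j) := by
      rw [Dat.A, mul_sum, Da.F4.tr_sum, sum_coe_sort S fun j => F4.tr (y * D.a j)]
    rw [h1, sum_comm, ← sum_add_distrib]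
    refine sum_congr rfl fun j _ => ?_
    show F4.tr ((∑ a, (P a).gam (w a) (f j a) + y) * D.a j) =
      ∑ a, F4.tr (((P a).gam (w a) (f j a) + 0) * D.a j) + _
    simp only [add_zero]
    rw [add_mul, Da.F4.tr_add, sum_mul, Da.F4.tr_sum]
  have e2 : ∑ i : S, ∑ j : S, (LJ P y w).Phi (f i) (f j) * D.s i j =
      ∑ a, ∑ i : S, ∑ j : S, ((P a).sys 0 (w a)).Phi (f i a) (f j a) * D.s i j := by
    refine Eq.trans ?_ sum_comm
    refine sum_congr rfl fun i _ => ?_
    refine Eq.trans ?_ sum_comm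
    refine sum_congr rfl fun j _ => ?_
    show (∑ a, Phi (f i a) (f j a)) * D.s i j = ∑ a, Phi (f i a) (f j a) * D.s i j
    rw [sum_mul]
  have e3 : ∑ j : S, D.lg ((LJ P y w).del (f j)) j =
      ∑ a, ∑ j : S, D.lg (((P a).sys 0 (w a)).del (f j a)) j := by
    rw [sum_comm]
    refine sum_congr rfl fun j _ => ?_
    unfold DatG.lg
    rw [sum_comm]
    refine sum_congr rfl fun i _ => ?_
    show (∑ a, (P a).del (w a) (f j a)) i * D.g j i = _
    rw [Finset.sum_apply, sum_mul]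
    rfl
  unfold DatG.eS Dat.eS
  rw [e1, e2, e3, sum_add_distrib, sum_add_distrib]
  ring

/-- Products of sums over the labellings. -/
theorem sum_piLab (S : Finset ι) (G : ∀ a, (S → Lab (k a)) → ℝ) :
    ∑ f : S → LabJ k, ∏ a, G a (fun j => f j a) = ∏ a, ∑ f : S → Lab (k a), G a f := by
  rw [prod_univ_sum, Fintype.piFinset_univ]
  exact Fintype.sum_equiv (Equiv.piComm fun (_ : S) (a : A) => Lab (k a)) _ _ fun f => rfl

end Joint

/-! ### Families of base systems -/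

variable {ι : Type} [DecidableEq ι] {D : DatE ι} {A : Type} [Fintype A] [DecidableEq A]

instance (Q : Bs D) (n : ℕ) : Fintype (Q.W n) := Q.fin n

/-- The coordinates. -/
abbrev WJ (Q : A → Bs D) (T : A → Finset ι) (k : A → ℕ) (a : A) : Type :=
  (Q a).W (k a) × (T a → Lab (k a))

/-- The local systems. -/
def PJ (Q : A → Bs D) (B : Finset ι) (T : A → Finset ι) (k : A → ℕ) (a : A) :
    Loc (Unit ⊕ B) (k a) (WJ Q T k a) :=
  ((Q a).L (k a)).ext D B (T a)

/-- The characters of the quadratic part. -/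
def tJ (Q : A → Bs D) (B : Finset ι) (T : A → Finset ι) (a : A) : Unit ⊕ B → ZMod 2 :=
  Sum.elim (fun _ => (Q a).τ) fun b => if b.1 ∈ T a then 1 else 0

theorem PJ_Ok (Q : A → Bs D) (B : Finset ι) (T : A → Finset ι) (k : A → ℕ) (a : A) :
    (PJ Q B T k a).Ok ((Q a).ρ) (tJ Q B T a) :=
  ext_Ok ((Q a).ok (k a)) D B (T a)

theorem tJ_inj {Q : A → Bs D} {B : Finset ι} {T : A → Finset ι} (hT : ∀ a, T a ⊆ B)
    (hi : Function.Injective fun a => ((Q a).ρ, (Q a).τ, T a)) :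
    Function.Injective fun a => ((Q a).ρ, tJ Q B T a) := by
  intro a a' h
  have h1 : (Q a).ρ = (Q a').ρ := congrArg Prod.fst h
  have h2 : tJ Q B T a = tJ Q B T a' := congrArg Prod.snd h
  have h3 : (Q a).τ = (Q a').τ := congrFun h2 (Sum.inl ())
  have h4 : T a = T a' := by
    have key : ∀ a a' : A, tJ Q B T a = tJ Q B T a' → T a ⊆ T a' := by
      intro a a' h2 q hq
      by_contra hq'
      have h5 := congrFun h2 (Sum.inr ⟨q, hT a hq⟩)
      have h6 : (if q ∈ T a then (1 : ZMod 2) else 0) = if q ∈ T a' then 1 else 0 := h5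
      rw [if_pos hq, if_neg hq'] at h6
      exact one_ne_zero h6
    exact Subset.antisymm (key a a' h2) (key a' a h2.symm)
  exact hi (Prod.ext h1 (Prod.ext h3 h4))

/-- The constants. -/
def bJ (Q : A → Bs D) (T : A → Finset ι) (k : A → ℕ) : ℝ :=
  ∏ a, ((Q a).b (k a) * (4 ^ k a) ^ (T a).card)

theorem bJ_pos (Q : A → Bs D) (T : A → Finset ι) (k : A → ℕ) : 0 < bJ Q T k :=
  prod_pos fun a _ => mul_pos ((Q a).pos _) (by positivity)

theorem PJ_G (hD : D.toDat.Rec) (Q : A → Bs D) {B : Finset ι} {T : A → Finset ι}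
    (hT : ∀ a, T a ⊆ B) (k : A → ℕ) (a : A) (z : F4) : (PJ Q B T k a).G z =
      if z = 0 then (Q a).b (k a) * (4 ^ k a) ^ (T a).card * Nk (k a) else 0 := by
  unfold PJ
  rw [G_ext ((Q a).L (k a)) D hD (hT a) z, (Q a).G]
  split_ifs with hz
  · subst hz
    rw [zero_mul]
    have h1 : F4.tr 0 = 0 := rfl
    rw [h1, Da.sg_zero]
    ring
  · rw [mul_zero]

/-- The main term. -/
theorem sum_PJ (hD : D.toDat.Rec) (Q : A → Bs D) {B : Finset ι} {T : A → Finset ι}
    (hT : ∀ a, T a ⊆ B) (hi : Function.Injective fun a => ((Q a).ρ, (Q a).τ, T a))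
    (k : A → ℕ) (y : F4) :
    ∑ w : ∀ a, WJ Q T k a, sg (∑ a, (PJ Q B T k a).e0 (w a)) *
      ∑ U ∈ (LJ (PJ Q B T k) y w).Us, (LJ (PJ Q B T k) y w).cU U =
      bJ Q T k * if y = 0 then ∏ a, (Nk (k a) : ℝ) else 0 := by
  rw [sum_GJ' (fun a => PJ_Ok Q B T k a) (tJ_inj hT hi)
    (g := fun a => (Q a).b (k a) * (4 ^ k a) ^ (T a).card * Nk (k a))
    fun a z => PJ_G hD Q hT k a z, prod_mul_distrib]
  split_ifs
  · rfl
  · rw [mul_zero]

/-- The product of the powers of the sizes of the kernels. -/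
def kJ (Q : A → Bs D) {B : Finset ι} (T : A → Finset ι) (k : A → ℕ) (S : Finset (Off B)) : ℝ :=
  ∏ a, ((Q a).kz (up S ∪ T a) : ℝ) ^ k a

/-- The expansion. -/
theorem exp_J (hD : D.toDat.Rec) (Q : A → Bs D) {B : Finset ι} {T : A → Finset ι}
    (hT : ∀ a, T a ⊆ B) (k : A → ℕ) (y : F4) (S : Finset (Off B)) :
    kJ Q T k S * sg (F4.tr (y * (offG D B).toDat.A S)) *
      (bJ Q T k * ((∏ a, 4 ^ k a : ℕ) : ℝ) ^ S.card) =
      ∑ w : ∀ a, WJ Q T k a, sg (∑ a, (PJ Q B T k a).e0 (w a)) *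
        ∑ f : S → LabJ k, sg ((offG D B).eS (LJ (PJ Q B T k) y w) S f) := by
  have h1 : ∀ a, ((Q a).kz (up S ∪ T a) : ℝ) ^ k a * ((Q a).b (k a) *
      (4 ^ k a) ^ (S.card + (T a).card)) = ∑ w, sg ((PJ Q B T k a).e0 w) *
        ∑ f : S → Lab (k a), sg ((offG D B).eS ((PJ Q B T k a).sys 0 w) S f) := by
    intro a
    rw [← card_glE S (hT a), (Q a).exp]
    exact exp_glue ((Q a).L (k a)) D hD S (hT a)
  have h2 : kJ Q T k S * (bJ Q T k * ((∏ a, 4 ^ k a : ℕ) : ℝ) ^ S.card) =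
      ∏ a, (((Q a).kz (up S ∪ T a) : ℝ) ^ k a * ((Q a).b (k a) *
        (4 ^ k a) ^ (S.card + (T a).card))) := by
    unfold kJ bJ
    push_cast
    rw [← prod_pow, ← prod_mul_distrib, ← prod_mul_distrib]
    refine prod_congr rfl fun a _ => ?_
    rw [pow_add]
    ring
  have h3 : kJ Q T k S * sg (F4.tr (y * (offG D B).toDat.A S)) *
      (bJ Q T k * ((∏ a, 4 ^ k a : ℕ) : ℝ) ^ S.card) =
      (kJ Q T k S * (bJ Q T k * ((∏ a, 4 ^ k a : ℕ) : ℝ) ^ S.card)) *
        sg (F4.tr (y * (offG D B).toDat.A S)) := by ring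
  rw [h3, h2, prod_congr rfl fun a _ => h1 a, prod_univ_sum, Fintype.piFinset_univ, sum_mul]
  refine sum_congr rfl fun w _ => ?_
  rw [prod_mul_distrib, ← sgD_sum, mul_assoc]
  congr 1
  rw [← sum_piLab S fun a f => sg ((offG D B).eS ((PJ Q B T k a).sys 0 (w a)) S f), sum_mul]
  refine sum_congr rfl fun f _ => ?_
  rw [eS_LJ, sgD_add, sgD_sum]

variable [PS ι]

/-- The joint moments with a character. -/
theorem momJ (hD : D.toDat.Rec) (Q : A → Bs D) {B : Finset ι} (hB : (offG D B).OK)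
    {T : A → Finset ι} (hT : ∀ a, T a ⊆ B)
    (hi : Function.Injective fun a => ((Q a).ρ, (Q a).τ, T a)) (k : A → ℕ) (y : F4) (ε : ℝ)
    (hε : 0 < ε) : ∃ X₀ : ℕ, ∀ X : ℕ, X₀ ≤ X →
      |∑ S ∈ Sx (Off B) X, kJ Q T k S * sg (F4.tr (y * (offG D B).toDat.A S)) -
        (if y = 0 then ∏ a, (Nk (k a) : ℝ) else 0) * (Sx (Off B) X).card| ≤ ε * X := by
  by_cases hk : ∃ a, 1 ≤ k a
  · have h2 : 2 ≤ ∏ a, 4 ^ k a := by
      obtain ⟨a, ha⟩ := hk
      calc 2 ≤ 4 ^ 1 := by norm_num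
        _ ≤ 4 ^ k a := Nat.pow_le_pow_right (by norm_num) ha
        _ ≤ ∏ a, 4 ^ k a := by
          rw [← mul_prod_erase univ _ (mem_univ a)]
          exact Nat.le_mul_of_pos_right _ (prod_pos fun b _ => by positivity)
    set C : ℝ := bJ Q T k with hC
    have hC0 : 0 < C := bJ_pos Q T k
    set Nw : ℝ := (Fintype.card (∀ a, WJ Q T k a) : ℝ) with hNw
    have hNw0 : 0 ≤ Nw := Nat.cast_nonneg _
    have hδ : 0 < ε * C / (Nw + 1) := by positivity
    choose X0 h0 using fun w : ∀ a, WJ Q T k a => engineP (offG D B) hB (LJ (PJ Q B T k) y w)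
      (LJ_OK (PJ Q B T k) y w h2) (ε * C / (Nw + 1)) hδ
    refine ⟨∑ w, X0 w, fun X hX => ?_⟩
    have hXw : ∀ w, X0 w ≤ X := fun w =>
      (single_le_sum (fun _ _ => Nat.zero_le _) (mem_univ w)).trans hX
    -- the sum over the coordinates
    have e1 : ∑ S ∈ Sx (Off B) X, kJ Q T k S * sg (F4.tr (y * (offG D B).toDat.A S)) =
        (∑ w : ∀ a, WJ Q T k a, sg (∑ a, (PJ Q B T k a).e0 (w a)) *
          ∑ S ∈ Sx (Off B) X, (((LJ (PJ Q B T k) y w).m : ℝ)⁻¹) ^ S.card *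
            ∑ f : S → LabJ k, sg ((offG D B).eS (LJ (PJ Q B T k) y w) S f)) / C := by
      rw [eq_div_iff hC0.ne', sum_mul]
      simp only [mul_sum]
      rw [sum_comm]
      refine sum_congr rfl fun S _ => ?_
      have h3 := exp_J hD Q hT k y S
      have h4 : (0 : ℝ) < ((∏ a, 4 ^ k a : ℕ) : ℝ) ^ S.card := by
        have h5 : (0 : ℝ) < ((∏ a, 4 ^ k a : ℕ) : ℝ) := by
          exact_mod_cast (by omega : 0 < ∏ a, 4 ^ k a)
        positivity
      have h6 : kJ Q T k S * sg (F4.tr (y * (offG D B).toDat.A S)) * C =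
          (((∏ a, 4 ^ k a : ℕ) : ℝ)⁻¹) ^ S.card * ∑ w : ∀ a, WJ Q T k a,
            sg (∑ a, (PJ Q B T k a).e0 (w a)) *
              ∑ f : S → LabJ k, sg ((offG D B).eS (LJ (PJ Q B T k) y w) S f) := by
        rw [← h3, inv_pow]
        field_simp
        rfl
      rw [h6, mul_sum]
      refine sum_congr rfl fun w _ => ?_
      show _ * (_ * _) = _
      rw [mul_sum, mul_sum]
      refine sum_congr rfl fun f _ => ?_
      show _ = _ * ((((∏ a, 4 ^ k a : ℕ) : ℝ)⁻¹) ^ S.card * _)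
      ring
    have e2 : (if y = 0 then ∏ a, (Nk (k a) : ℝ) else 0) =
        (∑ w : ∀ a, WJ Q T k a, sg (∑ a, (PJ Q B T k a).e0 (w a)) *
          ∑ U ∈ (LJ (PJ Q B T k) y w).Us, (LJ (PJ Q B T k) y w).cU U) / C := by
      rw [eq_div_iff hC0.ne', sum_PJ hD Q hT hi k y, mul_comm]
    rw [e1, e2, div_mul_eq_mul_div, ← sub_div, abs_div, abs_of_pos hC0, div_le_iff₀ hC0, sum_mul,
      ← sum_sub_distrib]
    calc |∑ w : ∀ a, WJ Q T k a, (sg (∑ a, (PJ Q B T k a).e0 (w a)) *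
          ∑ S ∈ Sx (Off B) X, (((LJ (PJ Q B T k) y w).m : ℝ)⁻¹) ^ S.card *
            ∑ f : S → LabJ k, sg ((offG D B).eS (LJ (PJ Q B T k) y w) S f) -
          sg (∑ a, (PJ Q B T k a).e0 (w a)) *
            (∑ U ∈ (LJ (PJ Q B T k) y w).Us, (LJ (PJ Q B T k) y w).cU U) *
              (Sx (Off B) X).card)|
        ≤ ∑ w : ∀ a, WJ Q T k a, |sg (∑ a, (PJ Q B T k a).e0 (w a)) *
          ∑ S ∈ Sx (Off B) X, (((LJ (PJ Q B T k) y w).m : ℝ)⁻¹) ^ S.card *
            ∑ f : S → LabJ k, sg ((offG D B).eS (LJ (PJ Q B T k) y w) S f) -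
          sg (∑ a, (PJ Q B T k a).e0 (w a)) *
            (∑ U ∈ (LJ (PJ Q B T k) y w).Us, (LJ (PJ Q B T k) y w).cU U) *
              (Sx (Off B) X).card| := abs_sum_le_sum_abs _ _
      _ ≤ ∑ _w : ∀ a, WJ Q T k a, ε * C / (Nw + 1) * X := by
        refine sum_le_sum fun w _ => ?_
        rw [mul_assoc, ← mul_sub, abs_mul, sgD_abs, one_mul]
        exact h0 w X (hXw w)
      _ = Nw / (Nw + 1) * (ε * C * X) := by
        rw [sum_const, card_univ, nsmul_eq_mul]
        field_simp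
        rfl
      _ ≤ 1 * (ε * C * X) := by
        refine mul_le_mul_of_nonneg_right ?_ (by positivity)
        rw [div_le_one (by positivity)]
        linarith
      _ = ε * X * C := by ring
  · push Not at hk
    have hk0 : ∀ a, k a = 0 := fun a => by
      have := hk a
      omega
    have h1 : ∀ S : Finset (Off B), kJ Q T k S = 1 := by
      intro S
      unfold kJ
      exact prod_eq_one fun a _ => by rw [hk0 a, pow_zero]
    have h2 : ∏ a, (Nk (k a) : ℝ) = 1 := prod_eq_one fun a _ => by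
      rw [hk0 a]
      simp [Nk]
    simp only [h1, one_mul, h2]
    by_cases hy : y = 0
    · subst hy
      refine ⟨0, fun X _ => ?_⟩
      have h3 : ∀ S : Finset (Off B), sg (F4.tr (0 * (offG D B).toDat.A S)) = 1 := by
        intro S
        rw [zero_mul]
        exact Da.sg_zero
      simp only [h3, if_true, one_mul, sum_const, nsmul_eq_mul, mul_one, sub_self, abs_zero]
      positivity
    · obtain ⟨X0, h0⟩ := hB.toOK.h3 y hy ε hε
      refine ⟨X0, fun X hX => ?_⟩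
      rw [if_neg hy, zero_mul, sub_zero]
      exact h0 X hX

/-- The joint moments in the classes. -/
theorem MV_J (hD : D.toDat.Rec) (Q : A → Bs D) {B : Finset ι} (hB : (offG D B).OK)
    {T : A → Finset ι} (hT : ∀ a, T a ⊆ B)
    (hi : Function.Injective fun a => ((Q a).ρ, (Q a).τ, T a)) (α : F4) (k : A → ℕ) :
    MV (fun X => SA (offG D B).toDat X α) (kJ Q T k) (∏ a, (Nk (k a) : ℝ)) := by
  intro ε hε
  set N : ℝ := ∏ a, (Nk (k a) : ℝ) with hN
  have hN0 : 0 ≤ N := prod_nonneg fun a _ => Nat.cast_nonneg _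
  have hpos : 0 < ε / (1 + N) := by positivity
  choose X1 h1 using fun y => momJ hD Q hB hT hi k y (ε / (1 + N)) hpos
  choose X2 h2 using fun y => momJ hD Q hB hT hi (fun _ => 0) y (ε / (1 + N)) hpos
  refine ⟨∑ y, X1 y + ∑ y, X2 y, fun X hX => ?_⟩
  have hX1 : ∀ y, X1 y ≤ X := fun y =>
    (single_le_sum (fun _ _ => Nat.zero_le _) (mem_univ y)).trans
      ((Nat.le_add_right _ _).trans hX)
  have hX2 : ∀ y, X2 y ≤ X := fun y =>
    (single_le_sum (fun _ _ => Nat.zero_le _) (mem_univ y)).trans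
      ((Nat.le_add_left _ _).trans hX)
  have hk1 : ∀ S : Finset (Off B), kJ Q T (fun _ => 0) S = 1 := by
    intro S
    unfold kJ
    exact prod_eq_one fun a _ => pow_zero _
  have hk2 : ∏ _a : A, (Nk 0 : ℝ) = 1 := prod_eq_one fun a _ => by simp [Nk]
  set m1 : F4 → ℝ := fun y => ∑ S ∈ Sx (Off B) X, kJ Q T k S *
    sg (F4.tr (y * (offG D B).toDat.A S)) with hm1
  set m2 : F4 → ℝ := fun y => ∑ S ∈ Sx (Off B) X, kJ Q T (fun _ => 0) S *
    sg (F4.tr (y * (offG D B).toDat.A S)) with hm2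
  have e1 : ∑ S ∈ SA (offG D B).toDat X α, kJ Q T k S =
      (∑ y : F4, sg (F4.tr (y * α)) * m1 y) / 4 := sum_class (offG D B).toDat X α _
  have e0 : ((SA (offG D B).toDat X α).card : ℝ) =
      (∑ y : F4, sg (F4.tr (y * α)) * m2 y) / 4 := by
    have h3 := sum_class (offG D B).toDat X α (kJ Q T fun _ => 0)
    simp only [hk1, sum_const, nsmul_eq_mul, mul_one] at h3
    rw [h3, hm2]
    simp only [hk1]
  rw [e1, e0]
  have e2 : (∑ y : F4, sg (F4.tr (y * α)) * m1 y) / 4 -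
      N * ((∑ y : F4, sg (F4.tr (y * α)) * m2 y) / 4) =
      (∑ y : F4, sg (F4.tr (y * α)) * (m1 y - N * m2 y)) / 4 := by
    have : ∑ y : F4, sg (F4.tr (y * α)) * (m1 y - N * m2 y) =
        ∑ y : F4, sg (F4.tr (y * α)) * m1 y - N * ∑ y : F4, sg (F4.tr (y * α)) * m2 y := by
      rw [mul_sum, ← sum_sub_distrib]
      exact sum_congr rfl fun y _ => by ring
    rw [this]
    ring
  rw [e2]
  have e3 : ∀ y, |m1 y - N * m2 y| ≤ ε * X := by
    intro y
    have h3 := h1 y X (hX1 y)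
    have h4 := h2 y X (hX2 y)
    rw [hk2] at h4
    have h5 : m1 y - N * m2 y =
        (m1 y - (if y = 0 then N else 0) * (Sx (Off B) X).card) -
        N * (m2 y - (if y = 0 then 1 else 0) * (Sx (Off B) X).card) := by
      split_ifs <;> ring
    rw [h5]
    calc _ ≤ |m1 y - (if y = 0 then N else 0) * (Sx (Off B) X).card| +
          |N * (m2 y - (if y = 0 then 1 else 0) * (Sx (Off B) X).card)| := abs_sub _ _
      _ ≤ ε / (1 + N) * X + N * (ε / (1 + N) * X) := by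
          rw [abs_mul, abs_of_nonneg hN0]
          exact add_le_add h3 (mul_le_mul_of_nonneg_left h4 hN0)
      _ = ε * X := by field_simp
  rw [abs_div, abs_of_pos (by norm_num : (0 : ℝ) < 4), div_le_iff₀ (by norm_num)]
  calc |∑ y : F4, sg (F4.tr (y * α)) * (m1 y - N * m2 y)|
      ≤ ∑ y : F4, |sg (F4.tr (y * α)) * (m1 y - N * m2 y)| := abs_sum_le_sum_abs _ _
    _ ≤ ∑ _y : F4, ε * X := by
        refine sum_le_sum fun y _ => ?_
        rw [abs_mul, sgD_abs, one_mul]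
        exact e3 y
    _ = ε * X * 4 := by
        rw [sum_const, card_univ, F4.card_F4, nsmul_eq_mul]
        push_cast
        ring

end

end Pool.Agent.Lib.MP_1a91b9_ntP
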