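import Pool.Agent.Lib.MP_1a91b9_ntP.J.Mom

/-!
# MP_1a91b9_nt, several twists over `Q(sqrt -3)`, part D: the joint density, upper and lower bound
-/

set_option autoImplicit false
set_option linter.unusedSectionVars false

namespace Pool.Agent.Lib.MP_1a91b9_ntP

open Finset Filter Topology Pool.Agent.Lib.MP_1a91b9_ntH Pool.Agent.Lib.MP_1a91b9_ntH.Da
  Pool.Agent.Lib.MP_1a91b9_ntE
open Pool.Agent.Lib.MP_1a91b9_ntQ (Off up dn up_injective sum_up up_mem_Sx mem_up up_dn dn_up
  disj_up sum_Sx_off)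

noncomputable section

/-- The upper bound. -/
theorem dens_upper {β : Type} {A : Type} [Fintype A] [DecidableEq A] {B : ℕ → Finset β}
    {x : A → β → ℕ} (hp : ∀ a b, ∃ r, x a b = 4 ^ r)
    (hm : ∀ k : A → ℕ, MV B (fun b => ∏ a, (x a b : ℝ) ^ k a) (∏ a, (Nk (k a) : ℝ)))
    {κ₀ : ℝ} (hκ : cinf ^ Fintype.card A < κ₀) (ε : ℝ) (hε : 0 < ε) :
    ∃ X₀ : ℕ, ∀ X : ℕ, X₀ ≤ X →
      (((B X).filter fun b => ∀ a, x a b = 1).card : ℝ) ≤ κ₀ * (B X).card + ε * X := by
  classical
  have h2 : Tendsto (fun N : ℕ => 2 * N) atTop atTop :=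
    tendsto_atTop_mono (fun N => by show N ≤ 2 * N; omega) tendsto_id
  have h4 := (tendsto_sK.comp h2).pow (Fintype.card A)
  obtain ⟨N, hN⟩ := (h4.eventually (gt_mem_nhds hκ)).exists
  have hN' : sK (2 * N) ^ Fintype.card A < κ₀ := hN
  have heven : Even (2 * N) := ⟨N, by ring⟩
  have hB : MV B (fun b => ∏ a, pK (2 * N) (x a b)) (sK (2 * N) ^ Fintype.card A) := by
    refine (MV_prod hm fun _ => 2 * N).congr (fun b => rfl) ?_
    rw [prod_const, card_univ]
  obtain ⟨X0, h0⟩ := hB ε hε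
  refine ⟨X0, fun X hX => ?_⟩
  have h1 := (abs_le.1 (h0 X hX)).2
  have h3 : (((B X).filter fun b => ∀ a, x a b = 1).card : ℝ) ≤
      ∑ b ∈ B X, ∏ a, pK (2 * N) (x a b) := by
    rw [card_eq_sum_ones, sum_filter]
    push_cast
    refine sum_le_sum fun b _ => ?_
    have h5 : ∀ a, (if x a b = 1 then (1 : ℝ) else 0) ≤ pK (2 * N) (x a b) := by
      intro a
      split_ifs with h
      · rw [h, Nat.cast_one, pK_one]
      · obtain ⟨r, hr⟩ := hp a b
        have hr0 : r ≠ 0 := by
          intro h0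
          rw [h0, pow_zero] at hr
          exact h hr
        rw [hr]
        push_cast
        exact (pK_pow (2 * N) r hr0).2 heven
    have h6 : (if ∀ a, x a b = 1 then (1 : ℝ) else 0) = ∏ a, (if x a b = 1 then (1 : ℝ) else 0) := by
      split_ifs with h
      · exact (prod_eq_one fun a _ => if_pos (h a)).symm
      · push Not at h
        obtain ⟨a, ha⟩ := h
        exact (prod_eq_zero (mem_univ a) (if_neg ha)).symm
    rw [h6]
    exact prod_le_prod (fun a _ => by split_ifs <;> norm_num) fun a _ => h5 a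
  have h7 := mul_le_mul_of_nonneg_right hN'.le (Nat.cast_nonneg (α := ℝ) (B X).card)
  linarith

variable {ι : Type} [DecidableEq ι] [PS ι] {D : DatE ι} {A : Type} [Fintype A] [DecidableEq A]

open Classical in
/-- The sets of primes outside `B` in the class `α`, with a property. -/
theorem card_SA_off (D : DatE ι) (B : Finset ι) (X : ℕ) (α : F4) (p : Finset ι → Prop) :
    (((SA (offG D B).toDat X α).filter fun S => p (up S)).card : ℝ) =
      (((Sx ι X).filter fun S => Disjoint S B ∧ D.toDat.A S = α ∧ p S).card : ℝ) := by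
  have hA : ∀ S : Finset (Off B), (offG D B).toDat.A S = D.toDat.A (up S) := fun S =>
    (sum_up S D.a).symm
  have h1 := sum_Sx_off B X fun S : Finset ι => if D.toDat.A S = α ∧ p S then (1 : ℝ) else 0
  have h2 : (((SA (offG D B).toDat X α).filter fun S => p (up S)).card : ℝ) =
      ∑ S ∈ Sx (Off B) X, if D.toDat.A (up S) = α ∧ p (up S) then (1 : ℝ) else 0 := by
    rw [SA, filter_filter, card_eq_sum_ones, sum_filter]
    push_cast
    refine sum_congr rfl fun S _ => ?_
    rw [hA]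
  rw [h2, h1, card_eq_sum_ones, sum_filter, sum_filter]
  push_cast
  refine sum_congr rfl fun S _ => ?_
  by_cases h : Disjoint S B
  · rw [if_pos h]
    refine if_congr ?_ rfl rfl
    tauto
  · rw [if_neg h, if_neg]
    tauto

theorem card_any {α : Type} (s : Finset α) (p : α → Prop) (i j : DecidablePred p) :
    ((@filter α p i s).card : ℝ) = ((@filter α p j s).card : ℝ) :=
  congrArg _ (congrArg _ (Finset.ext fun S => by simp only [mem_filter]))

open Classical in
/-- **The joint density of the sets for which the kernels are zero.** -/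
theorem dens_J [Nonempty A] (hD : D.toDat.Rec) (Q : A → Bs D) {B : Finset ι}
    (hB : (offG D B).OK) {T : A → Finset ι} (hT : ∀ a, T a ⊆ B)
    (hi : Function.Injective fun a => ((Q a).ρ, (Q a).τ, T a)) (α : F4) {κ₀ : ℝ}
    (hκ : κ₀ < cinf ^ Fintype.card A) (ε : ℝ) (hε : 0 < ε) :
    ∃ X₀ : ℕ, ∀ X : ℕ, X₀ ≤ X →
      κ₀ * (((Sx ι X).filter fun S => Disjoint S B ∧ D.toDat.A S = α).card : ℝ) - ε * X ≤
      (((Sx ι X).filter fun S => Disjoint S B ∧ D.toDat.A S = α ∧
        ∀ a, (Q a).kz (S ∪ T a) = 1).card : ℝ) := by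
  obtain ⟨X0, h0⟩ := dens_prod (B := fun X => SA (offG D B).toDat X α)
    (x := fun a S => (Q a).kz (up S ∪ T a)) (fun a S => (Q a).pow _)
    (fun k => MV_J hD Q hB hT hi α k) hκ ε hε
  refine ⟨X0, fun X hX => ?_⟩
  have h1 := h0 X hX
  have h2 := card_SA_off D B X α fun S => ∀ a, (Q a).kz (S ∪ T a) = 1
  have h3 := card_SA_off D B X α fun _ => True
  simp only [and_true, filter_true] at h3
  have h4 := card_any (Sx ι X) (fun S => Disjoint S B ∧ D.toDat.A S = α ∧
    ∀ a, (Q a).kz (S ∪ T a) = 1)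
  have h5 := card_any (Sx ι X) (fun S => Disjoint S B ∧ D.toDat.A S = α)
  have h6 := card_any (SA (offG D B).toDat X α) (fun S => ∀ a, (Q a).kz (up S ∪ T a) = 1)
  rw [h4 _ (Classical.decPred _), h5 _ (Classical.decPred _)]
  rw [h4 _ (Classical.decPred _), h6 _ (Classical.decPred _)] at h2
  rw [h5 _ (Classical.decPred _)] at h3
  rw [← h2, ← h3]
  refine h1.trans (le_of_eq ?_)
  exact h6 _ _

open Classical in
/-- The upper bound. -/
theorem dens_J_upper (hD : D.toDat.Rec) (Q : A → Bs D) {B : Finset ι}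
    (hB : (offG D B).OK) {T : A → Finset ι} (hT : ∀ a, T a ⊆ B)
    (hi : Function.Injective fun a => ((Q a).ρ, (Q a).τ, T a)) (α : F4) {κ₀ : ℝ}
    (hκ : cinf ^ Fintype.card A < κ₀) (ε : ℝ) (hε : 0 < ε) :
    ∃ X₀ : ℕ, ∀ X : ℕ, X₀ ≤ X →
      (((Sx ι X).filter fun S => Disjoint S B ∧ D.toDat.A S = α ∧
        ∀ a, (Q a).kz (S ∪ T a) = 1).card : ℝ) ≤
      κ₀ * (((Sx ι X).filter fun S => Disjoint S B ∧ D.toDat.A S = α).card : ℝ) + ε * X := by
  obtain ⟨X0, h0⟩ := dens_upper (B := fun X => SA (offG D B).toDat X α)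
    (x := fun a S => (Q a).kz (up S ∪ T a)) (fun a S => (Q a).pow _)
    (fun k => MV_J hD Q hB hT hi α k) hκ ε hε
  refine ⟨X0, fun X hX => ?_⟩
  have h1 := h0 X hX
  have h2 := card_SA_off D B X α fun S => ∀ a, (Q a).kz (S ∪ T a) = 1
  have h3 := card_SA_off D B X α fun _ => True
  simp only [and_true, filter_true] at h3
  have h4 := card_any (Sx ι X) (fun S => Disjoint S B ∧ D.toDat.A S = α ∧
    ∀ a, (Q a).kz (S ∪ T a) = 1)
  have h5 := card_any (Sx ι X) (fun S => Disjoint S B ∧ D.toDat.A S = α)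
  have h6 := card_any (SA (offG D B).toDat X α) (fun S => ∀ a, (Q a).kz (up S ∪ T a) = 1)
  rw [h4 _ (Classical.decPred _), h5 _ (Classical.decPred _)]
  rw [h4 _ (Classical.decPred _), h6 _ (Classical.decPred _)] at h2
  rw [h5 _ (Classical.decPred _)] at h3
  rw [← h2, ← h3]
  refine (le_of_eq ?_).trans h1
  exact h6 _ _

end

end Pool.Agent.Lib.MP_1a91b9_ntP
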