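import Pool.Agent.Lib.MP_1a91b9_ntP.D.Inst
import Pool.Agent.Lib.MP_1a91b9_ntP.Defs
import Pool.Agent.Lib.MP_1a91b9_ntP.J.Dens

/-!
# MP_1a91b9_nt, several twists over `Q(sqrt -3)`, part D: the joint density of the good sets of
primes
-/

set_option autoImplicit false

namespace Pool.Agent.Lib.MP_1a91b9_ntP

open NumberField Finset Pool.Agent.Lib.MP_1a91b9_ntT Pool.Agent.Lib.MP_1a91b9_ntH
  Pool.Agent.Lib.MP_1a91b9_ntH2 Pool.Agent.Lib.MP_1a91b9_ntH2.Db Pool.Agent.Lib.MP_1a91b9_ntE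
  Pool.Agent.Lib.MP_1a91b9_ntS

noncomputable section

/-- The base system of a label. -/
def bsQ : Bool → F4 → Bs qE
  | true, c => evB qE c
  | false, c => odB qE c

theorem bsQ_rho : ∀ (f : Bool) (c : F4), (bsQ f c).ρ = 1 + F4.tr c
  | true, _ => rfl
  | false, _ => rfl

theorem bsQ_tau : ∀ (f : Bool) (c : F4), (bsQ f c).τ = if f = true then 1 else 0
  | true, _ => rfl
  | false, _ => rfl

theorem tw_twD (c : F4) : tw c qd = twD c qE.toDat := rfl

theorem bsQ_one : ∀ (f : Bool) (c : F4) (S : Finset Pq), (bsQ f c).kz S = 1 ↔ GdE f c S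
  | true, c, S => (evB_one qE c S).trans (by
      unfold GdE
      rw [if_pos rfl])
  | false, c, S => (odB_one qE c S).trans (by
      unfold GdE
      rw [if_neg Bool.false_ne_true, tw_twD])

/-- The labels are different. -/
theorem bsQ_inj {A : Type} {f : A → Bool} {c : A → F4} {T : A → Finset Pq}
    (hi : Function.Injective fun i => (f i, F4.tr (c i), T i)) :
    Function.Injective fun a => ((bsQ (f a) (c a)).ρ, (bsQ (f a) (c a)).τ, T a) := by
  intro a a' h
  have h1 : (bsQ (f a) (c a)).ρ = (bsQ (f a') (c a')).ρ := congrArg Prod.fst h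
  have h2 : (bsQ (f a) (c a)).τ = (bsQ (f a') (c a')).τ := congrArg (fun x => x.2.1) h
  have h3 : T a = T a' := congrArg (fun x => x.2.2) h
  rw [bsQ_rho, bsQ_rho] at h1
  rw [bsQ_tau, bsQ_tau] at h2
  have h4 : ∀ x y : Bool, (if x = true then (1 : ZMod 2) else 0) = (if y = true then 1 else 0) →
      x = y := by decide
  exact hi (Prod.ext (h4 _ _ h2) (Prod.ext (add_left_cancel h1) h3))

/-- **The joint density of the good sets of primes.** -/
theorem dsj2 : DSJ2 := by
  classical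
  intro N hN f c T B hT hi α κ₀ hκ ε hε
  have : Nonempty (Fin N) := ⟨⟨0, hN⟩⟩
  have hκ' : κ₀ < Da.cinf ^ Fintype.card (Fin N) := by rwa [Fintype.card_fin]
  obtain ⟨X0, h0⟩ := dens_J qE_OK.rec_ (fun i => bsQ (f i) (c i)) (qG_OK B) hT (bsQ_inj hi) α hκ'
    ε hε
  refine ⟨X0, fun X hX => ?_⟩
  have h1 := h0 X hX
  simp only [bsQ_one] at h1
  have h4 := card_any (Sx Pq X) (fun S => Disjoint S B ∧ qd.A S = α ∧
    ∀ i, GdE (f i) (c i) (S ∪ T i))
  have h5 := card_any (Sx Pq X) (fun S => Disjoint S B ∧ qd.A S = α)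
  refine le_trans (le_of_eq ?_) (h1.trans (le_of_eq ?_))
  · exact congrArg (fun x : ℝ => κ₀ * x - ε * X) (h5 _ _)
  · exact h4 _ _

end

end Pool.Agent.Lib.MP_1a91b9_ntP
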