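import Pool.Agent.Lib.MP_1a91b9_ntE.D.KE

/-!
# MP_1a91b9_nt, several twists over `Q(sqrt -3)`, part D: the main term of the matrix of a pair

The last column of the matrix is the trace of the last column of the matrix of an even class.
-/

set_option autoImplicit false
set_option linter.unusedSectionVars false

namespace Pool.Agent.Lib.MP_1a91b9_ntP

open Finset Pool.Agent.Lib.MP_1a91b9_ntH Pool.Agent.Lib.MP_1a91b9_ntH.Da
  Pool.Agent.Lib.MP_1a91b9_ntH2.Db
open Pool.Agent.Lib.MP_1a91b9_ntE.Dc (delE delE_eq sum_Us_mem del_iff)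

variable {k : ℕ}

/-- The linear term. -/
def gamX (c c' : F4) (x y : Fin k → F4) (l : Lab k) : F4 :=
  gam2 c c' l + F4.of (F4.tr (x ⬝ᵥ l.2)) + F4.of (F4.tr (y ⬝ᵥ l.1))

/-- The exponent `θ_U(A)`. -/
def thX (o : Lab k → ℕ) (c c' : F4) (x y : Fin k → F4) (U : Finset (Lab k)) (A : Lab k → F4) :
    ZMod 2 :=
  ∑ l ∈ U, F4.tr (gamX c c' x y l * A l) +
    ∑ l ∈ U, ∑ m ∈ U, if o l < o m then Phi m l * F4.tr (A l * A m) else 0

open Classical in
/-- The contribution of a maximal unlinked set. -/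
noncomputable def cUX (o : Lab k → ℕ) (c c' : F4) (x y : Fin k → F4) (U : Finset (Lab k)) : ℝ :=
  if ∀ l ∈ U, delE y l = 0 then
    (∑ A : Lab k → F4, sg (thX o c c' x y U A)) / Fintype.card (Lab k → F4) else 0

theorem tr_gamX (c c' : F4) (x y : Fin k → F4) (l : Lab k) (a : F4) :
    F4.tr (gamX c c' x y l * a) = F4.tr (gam2 c c' l * a) +
      (F4.tr (x ⬝ᵥ l.2) * F4.tr a + F4.tr (y ⬝ᵥ l.1) * F4.tr a) := by
  have hd : ∀ (a : F4) (t : ZMod 2), F4.tr (F4.of t * a) = t * F4.tr a := by decide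
  rw [gamX, add_mul, add_mul, F4.tr_add, F4.tr_add, hd, hd, add_assoc]

/-- The additional part of the exponent on the coset `(0, y) + W`. -/
def Yx (x y : Fin k → F4) (W : Finset (Lab k)) (A : Lab k → F4) : ZMod 2 :=
  ∑ l ∈ W, (F4.tr (x ⬝ᵥ (l.2 + y)) * F4.tr (A l) + F4.tr (y ⬝ᵥ l.1) * F4.tr (A l))

theorem thX_sh (o : Lab k → ℕ) (c c' : F4) (x y : Fin k → F4) (W : Finset (Lab k))
    (A : Lab k → F4) : thX o c c' x y (sh ((0, y) : Lab k) W) A =
      EE2 (fun l => o (l + ((0, y) : Lab k))) c c' W ((0, y) : Lab k)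
        (fun l => A (l + ((0, y) : Lab k))) + Yx x y W fun l => A (l + ((0, y) : Lab k)) := by
  have hinj : Set.InjOn (fun z : Lab k => z + ((0, y) : Lab k)) (W : Set (Lab k)) :=
    fun x _ y _ hxy => add_left_injective _ hxy
  rw [← theta2_sh, thX, theta2]
  simp only [tr_gamX, sum_add_distrib]
  have h : ∑ l ∈ sh ((0, y) : Lab k) W, F4.tr (x ⬝ᵥ l.2) * F4.tr (A l) +
      ∑ l ∈ sh ((0, y) : Lab k) W, F4.tr (y ⬝ᵥ l.1) * F4.tr (A l) =
      Yx x y W fun l => A (l + ((0, y) : Lab k)) := by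
    rw [Yx, sum_add_distrib, sh, sum_image hinj, sum_image hinj]
    congr 1
    refine sum_congr rfl fun l _ => ?_
    rw [Prod.fst_add, add_zero]
  rw [← h]
  ring

theorem Yx_add (x y : Fin k → F4) (W : Finset (Lab k)) (A B : Lab k → F4) :
    Yx x y W (A + B) = Yx x y W A + Yx x y W B := by
  rw [Yx, Yx, Yx, ← sum_add_distrib]
  refine sum_congr rfl fun l _ => ?_
  rw [Pi.add_apply, F4.tr_add]
  ring

theorem Yx_single (x y : Fin k → F4) {W : Finset (Lab k)} {q : Lab k} (hq : q ∈ W) (t : F4) :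
    Yx x y W (Pi.single q t) = F4.tr (x ⬝ᵥ (q.2 + y)) * F4.tr t + F4.tr (y ⬝ᵥ q.1) * F4.tr t := by
  rw [Yx, sum_eq_single q]
  · rw [Pi.single_eq_same]
  · intro m _ hm
    rw [Pi.single_eq_of_ne hm, F4.tr_zero, mul_zero, mul_zero, add_zero]
  · intro h
    exact absurd hq h

/-- If `W` is not hermitian, the average is zero. -/
theorem sum_not_herX (o : Lab k → ℕ) (ho : Function.Injective o) (c c' : F4) (x y : Fin k → F4)
    {W : Finset (Lab k)} (hW : Mx W) (h : ¬ Her W) (l0 : Lab k) :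
    ∑ A, sg (EE2 o c c' W l0 A + Yx x y W A) = 0 := by
  unfold Her at h
  push Not at h
  obtain ⟨a, ha, b, hb, hab⟩ := h
  have hab' : a + b ∈ W := hW.add_mem ha hb
  have hQa := hW.unl.Qf hW.zero ha
  have hQb := hW.unl.Qf hW.zero hb
  have hB := hW.unl.Bf hW.zero ha hb
  have hQa0 := hQa
  have hQb0 := hQb
  have hB0 := hB
  rw [Qf] at hQa hQb
  rw [Bf] at hB
  obtain ⟨t, ht⟩ : ∃ t : F4, F4.tr t = 1 := ⟨F4.w, rfl⟩
  set K : Lab k → F4 := Pi.single 0 t + (Pi.single a t + (Pi.single b t + Pi.single (a + b) t))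
    with hK
  refine sum_sg_eq_zero (fun A => EE2 o c c' W l0 A + Yx x y W A) K fun A => ?_
  have e1 : ∀ A, EE2 o c c' W l0 A = Ln c' W l0 A + PP o W l0 A + Xt c W l0 A := fun A => rfl
  have hYK : Yx x y W K = 0 := by
    rw [hK, Yx_add, Yx_add, Yx_add, Yx_single x y hW.zero, Yx_single x y ha, Yx_single x y hb,
      Yx_single x y hab', ht]
    simp only [Prod.fst_add, Prod.snd_add, dotProduct_add, F4.tr_add, Prod.fst_zero,
      Prod.snd_zero, dotProduct_zero, F4.tr_zero, mul_one]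
    generalize F4.tr (x ⬝ᵥ a.2) = x1
    generalize F4.tr (x ⬝ᵥ b.2) = x2
    generalize F4.tr (x ⬝ᵥ y) = x3
    generalize F4.tr (y ⬝ᵥ a.1) = x4
    generalize F4.tr (y ⬝ᵥ b.1) = x5
    revert x1 x2 x3 x4 x5
    decide
  rw [e1, e1, Ln_add, PP_add o ho hW, Xt_add, Yx_add, hYK, add_zero]
  have hpol : pol W l0 A K = 0 := by
    rw [hK, pol_add_right, pol_add_right, pol_add_right, pol_single l0 _ hW.zero,
      pol_single l0 _ ha, pol_single l0 _ hb, pol_single l0 _ hab', ← sum_add_distrib,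
      ← sum_add_distrib, ← sum_add_distrib]
    refine sum_eq_zero fun l _ => ?_
    have := Phi_four (l := l) (l0 := l0) (a := a) (b := b)
    linear_combination F4.tr (A l * t) * this
  have hX : Xt c W l0 K = 0 := by
    rw [hK, Xt_add, Xt_add, Xt_add, Xt_single c l0 hW.zero, Xt_single c l0 ha, Xt_single c l0 hb,
      Xt_single c l0 hab']
    rw [zero_add, Qf_add a l0, Qf_add b l0, Qf_add (a + b) l0, Qf_add a b, Bf_add', hQa0, hQb0, hB0]
    generalize Qf l0 = x1
    generalize Bf a l0 = x2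
    generalize Bf b l0 = x3
    generalize F4.tr (c * t) = x4
    revert x1 x2 x3 x4
    decide
  have hPK : PP o W l0 K = F4.tr (a.2 ⬝ᵥ b.1) := by
    rw [hK, PP_add o ho hW, PP_add o ho hW, PP_add o ho hW, PP_single, PP_single, PP_single,
      PP_single, pol_add_right, pol_add_right, pol_add_right, pol_single_single l0 hW.zero ha,
      pol_single_single l0 hW.zero hb, pol_single_single l0 hW.zero hab',
      pol_single_single l0 ha hb, pol_single_single l0 ha hab', pol_single_single l0 hb hab',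
      F4.tr_sq, ht]
    simp only [Phi_sh, Prod.fst_add, dotProduct_add, F4.tr_add,
      Prod.fst_zero, Prod.snd_zero, dotProduct_zero, zero_dotProduct, F4.tr_zero, hQa, hQb]
    have hB' : F4.tr (b.2 ⬝ᵥ a.1) = F4.tr (a.2 ⬝ᵥ b.1) :=
      add_left_cancel (hB.trans (zadd_self _).symm)
    rw [hB']
    generalize F4.tr (a.2 ⬝ᵥ b.1) = x1
    generalize F4.tr (l0.2 ⬝ᵥ a.1) = x2
    generalize F4.tr (l0.2 ⬝ᵥ b.1) = x3
    revert x1 x2 x3
    decide
  have hLK : Ln c' W l0 K = F4.tr (F4.cj (a.2 ⬝ᵥ b.1 + b.2 ⬝ᵥ a.1) * t) := by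
    rw [hK, Ln_add, Ln_add, Ln_add, Ln_single c' l0 hW.zero, Ln_single c' l0 ha,
      Ln_single c' l0 hb, Ln_single c' l0 hab', ← gam_four c' (l0 := l0), add_mul, add_mul, add_mul,
      F4.tr_add, F4.tr_add, F4.tr_add]
    ring
  have hfin : ∀ x y t : F4, F4.tr x + F4.tr y = 0 → F4.cj x ≠ y → F4.tr t = 1 →
      F4.tr (F4.cj (x + y) * t) + F4.tr x = 1 := by decide
  have hKK := hfin _ _ t hB hab ht
  rw [← hLK, ← hPK] at hKK
  rw [hpol, hX]
  linear_combination hKK

/-! ### The hermitian case -/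

theorem Yx_eq (x y : Fin k → F4) (W : Finset (Lab k)) (A : Lab k → F4) :
    Yx x y W A = F4.tr (x ⬝ᵥ (F4.of (F4.tr (aT W A)) • y + (vS W A + vS' W A))) +
      F4.tr (y ⬝ᵥ (vR W A + vR' W A)) := by
  have e0 : F4.of (F4.tr (aT W A)) = ∑ l ∈ W, (A l + F4.cj (A l)) := by
    have hd : ∀ z : F4, F4.of (F4.tr z) = z + F4.cj z := by decide
    rw [hd, aT, F4.cj_sum, ← sum_add_distrib]
  rw [dotProduct_add, dotProduct_add, dotProduct_add, dotProduct_smul, F4.tr_add, F4.tr_add,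
    F4.tr_add, vR, vR', vS, vS', e0,
    dotProduct_sum, dotProduct_sum, dotProduct_sum, dotProduct_sum, F4.tr_sum, F4.tr_sum,
    F4.tr_sum, F4.tr_sum, smul_eq_mul,
    sum_mul, F4.tr_sum, ← sum_add_distrib, ← sum_add_distrib, ← sum_add_distrib,
    ← sum_add_distrib, Yx]
  refine sum_congr rfl fun l _ => ?_
  rw [F4.tr_mul_tr, F4.tr_mul_tr, dotProduct_add, add_mul, add_mul, F4.tr_add, F4.tr_add,
    dotProduct_smul, dotProduct_smul, dotProduct_smul, dotProduct_smul, smul_eq_mul, smul_eq_mul,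
    smul_eq_mul, smul_eq_mul, add_mul, F4.tr_add, mul_comm (A l) (x ⬝ᵥ y),
    mul_comm (A l) (x ⬝ᵥ l.2), mul_comm (A l) (y ⬝ᵥ l.1), mul_comm (F4.cj (A l)) (y ⬝ᵥ l.1),
    mul_comm (F4.cj (A l)) (x ⬝ᵥ y), mul_comm (F4.cj (A l)) (x ⬝ᵥ l.2)]
  ring

theorem exp_eqX (o : Lab k → ℕ) (ho : Function.Injective o) (c c' : F4) (x y : Fin k → F4)
    {W : Finset (Lab k)} (hW : Mx W) (h : Her W) (A : Lab k → F4) :
    (1 + F4.tr c) * F4.tr (x ⬝ᵥ y) + (EE2 o c c' W ((0, y) : Lab k) A + Yx x y W A) =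
      F4.tr (c' * aT W A) + F4.tr (vS W A ⬝ᵥ vR W A) +
      F4.tr (y ⬝ᵥ ((aT W A + c) • vR W A + (F4.cj (aT W A) + F4.cj c + 1) • vR' W A)) +
      F4.tr (x ⬝ᵥ (F4.of (1 + F4.tr (aT W A + c)) • y + (vS W A + vS' W A))) := by
  have hd : ∀ (t : ZMod 2) (z : F4), F4.tr (F4.of t * z) = t * F4.tr z := by decide
  rw [EE2_eq o ho c c' hW h, Yx_eq]
  simp only [dotProduct_add, dotProduct_smul, smul_eq_mul, F4.tr_add, add_smul,
    zero_dotProduct, F4.tr_zero, one_smul, mul_zero, hd]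
  have h2 : (2 : ZMod 2) = 0 := rfl
  linear_combination (F4.tr (y ⬝ᵥ vR W A)) * h2

theorem her_a {W : Finset (Lab k)} (h : Her W) (A : Lab k → F4) :
    F4.cj (vS W A ⬝ᵥ vR' W A) = vS W A ⬝ᵥ vR' W A := by
  simp only [vS, vR', sum_dotProduct, dotProduct_sum, smul_dotProduct, dotProduct_smul,
    smul_eq_mul, F4.cj_sum, F4.cj_mul, F4.cj_cj, mul_sum]
  rw [sum_comm]
  refine sum_congr rfl fun l hl => sum_congr rfl fun m hm => ?_
  rw [h l hl m hm]
  ring

theorem her_b {W : Finset (Lab k)} (h : Her W) (A : Lab k → F4) :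
    F4.cj (vS' W A ⬝ᵥ vR W A) = vS' W A ⬝ᵥ vR W A := by
  simp only [vS', vR, sum_dotProduct, dotProduct_sum, smul_dotProduct, dotProduct_smul,
    smul_eq_mul, F4.cj_sum, F4.cj_mul, F4.cj_cj, mul_sum]
  rw [sum_comm]
  refine sum_congr rfl fun l hl => sum_congr rfl fun m hm => ?_
  rw [h l hl m hm]
  ring

theorem her_c {W : Finset (Lab k)} (h : Her W) (A : Lab k → F4) :
    F4.cj (vS W A ⬝ᵥ vR W A) = vS' W A ⬝ᵥ vR' W A := by
  simp only [vS, vR, vS', vR', sum_dotProduct, dotProduct_sum, smul_dotProduct, dotProduct_smul,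
    smul_eq_mul, F4.cj_sum, F4.cj_mul, mul_sum]
  rw [sum_comm]
  refine sum_congr rfl fun l hl => sum_congr rfl fun m hm => ?_
  rw [h l hl m hm]
  ring

/-- The hermitian case, summed over `x` and `y`. -/
theorem sum_xyX (o : Lab k → ℕ) (ho : Function.Injective o) (c c' : F4)
    {W : Finset (Lab k)} (hW : Mx W) (h : Her W) (A : Lab k → F4) :
    ∑ y : Fin k → F4, ∑ x : Fin k → F4,
      sg ((1 + F4.tr c) * F4.tr (x ⬝ᵥ y) + (EE2 o c c' W ((0, y) : Lab k) A + Yx x y W A)) =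
      4 ^ k * sg (F4.tr (c' * aT W A)) * (if F4.tr (aT W A + c) = 0 then 1 else
        if ((vR W A, vS' W A) : Lab k) = (vR' W A, vS W A) then 4 ^ k else 0) := by
  have h1 : ∀ y : Fin k → F4, ∑ x : Fin k → F4,
      sg ((1 + F4.tr c) * F4.tr (x ⬝ᵥ y) + (EE2 o c c' W ((0, y) : Lab k) A + Yx x y W A)) =
      sg (F4.tr (c' * aT W A) + F4.tr (vS W A ⬝ᵥ vR W A) +
        F4.tr (y ⬝ᵥ ((aT W A + c) • vR W A + (F4.cj (aT W A) + F4.cj c + 1) • vR' W A))) *
      (if F4.of (1 + F4.tr (aT W A + c)) • y + (vS W A + vS' W A) = 0 then (4 ^ k : ℝ)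
        else 0) := by
    intro y
    rw [← sum_dot, mul_sum]
    refine sum_congr rfl fun x _ => ?_
    rw [exp_eqX o ho c c' x y hW h, sg_add]
  simp only [h1]
  obtain ⟨b, hb⟩ : ∃ b : F4, b = aT W A + c := ⟨_, rfl⟩
  have hcb : F4.cj (aT W A) + F4.cj c = F4.cj b := by rw [hb, F4.cj_add]
  rw [hcb, ← hb]
  by_cases ht : F4.tr b = 0
  · rw [if_pos ht, mul_one]
    have hof : F4.of (1 + F4.tr b) = 1 := by
      rw [ht]
      rfl
    simp only [hof, one_smul]
    rw [sum_eq_single (vS W A + vS' W A)]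
    · rw [if_pos (vadd_self _)]
      have h2 : F4.tr (vS W A ⬝ᵥ vR W A) + F4.tr ((vS W A + vS' W A) ⬝ᵥ (b • vR W A +
          (F4.cj b + 1) • vR' W A)) = 0 := by
        rw [dotProduct_add, F4.tr_add, add_dotProduct, add_dotProduct, F4.tr_add, F4.tr_add]
        simp only [dotProduct_smul, smul_eq_mul]
        rw [← her_c h A]
        have hd : ∀ b p q r : F4, F4.tr b = 0 → F4.cj q = q → F4.cj r = r →
            F4.tr p + (F4.tr (b * p) + F4.tr (b * r) + (F4.tr ((F4.cj b + 1) * q) +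
              F4.tr ((F4.cj b + 1) * F4.cj p))) = 0 := by decide
        exact hd b _ _ _ ht (her_a h A) (her_b h A)
      rw [add_assoc, h2, add_zero]
      ring
    · intro y _ hne
      rw [if_neg, mul_zero]
      intro hz
      exact hne (v_eq_iff.1 hz)
    · intro h
      exact absurd (mem_univ _) h
  · have hz2 : ∀ z : ZMod 2, z ≠ 0 → z = 1 := by decide
    have ht1 : F4.tr b = 1 := hz2 _ ht
    rw [if_neg ht]
    have hof : F4.of (1 + F4.tr b) = 0 := by
      rw [ht1]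
      rfl
    have hbb : F4.cj b + 1 = b := by
      have hd : ∀ b : F4, F4.tr b = 1 → F4.cj b + 1 = b := by decide
      exact hd b ht1
    have hb0 : b ≠ 0 := by
      rintro rfl
      exact ht rfl
    simp only [hof, zero_smul, zero_add, hbb, Prod.mk.injEq]
    by_cases hS : vS' W A = vS W A
    · have hS0 : vS W A + vS' W A = 0 := v_eq_iff.2 hS.symm
      simp only [if_pos hS0]
      simp only [hS, and_true]
      rw [← sum_mul]
      have h3 : ∀ y : Fin k → F4, F4.tr (y ⬝ᵥ (b • vR W A + b • vR' W A)) =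
          F4.tr (y ⬝ᵥ (b • (vR W A + vR' W A))) := fun y => by rw [smul_add]
      simp only [h3, sg_add]
      rw [← mul_sum, sum_dot]
      have h4 : b • (vR W A + vR' W A) = 0 ↔ vR W A = vR' W A := by
        rw [smul_eq_zero]
        constructor
        · rintro (h5 | h5)
          · exact absurd h5 hb0
          · exact v_eq_iff.1 h5
        · intro h5
          exact Or.inr (v_eq_iff.2 h5)
      rw [if_congr h4 rfl rfl]
      by_cases hR : vR W A = vR' W A
      · rw [if_pos hR]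
        have h5 : F4.tr (vS W A ⬝ᵥ vR W A) = 0 := by
          have h6 := her_b h A
          rw [hS] at h6
          have hd : ∀ q : F4, F4.cj q = q → F4.tr q = 0 := by decide
          exact hd _ h6
        rw [h5, sg_zero]
        ring
      · rw [if_neg hR]
        ring
    · have hn : ¬ (vR W A = vR' W A ∧ vS' W A = vS W A) := fun hh => hS hh.2
      rw [if_neg hn, mul_zero]
      refine sum_eq_zero fun y _ => ?_
      rw [if_neg, mul_zero]
      intro hz
      exact hS (v_eq_iff.1 hz).symm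

theorem sum_herX (o : Lab k → ℕ) (ho : Function.Injective o) (c c' : F4)
    {W : Finset (Lab k)} (hW : Mx W) (h : Her W) :
    ∑ y : Fin k → F4, ∑ x : Fin k → F4, ∑ A : Lab k → F4,
      sg ((1 + F4.tr c) * F4.tr (x ⬝ᵥ y) + (EE2 (fun l => o (l + ((0, y) : Lab k))) c c' W
        ((0, y) : Lab k) A + Yx x y W A)) =
      if c' = 0 then (4 ^ k : ℝ) * Fintype.card (Lab k → F4) else 0 := by
  have ho' : ∀ l0, Function.Injective fun l : Lab k => o (l + l0) := fun l0 =>
    ho.comp (add_left_injective l0)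
  have hr : ∀ l0 A, EE2 (fun l => o (l + l0)) c c' W l0 A = EE2 o c c' W l0 A := fun l0 A => by
    rw [EE2_eq _ (ho' l0) c c' hW h, EE2_eq o ho c c' hW h]
  simp only [hr]
  have h0 : ∑ y : Fin k → F4, ∑ x : Fin k → F4, ∑ A : Lab k → F4,
      sg ((1 + F4.tr c) * F4.tr (x ⬝ᵥ y) + (EE2 o c c' W ((0, y) : Lab k) A + Yx x y W A)) =
      ∑ A : Lab k → F4, ∑ y : Fin k → F4, ∑ x : Fin k → F4,
        sg ((1 + F4.tr c) * F4.tr (x ⬝ᵥ y) +
          (EE2 o c c' W ((0, y) : Lab k) A + Yx x y W A)) := by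
    rw [sum_comm (s := (univ : Finset (Lab k → F4)))]
    refine sum_congr rfl fun y _ => ?_
    rw [sum_comm]
  rw [h0]
  simp only [sum_xyX o ho c c' hW h]
  have h1 := sum_gG hW h (fun z : F4 × Lab k × Lab k => 4 ^ k * sg (F4.tr (c' * z.1)) *
    (if F4.tr (z.1 + c) = 0 then 1 else if z.2.1 = z.2.2 then 4 ^ k else 0))
  refine Eq.trans h1 ?_
  have h2 : (Fintype.card (Lab k → F4) : ℝ) = kapG W * (4 * (4 ^ k * 4 ^ k)) := by
    have := sum_gG hW h fun _ => 1
    simp only [sum_const, card_univ, nsmul_eq_mul, mul_one, F4.card_F4, hW.card] at this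
    rw [this]
    push_cast
    ring
  have h3 : ∀ a : F4, ∑ l ∈ W, ∑ m ∈ W, (4 : ℝ) ^ k * sg (F4.tr (c' * a)) *
      (if F4.tr (a + c) = 0 then 1 else if l = m then 4 ^ k else 0) =
      4 ^ k * 4 ^ k * 4 ^ k * sg (F4.tr (c' * a)) := by
    intro a
    have hc : (W.card : ℝ) = 4 ^ k := by rw [hW.card]; push_cast; rfl
    have h4 : ∀ l ∈ W, ∑ m ∈ W, (if F4.tr (a + c) = 0 then (1 : ℝ) else
        if l = m then 4 ^ k else 0) = 4 ^ k := by
      intro l hl
      by_cases hb : F4.tr (a + c) = 0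
      · simp only [hb, if_true, sum_const, nsmul_eq_mul, mul_one]
        exact hc
      · simp only [hb, if_false]
        rw [sum_ite_eq, if_pos hl]
    simp only [← mul_sum]
    rw [sum_congr rfl h4, sum_const, nsmul_eq_mul, hc]
    ring
  simp only [h3]
  rw [← mul_sum, sum_sg_tr]
  split_ifs with hc
  · rw [h2]; ring
  · ring

/-- (K3) for the matrix of a pair. -/
theorem K3X (o : Lab k → ℕ) (ho : Function.Injective o) (c c' : F4) :
    ∑ y : Fin k → F4, ∑ x : Fin k → F4, sg ((1 + F4.tr c) * F4.tr (x ⬝ᵥ y)) *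
      ∑ U ∈ Us k, cUX o c c' x y U = if c' = 0 then (4 : ℝ) ^ k * Nk k else 0 := by
  classical
  have hpos : (0 : ℝ) < Fintype.card (Lab k → F4) := by exact_mod_cast Fintype.card_pos
  set N : ℝ := (Fintype.card (Lab k → F4) : ℝ) with hN
  have h1 : ∀ x y : Fin k → F4, sg ((1 + F4.tr c) * F4.tr (x ⬝ᵥ y)) *
      ∑ U ∈ Us k, cUX o c c' x y U =
      ∑ W ∈ univ.filter (fun W : Finset (Lab k) => Mx W), (∑ A : Lab k → F4,
        sg ((1 + F4.tr c) * F4.tr (x ⬝ᵥ y) + (EE2 (fun l => o (l + ((0, y) : Lab k))) c c' W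
          ((0, y) : Lab k) A + Yx x y W A))) / N := by
    intro x y
    have h2 : ∑ U ∈ Us k, cUX o c c' x y U = ∑ U ∈ (Us k).filter (fun U => ((0, y) : Lab k) ∈ U),
        (∑ A : Lab k → F4, sg (thX o c c' x y U A)) / N := by
      rw [sum_filter]
      refine sum_congr rfl fun U hU => ?_
      rw [cUX, if_congr (del_iff hU y) rfl rfl]
    rw [h2, sum_Us_mem ((0, y) : Lab k) fun U => (∑ A : Lab k → F4,
      sg (thX o c c' x y U A)) / N, mul_sum]
    refine sum_congr rfl fun W _ => ?_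
    rw [← mul_div_assoc, mul_sum]
    congr 1
    refine Fintype.sum_equiv (Equiv.arrowCongr (Equiv.addRight ((0, y) : Lab k))
      (Equiv.refl F4)) _ _ ?_
    intro A
    rw [thX_sh, sg_add ((1 + F4.tr c) * F4.tr (x ⬝ᵥ y))]
    congr 2
  simp only [h1]
  have h3 : ∑ y : Fin k → F4, ∑ x : Fin k → F4, ∑ W ∈ univ.filter (fun W : Finset (Lab k) => Mx W),
      (∑ A : Lab k → F4, sg ((1 + F4.tr c) * F4.tr (x ⬝ᵥ y) +
        (EE2 (fun l => o (l + ((0, y) : Lab k))) c c' W ((0, y) : Lab k) A + Yx x y W A))) / N =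
      ∑ W ∈ univ.filter (fun W : Finset (Lab k) => Mx W), (∑ y : Fin k → F4, ∑ x : Fin k → F4,
        ∑ A : Lab k → F4, sg ((1 + F4.tr c) * F4.tr (x ⬝ᵥ y) +
        (EE2 (fun l => o (l + ((0, y) : Lab k))) c c' W ((0, y) : Lab k) A + Yx x y W A))) /
        N := by
    have h4 : ∀ y : Fin k → F4, ∑ x : Fin k → F4,
        ∑ W ∈ univ.filter (fun W : Finset (Lab k) => Mx W), (∑ A : Lab k → F4,
          sg ((1 + F4.tr c) * F4.tr (x ⬝ᵥ y) + (EE2 (fun l => o (l + ((0, y) : Lab k))) c c' W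
          ((0, y) : Lab k) A + Yx x y W A))) / N =
        ∑ W ∈ univ.filter (fun W : Finset (Lab k) => Mx W), (∑ x : Fin k → F4,
          ∑ A : Lab k → F4, sg ((1 + F4.tr c) * F4.tr (x ⬝ᵥ y) +
          (EE2 (fun l => o (l + ((0, y) : Lab k))) c c' W ((0, y) : Lab k) A + Yx x y W A))) /
          N := by
      intro y
      rw [sum_comm]
      refine sum_congr rfl fun W _ => ?_
      rw [sum_div]
    simp only [h4]
    rw [sum_comm]
    refine sum_congr rfl fun W _ => ?_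
    rw [sum_div]
  rw [h3]
  have h5 : ∀ W ∈ univ.filter (fun W : Finset (Lab k) => Mx W),
      (∑ y : Fin k → F4, ∑ x : Fin k → F4,
        ∑ A : Lab k → F4, sg ((1 + F4.tr c) * F4.tr (x ⬝ᵥ y) +
          (EE2 (fun l => o (l + ((0, y) : Lab k))) c c' W ((0, y) : Lab k) A + Yx x y W A))) /
          N = if Her W then (if c' = 0 then (4 ^ k : ℝ) else 0) else 0 := by
    intro W hW
    have hW1 := (mem_filter.1 hW).2
    by_cases hH : Her W
    · rw [if_pos hH, sum_herX o ho c c' hW1 hH]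
      split_ifs
      · rw [mul_div_assoc, ← hN, div_self hpos.ne', mul_one]
      · rw [zero_div]
    · rw [if_neg hH]
      have h6 : ∀ y x : Fin k → F4, ∑ A : Lab k → F4, sg ((1 + F4.tr c) * F4.tr (x ⬝ᵥ y) +
          (EE2 (fun l => o (l + ((0, y) : Lab k))) c c' W ((0, y) : Lab k) A + Yx x y W A)) = 0 := by
        intro y x
        simp only [sg_add ((1 + F4.tr c) * F4.tr (x ⬝ᵥ y))]
        have h8 := sum_not_herX (fun l => o (l + ((0, y) : Lab k)))
          (ho.comp (add_left_injective _)) c c' x y hW1 hH ((0, y) : Lab k)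
        rw [← mul_sum, h8, mul_zero]
      simp only [h6, sum_const_zero, zero_div]
  rw [sum_congr rfl h5, ← sum_filter, filter_filter]
  have h7 : univ.filter (fun W : Finset (Lab k) => Mx W ∧ Her W) = Lgs k := by
    rw [Lgs]
  rw [h7, sum_const, nsmul_eq_mul, card_Lgs]
  split_ifs
  · ring
  · ring

end Pool.Agent.Lib.MP_1a91b9_ntP
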