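import Pool.Agent.Lib.MP_1a91b9_ntE.D.MomE
import Pool.Agent.Lib.MP_1a91b9_ntP.J.Ext
import Pool.Agent.Lib.MP_1a91b9_ntP.J.KX

/-!
# MP_1a91b9_nt, several twists over `Q(sqrt -3)`, part D: the matrix of a pair `c`, `c + 1`

The determinant of `NX D c S` is the sum of the determinant of the matrix of the even class `c` and the
conjugate of the determinant of the matrix of the even class `c + 1`. The powers of the size of its
kernel have the same expansion as for the even classes.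
-/

set_option autoImplicit false
set_option linter.unusedSectionVars false

namespace Pool.Agent.Lib.MP_1a91b9_ntP

open Finset Pool.Agent.Lib.MP_1a91b9_ntH Pool.Agent.Lib.MP_1a91b9_ntH.Da
  Pool.Agent.Lib.MP_1a91b9_ntH2.Db Pool.Agent.Lib.MP_1a91b9_ntE
open Pool.Agent.Lib.MP_1a91b9_ntE.Dc (delE delE_eq)

noncomputable section

variable {ι : Type} [DecidableEq ι]

/-- The matrix of the pair of the even classes `c`, `c + 1`. -/
def NX (D : DatE ι) (c : F4) (S : Finset ι) : Matrix (S ⊕ Unit) (S ⊕ Unit) F4 :=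
  Matrix.fromBlocks
    (fun i j => if i = j then F4.cj (D.a i) + F4.of (F4.tr (c * D.a i)) + F4.of (D.g i) +
      ∑ k ∈ S.erase (i : ι), F4.of (D.s i k) else F4.of (D.s i j))
    (fun i _ => F4.of (F4.tr (D.a i)))
    (fun _ j => F4.of (F4.tr (D.a j) + D.g j))
    (fun _ _ => F4.of (1 + F4.tr c))

/-- The number of elements of its kernel. -/
def kcX (D : DatE ι) (c : F4) (S : Finset ι) : ℕ :=
  Fintype.card {v : S ⊕ Unit → F4 // (NX D c S).mulVec v = 0}

/-- The conjugation as a homomorphism. -/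
def cjH : F4 →+* F4 where
  toFun := F4.cj
  map_one' := F4.cj_one
  map_mul' := F4.cj_mul
  map_zero' := F4.cj_zero
  map_add' := F4.cj_add

theorem NX_det (D : DatE ι) (c : F4) (S : Finset ι) :
    (NX D c S).det = (D.NE c S).det + F4.cj (D.NE (c + 1) S).det := by
  have h1 : NX D c S = (D.NE c S).updateCol (Sum.inr ())
      ((fun i => D.NE c S i (Sum.inr ())) +
        fun i => cjH.mapMatrix (D.NE (c + 1) S) i (Sum.inr ())) := by
    refine Matrix.ext fun i j => ?_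
    rcases j with j | j
    · rw [Matrix.updateCol_ne (by simp)]
      rcases i with i | i
      · rfl
      · rfl
    · have hj : (Sum.inr j : S ⊕ Unit) = Sum.inr () := rfl
      rw [hj, Matrix.updateCol_self]
      rcases i with i | i
      · show F4.of (F4.tr (D.a i)) = D.a i + F4.cj (D.a i)
        have hd : ∀ z : F4, F4.of (F4.tr z) = z + F4.cj z := by decide
        exact hd _
      · show F4.of (1 + F4.tr c) = c + F4.cj (c + 1)
        have hd : ∀ z : F4, F4.of (1 + F4.tr z) = z + F4.cj (z + 1) := by decide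
        exact hd _
  have h2 : (D.NE c S).updateCol (Sum.inr ()) (fun i => D.NE c S i (Sum.inr ())) =
      D.NE c S := by
    refine Matrix.ext fun i j => ?_
    rcases j with j | j
    · rw [Matrix.updateCol_ne (by simp)]
    · have hj : (Sum.inr j : S ⊕ Unit) = Sum.inr () := rfl
      rw [hj, Matrix.updateCol_self]
  have h3 : (D.NE c S).updateCol (Sum.inr ())
      (fun i => cjH.mapMatrix (D.NE (c + 1) S) i (Sum.inr ())) =
      cjH.mapMatrix (D.NE (c + 1) S) := by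
    refine Matrix.ext fun i j => ?_
    rcases j with j | j
    · rw [Matrix.updateCol_ne (by simp)]
      rcases i with i | i
      · show (if i = j then F4.cj (D.a i) + F4.of (F4.tr (c * D.a i)) + F4.of (D.g i) +
          ∑ k ∈ S.erase (i : ι), F4.of (D.s i k) else F4.of (D.s i j)) =
          F4.cj (if i = j then F4.cj (D.a i) + F4.of (F4.tr ((c + 1) * D.a i)) + F4.of (D.g i) +
          ∑ k ∈ S.erase (i : ι), F4.of (D.s i k) else F4.of (D.s i j))
        have hc : ∀ t : ZMod 2, F4.cj (F4.of t) = F4.of t := by decide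
        by_cases h : i = j
        · rw [if_pos h, if_pos h, F4.cj_add, F4.cj_sum, F4.cj_add, hc]
          simp only [hc]
          have hd : ∀ c a : F4, F4.cj a + F4.of (F4.tr (c * a)) =
              F4.cj (F4.cj a + F4.of (F4.tr ((c + 1) * a))) := by decide
          rw [hd]
        · rw [if_neg h, if_neg h, hc]
      · show F4.of (F4.tr (D.a j) + D.g j) = F4.cj (F4.of (F4.tr (D.a j) + D.g j))
        have hc : ∀ t : ZMod 2, F4.of t = F4.cj (F4.of t) := by decide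
        exact hc _
    · have hj : (Sum.inr j : S ⊕ Unit) = Sum.inr () := rfl
      rw [hj, Matrix.updateCol_self]
  rw [h1, Matrix.det_updateCol_add, h2, h3]
  congr 1
  exact (RingHom.map_det cjH (D.NE (c + 1) S)).symm

/-- Never exactly one of the three determinants is nonzero. -/
theorem NX_three (D : DatE ι) (c : F4) (S : Finset ι) :
    ((D.NE c S).det = 0 → ((D.NE (c + 1) S).det = 0 ↔ (NX D c S).det = 0)) ∧
    ((D.NE (c + 1) S).det = 0 → ((D.NE c S).det = 0 ↔ (NX D c S).det = 0)) ∧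
    ((NX D c S).det = 0 → ((D.NE c S).det = 0 ↔ (D.NE (c + 1) S).det = 0)) := by
  rw [NX_det]
  generalize (D.NE c S).det = u
  generalize (D.NE (c + 1) S).det = v
  revert u v
  decide

theorem kcX_pow (D : DatE ι) (c : F4) (S : Finset ι) : ∃ r : ℕ, kcX D c S = 4 ^ r := by
  have h1 : kcX D c S = Nat.card (LinearMap.ker (NX D c S).mulVecLin) := by
    rw [kcX, ← Nat.card_eq_fintype_card]
    rfl
  have h2 := Module.natCard_eq_pow_finrank (K := F4) (V := LinearMap.ker (NX D c S).mulVecLin)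
  rw [← h1, Nat.card_eq_fintype_card, F4.card_F4] at h2
  exact ⟨_, h2⟩

theorem kcX_eq_one (D : DatE ι) (c : F4) (S : Finset ι) :
    kcX D c S = 1 ↔ (NX D c S).det ≠ 0 := by
  rw [kcX, Fintype.card_eq_one_iff, ne_eq, ← Matrix.exists_mulVec_eq_zero_iff]
  constructor
  · rintro ⟨x, hx⟩ ⟨v, hv, hv0⟩
    have h1 := hx ⟨v, hv0⟩
    have h2 := hx ⟨0, Matrix.mulVec_zero _⟩
    rw [← h2] at h1
    exact hv (congrArg Subtype.val h1)
  · intro h
    refine ⟨⟨0, Matrix.mulVec_zero _⟩, fun y => ?_⟩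
    by_contra hne
    exact h ⟨y.1, fun h0 => hne (Subtype.ext h0), y.2⟩

/-! ### The local system -/

/-- The local system of the `n`-th moment of the matrix of a pair. -/
def exL (n : ℕ) (c : F4) : Loc Unit n ((Fin n → F4) × (Fin n → F4)) where
  e0 w := (1 + F4.tr c) * F4.tr (w.2 ⬝ᵥ w.1)
  gam w l := gamX c 0 w.2 w.1 l
  del w l _ := delE w.1 l

theorem tr_dot4 {n : ℕ} (v : Fin n → F4) (u x y : Fin n → F4) :
    F4.tr (v ⬝ᵥ u) + F4.tr (v ⬝ᵥ (u + x)) + F4.tr (v ⬝ᵥ (u + y)) + F4.tr (v ⬝ᵥ (u + x + y)) =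
      0 := by
  simp only [dotProduct_add, Da.F4.tr_add]
  generalize F4.tr (v ⬝ᵥ u) = x1
  generalize F4.tr (v ⬝ᵥ x) = x2
  generalize F4.tr (v ⬝ᵥ y) = x3
  revert x1 x2 x3
  decide

theorem gamX_four {n : ℕ} (c c' : F4) (a b : Fin n → F4) (u x y : Lab n) :
    F4.tr (gamX c c' a b u + gamX c c' a b (u + x) + gamX c c' a b (u + y) +
      gamX c c' a b (u + x + y)) = (1 + F4.tr c) * Bf x y := by
  have hof : ∀ t : ZMod 2, F4.tr (F4.of t) = 0 := by decide
  have htc : ∀ (c : F4) (t : ZMod 2), F4.tr (c * F4.of t) = F4.tr c * t := by decide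
  have e1 : ∀ l : Lab n, F4.tr (gamX c c' a b l) = Qf l + F4.tr c' + F4.tr c * Qf l := by
    intro l
    have hQ : Qf l = F4.tr (F4.cj (l.1 ⬝ᵥ l.2)) := by
      rw [Qf, dotProduct_comm, Da.F4.tr_cj]
    rw [gamX, Da.F4.tr_add, Da.F4.tr_add, hof, hof, gam2, Da.F4.tr_add, htc, gam, Da.F4.tr_add, ← hQ]
    ring
  rw [Da.F4.tr_add, Da.F4.tr_add, Da.F4.tr_add, e1, e1, e1, e1, ← Qf_par u x y]
  generalize Qf u = x1
  generalize Qf (u + x) = x2
  generalize Qf (u + y) = x3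
  generalize Qf (u + x + y) = x4
  generalize F4.tr c = x5
  generalize F4.tr c' = x6
  revert x1 x2 x3 x4 x5 x6
  decide

theorem exL_Ok (n : ℕ) (c : F4) : (exL n c).Ok (1 + F4.tr c) fun _ => 1 where
  gam4 w u x y := gamX_four c 0 w.2 w.1 u x y
  del4 w u x y j := by
    show delE w.1 u + delE w.1 (u + x) + delE w.1 (u + y) + delE w.1 (u + x + y) = 1 * Bf x y
    have h1 := tr_dot4 w.1 u.1 x.1 y.1
    have h2 := Qf_par u x y
    unfold delE
    rw [Prod.fst_add (u + x) y, Prod.fst_add u x, Prod.fst_add u y]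
    linear_combination h1 + h2
  cst w U hU j hj := by
    obtain ⟨h1, h2⟩ := mem_Us'.1 hU
    have e : ∀ l : Lab n, (exL n c).del w l j = Lk l ((0, w.1) : Lab n) := by
      intro l
      show delE w.1 l = _
      rw [delE_eq, Lk_eq]
    simp only [e] at hj ⊢
    by_cases hz : ((0, w.1) : Lab n) ∈ U
    · exact fun l hl => h1 l hl _ hz
    · obtain ⟨l, hl, l', hl', h3, h4⟩ := K2 h1 h2 hz
      have h5 := hj l hl l' hl'
      rw [h3, h4] at h5
      exact absurd h5 one_ne_zero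

theorem exL_cU (n : ℕ) (c y : F4) (w : (Fin n → F4) × (Fin n → F4)) (U : Finset (Lab n)) :
    ((exL n c).sys y w).cU U = cUX oL c y w.2 w.1 U := by
  have h1 : (∀ l ∈ U, ((exL n c).sys y w).del l = 0) ↔ ∀ l ∈ U, delE w.1 l = 0 := by
    constructor
    · intro h l hl
      exact congrFun (h l hl) ()
    · intro h l hl
      funext _
      exact h l hl
  have h2 : ∀ A : Lab n → F4, ((exL n c).sys y w).th U A = thX oL c y w.2 w.1 U A := by
    intro A
    unfold LSys.th thX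
    have h3 : ∀ l : Lab n, ((exL n c).sys y w).gam l = gamX c y w.2 w.1 l := by
      intro l
      show gamX c 0 w.2 w.1 l + y = gamX c y w.2 w.1 l
      unfold gamX gam2 gam
      ring
    simp only [h3]
    rfl
  unfold LSysG.cU cUX LSys.cU
  simp only [h1, h2]

theorem exL_G (n : ℕ) (c y : F4) : (exL n c).G y = if y = 0 then (4 : ℝ) ^ n * Nk n else 0 := by
  have h1 := K3X (k := n) oL oL_inj c y
  rw [← h1]
  unfold Loc.G
  rw [Fintype.sum_prod_type]
  refine sum_congr rfl fun y' _ => sum_congr rfl fun x _ => ?_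
  simp only [exL_cU]
  rfl

/-! ### The expansion -/

theorem NX_eq (D : DatE ι) (c : F4) (S : Finset ι) : NX D c S =
    Matrix.fromBlocks ((twD c D.toDat).M S + Matrix.diagonal fun q : S => F4.of (D.g q))
      (Matrix.of fun (q : S) _ => F4.of (F4.tr (D.a q)))
      (Matrix.of fun _ (q : S) => F4.of (F4.tr (D.a q) + D.g q))
      (Matrix.of fun _ _ => F4.of (1 + F4.tr c)) := by
  have h := NE_eq D c S
  unfold DatE.NE at h
  have h1 := (Matrix.fromBlocks_inj.1 h).1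
  unfold NX
  rw [h1]
  rfl

variable {k : ℕ}

theorem dot_NX (D : DatE ι) (c : F4) (S : Finset ι) (v w : S ⊕ Unit → F4) :
    F4.tr (w ⬝ᵥ (NX D c S).mulVec v) =
      F4.tr ((fun j => w (Sum.inl j)) ⬝ᵥ ((twD c D.toDat).M S).mulVec fun j => v (Sum.inl j)) +
      ∑ j : S, F4.tr (w (Sum.inl j) * v (Sum.inl j)) * D.g j +
      ∑ j : S, F4.tr (v (Sum.inr ()) * w (Sum.inl j)) * F4.tr (D.a j) +
      ∑ j : S, F4.tr (w (Sum.inr ()) * v (Sum.inl j)) * (F4.tr (D.a j) + D.g j) +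
      (1 + F4.tr c) * F4.tr (v (Sum.inr ()) * w (Sum.inr ())) := by
  have h1 : ∀ j : S, (NX D c S).mulVec v (Sum.inl j) =
      ((twD c D.toDat).M S).mulVec (fun j => v (Sum.inl j)) j + F4.of (D.g j) * v (Sum.inl j) +
        F4.of (F4.tr (D.a j)) * v (Sum.inr ()) := by
    intro j
    have e1 : ((twD c D.toDat).M S + Matrix.diagonal fun q : S => F4.of (D.g q)).mulVec
        (fun j => v (Sum.inl j)) j = ((twD c D.toDat).M S).mulVec (fun j => v (Sum.inl j)) j +
        F4.of (D.g j) * v (Sum.inl j) := by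
      rw [Matrix.add_mulVec, Pi.add_apply, Matrix.mulVec_diagonal]
    rw [← e1]
    show ∑ i : S ⊕ Unit, (NX D c S) (Sum.inl j) i * v i = _
    rw [Fintype.sum_sum_type, NX_eq]
    congr 1
    rw [Fintype.sum_unique]
    rfl
  have h2 : (NX D c S).mulVec v (Sum.inr ()) =
      ∑ j : S, F4.of (F4.tr (D.a j) + D.g j) * v (Sum.inl j) +
        F4.of (1 + F4.tr c) * v (Sum.inr ()) := by
    show ∑ i : S ⊕ Unit, (NX D c S) (Sum.inr ()) i * v i = _
    rw [Fintype.sum_sum_type, NX_eq]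
    congr 1
    rw [Fintype.sum_unique]
    rfl
  have h3 : w ⬝ᵥ (NX D c S).mulVec v = ∑ j : S, w (Sum.inl j) * (NX D c S).mulVec v (Sum.inl j) +
      w (Sum.inr ()) * (NX D c S).mulVec v (Sum.inr ()) := by
    rw [dotProduct, Fintype.sum_sum_type]
    congr 1
    rw [Fintype.sum_unique]
  have hd : ∀ (x y : F4) (s : ZMod 2), F4.tr (x * (F4.of s * y)) = F4.tr (x * y) * s := by decide
  rw [h3, h2]
  simp only [h1, mul_add, sum_add_distrib, Da.F4.tr_add, Da.F4.tr_sum, mul_sum]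
  have e1 : ∀ j : S, F4.tr (w (Sum.inl j) * (F4.of (D.g j) * v (Sum.inl j))) =
      F4.tr (w (Sum.inl j) * v (Sum.inl j)) * D.g j := fun j => hd _ _ _
  have e2 : ∀ j : S, F4.tr (w (Sum.inr ()) * (F4.of (F4.tr (D.a j) + D.g j) * v (Sum.inl j))) =
      F4.tr (w (Sum.inr ()) * v (Sum.inl j)) * F4.tr (D.a j) +
        F4.tr (w (Sum.inr ()) * v (Sum.inl j)) * D.g j := by
    intro j
    rw [hd, mul_add]
  have e3 : F4.tr ((fun j : S => w (Sum.inl j)) ⬝ᵥ ((twD c D.toDat).M S).mulVec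
      fun j => v (Sum.inl j)) = ∑ j : S, F4.tr (w (Sum.inl j) *
        ((twD c D.toDat).M S).mulVec (fun j => v (Sum.inl j)) j) := by
    rw [dotProduct, Da.F4.tr_sum]
  have e4 : ∀ j : S, F4.tr (w (Sum.inl j) * (F4.of (F4.tr (D.a j)) * v (Sum.inr ()))) =
      F4.tr (v (Sum.inr ()) * w (Sum.inl j)) * F4.tr (D.a j) := fun j => by
    rw [hd, mul_comm (w (Sum.inl j))]
  have e5 : F4.tr (w (Sum.inr ()) * (F4.of (1 + F4.tr c) * v (Sum.inr ()))) =
      (1 + F4.tr c) * F4.tr (v (Sum.inr ()) * w (Sum.inr ())) := by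
    rw [hd, mul_comm (w (Sum.inr ())), mul_comm]
  rw [e3, e5]
  simp only [e1, e2, e4, sum_add_distrib]
  ring

/-- The exponent of the local system. -/
theorem exL_ex (D : DatE ι) (c : F4) (S : Finset ι) (w : (Fin k → F4) × (Fin k → F4))
    (f : S → Lab k) : (exL k c).ex D w S f = eS2 D.toDat c 0 S f +
      ∑ j : S, F4.tr (w.2 ⬝ᵥ (f j).2) * F4.tr (D.a j) +
      ∑ j : S, F4.tr (w.1 ⬝ᵥ (f j).1) * F4.tr (D.a j) +
      (∑ j : S, Qf (f j) * D.g j + ∑ j : S, F4.tr (w.1 ⬝ᵥ (f j).1) * D.g j) := by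
  have e1 : ∑ j : S, delE w.1 (f j) * D.g j = ∑ j : S, Qf (f j) * D.g j +
      ∑ j : S, F4.tr (w.1 ⬝ᵥ (f j).1) * D.g j := by
    rw [← sum_add_distrib]
    exact sum_congr rfl fun j _ => by rw [delE, add_mul]
  have e2 : ∑ j : S, F4.tr (gamX c 0 w.2 w.1 (f j) * D.a j) =
      ∑ j : S, F4.tr (gam2 c 0 (f j) * D.a j) +
      ∑ j : S, F4.tr (w.2 ⬝ᵥ (f j).2) * F4.tr (D.a j) +
      ∑ j : S, F4.tr (w.1 ⬝ᵥ (f j).1) * F4.tr (D.a j) := by
    rw [← sum_add_distrib, ← sum_add_distrib]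
    exact sum_congr rfl fun j _ => by rw [tr_gamX, add_assoc]
  have e3 : (exL k c).ex D w S f = (∑ j : S, F4.tr ((gamX c 0 w.2 w.1 (f j) + 0) * D.a j) +
      ∑ i : S, ∑ j : S, Phi (f i) (f j) * D.s i j) + ∑ j : S, delE w.1 (f j) * D.g j := rfl
  simp only [add_zero] at e3
  rw [e3, e1, e2, eS2]
  ring

/-- The exponent of `k` pairs of vectors. -/
theorem exp_eqNX (D : DatE ι) (c : F4) (S : Finset ι)
    (g : Fin k → (S ⊕ Unit → F4) × (S ⊕ Unit → F4)) :
    ∑ i, F4.tr ((g i).2 ⬝ᵥ (NX D c S).mulVec (g i).1) =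
      (exL k c).e0 (fun i => (g i).2 (Sum.inr ()), fun i => (g i).1 (Sum.inr ())) +
      (exL k c).ex D (fun i => (g i).2 (Sum.inr ()), fun i => (g i).1 (Sum.inr ())) S
        fun j => (fun i => (g i).1 (Sum.inl j), fun i => (g i).2 (Sum.inl j)) := by
  set x : Fin k → F4 := fun i => (g i).1 (Sum.inr ()) with hx
  set y : Fin k → F4 := fun i => (g i).2 (Sum.inr ()) with hy
  set f : S → Lab k := fun j => (fun i => (g i).1 (Sum.inl j), fun i => (g i).2 (Sum.inl j)) with hf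
  have h0 : ∑ i, F4.tr ((fun j : S => (g i).2 (Sum.inl j)) ⬝ᵥ
      ((twD c D.toDat).M S).mulVec fun j => (g i).1 (Sum.inl j)) =
      Da.eS (twD c D.toDat) 0 S f :=
    exp_eq (twD c D.toDat) S fun i => (fun j => (g i).1 (Sum.inl j), fun j => (g i).2 (Sum.inl j))
  have h1 : ∑ i, ∑ j : S, F4.tr ((g i).2 (Sum.inl j) * (g i).1 (Sum.inl j)) * D.g j =
      ∑ j : S, Qf (f j) * D.g j := by
    rw [sum_comm]
    refine sum_congr rfl fun j _ => ?_
    rw [← sum_mul, Qf, dotProduct, Da.F4.tr_sum]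
  have h2 : ∑ i, ∑ j : S, F4.tr ((g i).1 (Sum.inr ()) * (g i).2 (Sum.inl j)) * F4.tr (D.a j) =
      ∑ j : S, F4.tr (x ⬝ᵥ (f j).2) * F4.tr (D.a j) := by
    rw [sum_comm]
    refine sum_congr rfl fun j _ => ?_
    rw [← sum_mul, dotProduct, Da.F4.tr_sum]
  have h3 : ∑ i, ∑ j : S, F4.tr ((g i).2 (Sum.inr ()) * (g i).1 (Sum.inl j)) *
      (F4.tr (D.a j) + D.g j) = ∑ j : S, F4.tr (y ⬝ᵥ (f j).1) * (F4.tr (D.a j) + D.g j) := by
    rw [sum_comm]
    refine sum_congr rfl fun j _ => ?_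
    rw [← sum_mul, dotProduct, Da.F4.tr_sum]
  have h4 : ∑ i, (1 + F4.tr c) * F4.tr ((g i).1 (Sum.inr ()) * (g i).2 (Sum.inr ())) =
      (1 + F4.tr c) * F4.tr (x ⬝ᵥ y) := by
    rw [← mul_sum, dotProduct, Da.F4.tr_sum]
  have h5 : ∑ i, F4.tr ((g i).2 ⬝ᵥ (NX D c S).mulVec (g i).1) = Da.eS (twD c D.toDat) 0 S f +
      ∑ j : S, Qf (f j) * D.g j + ∑ j : S, F4.tr (x ⬝ᵥ (f j).2) * F4.tr (D.a j) +
      ∑ j : S, F4.tr (y ⬝ᵥ (f j).1) * (F4.tr (D.a j) + D.g j) +
      (1 + F4.tr c) * F4.tr (x ⬝ᵥ y) := by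
    rw [← h0, ← h1, ← h2, ← h3, ← h4, ← sum_add_distrib, ← sum_add_distrib, ← sum_add_distrib,
      ← sum_add_distrib]
    exact sum_congr rfl fun i _ => dot_NX D c S (g i).1 (g i).2
  have h6 : eS2 D.toDat c 0 S f = Da.eS (twD c D.toDat) 0 S f := by
    rw [eS2_eq, zero_mul, F4.tr_zero, add_zero]
  rw [h5, exL_ex, h6]
  show _ = (1 + F4.tr c) * F4.tr (x ⬝ᵥ y) + _
  simp only [mul_add, sum_add_distrib]
  ring

theorem kcX_mul (D : DatE ι) (c : F4) (S : Finset ι) : (kcX D c S : ℝ) * 4 ^ (S.card + 1) =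
    ∑ p : (S ⊕ Unit → F4) × (S ⊕ Unit → F4), sg (F4.tr (p.2 ⬝ᵥ (NX D c S).mulVec p.1)) := by
  rw [Fintype.sum_prod_type]
  have h1 : ∀ v : S ⊕ Unit → F4, ∑ w : S ⊕ Unit → F4, sg (F4.tr (w ⬝ᵥ (NX D c S).mulVec v)) =
      if (NX D c S).mulVec v = 0 then (4 ^ (S.card + 1) : ℝ) else 0 := by
    intro v
    rw [sum_dotG, Fintype.card_sum, Fintype.card_coe, Fintype.card_unit]
  simp only [h1]
  rw [← sum_filter, sum_const, nsmul_eq_mul, kcX, Fintype.card_subtype]

/-- **The expansion** of the powers of the size of the kernel. -/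
theorem exL_exp (D : DatE ι) (c : F4) (S : Finset ι) (n : ℕ) :
    (kcX D c S : ℝ) ^ n * (4 ^ n * (4 ^ n) ^ S.card) =
      ∑ w, sg ((exL n c).e0 w) * ∑ f : S → Lab n, sg ((exL n c).ex D w S f) := by
  have e : (4 : ℝ) ^ n * (4 ^ n) ^ S.card = (4 ^ (S.card + 1)) ^ n := by
    rw [← pow_mul, ← pow_mul, ← pow_add]
    congr 1
    ring
  have h1 : ((kcX D c S : ℝ) * 4 ^ (S.card + 1)) ^ n =
      ∑ g : Fin n → (S ⊕ Unit → F4) × (S ⊕ Unit → F4),
        sg (∑ i, F4.tr ((g i).2 ⬝ᵥ (NX D c S).mulVec (g i).1)) := by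
    rw [kcX_mul, Fintype.sum_pow]
    exact sum_congr rfl fun g _ => (sg_sum _ _).symm
  rw [e, ← mul_pow, h1]
  have h3 : ∑ w : (Fin n → F4) × (Fin n → F4), sg ((exL n c).e0 w) *
      ∑ f : S → Lab n, sg ((exL n c).ex D w S f) =
      ∑ p : ((Fin n → F4) × (Fin n → F4)) × (S → Lab n),
        sg ((exL n c).e0 p.1 + (exL n c).ex D p.1 S p.2) := by
    conv_rhs => rw [Fintype.sum_prod_type]
    refine sum_congr rfl fun w _ => ?_
    rw [mul_sum]
    exact sum_congr rfl fun f _ => (Da.sg_add _ _).symm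
  rw [h3]
  refine Fintype.sum_equiv (⟨fun g => ((fun i => (g i).2 (Sum.inr ()),
      fun i => (g i).1 (Sum.inr ())),
      fun j => (fun i => (g i).1 (Sum.inl j), fun i => (g i).2 (Sum.inl j))),
    fun p i => (Sum.elim (fun j => (p.2 j).1 i) fun _ => p.1.2 i,
      Sum.elim (fun j => (p.2 j).2 i) fun _ => p.1.1 i), fun g => ?_, fun _ => rfl⟩ :
      (Fin n → (S ⊕ Unit → F4) × (S ⊕ Unit → F4)) ≃
        ((Fin n → F4) × (Fin n → F4)) × (S → Lab n)) _ _ fun g => ?_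
  · funext i
    refine Prod.ext (funext fun j => ?_) (funext fun j => ?_)
    · rcases j with j | j <;> rfl
    · rcases j with j | j <;> rfl
  · show sg (∑ i, F4.tr ((g i).2 ⬝ᵥ (NX D c S).mulVec (g i).1)) = _
    rw [exp_eqNX D c S g]
    rfl

end

end Pool.Agent.Lib.MP_1a91b9_ntP
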