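import Pool.Agent.Lib.MP_1a91b9_ntP.J.Dens

/-!
# MP_1a91b9_nt, several twists over `Q(sqrt -3)`, part D: combinations of the joint densities

If `0 ≤ F a S ≤ 1` is a combination of indicators of base systems with the same characters and
`F a S = 0` unless `P a S`, then the density of `∀ a, P a S` is at least the product of the sums
of the coefficients times the density for the indicators.
-/

set_option autoImplicit false
set_option linter.unusedSectionVars false

namespace Pool.Agent.Lib.MP_1a91b9_ntP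

open Finset Filter Topology Pool.Agent.Lib.MP_1a91b9_ntH Pool.Agent.Lib.MP_1a91b9_ntH.Da
  Pool.Agent.Lib.MP_1a91b9_ntE

noncomputable section

/-! ### Mean values up to a small multiple of the number of the sets -/

/-- The mean value of `f` over the finite sets `B X` is `v`, up to every `δ > 0`. -/
def MD {β : Type} (B : ℕ → Finset β) (f : β → ℝ) (v : ℝ) : Prop :=
  ∀ δ : ℝ, 0 < δ → ∀ ε : ℝ, 0 < ε → ∃ X₀ : ℕ, ∀ X : ℕ, X₀ ≤ X →
    |∑ b ∈ B X, f b - v * (B X).card| ≤ δ * (B X).card + ε * X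

variable {β : Type}

theorem MD.add {B : ℕ → Finset β} {f h : β → ℝ} {v w : ℝ} (hf : MD B f v) (hh : MD B h w) :
    MD B (fun x => f x + h x) (v + w) := by
  intro δ hδ ε hε
  obtain ⟨X1, h1⟩ := hf (δ / 2) (by positivity) (ε / 2) (by positivity)
  obtain ⟨X2, h2⟩ := hh (δ / 2) (by positivity) (ε / 2) (by positivity)
  refine ⟨max X1 X2, fun X hX => ?_⟩
  have h3 := h1 X (le_trans (le_max_left _ _) hX)
  have h4 := h2 X (le_trans (le_max_right _ _) hX)
  rw [sum_add_distrib]
  calc |∑ b ∈ B X, f b + ∑ b ∈ B X, h b - (v + w) * (B X).card|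
      = |(∑ b ∈ B X, f b - v * (B X).card) + (∑ b ∈ B X, h b - w * (B X).card)| := by
        congr 1
        ring
    _ ≤ _ := abs_add_le _ _
    _ ≤ (δ / 2 * (B X).card + ε / 2 * X) + (δ / 2 * (B X).card + ε / 2 * X) :=
      add_le_add h3 h4
    _ = δ * (B X).card + ε * X := by ring

theorem MD.smul {B : ℕ → Finset β} {f : β → ℝ} {v : ℝ} (hf : MD B f v) (a : ℝ) :
    MD B (fun x => a * f x) (a * v) := by
  intro δ hδ ε hε
  obtain ⟨X1, h1⟩ := hf (δ / (|a| + 1)) (by positivity) (ε / (|a| + 1)) (by positivity)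
  refine ⟨X1, fun X hX => ?_⟩
  have h3 := h1 X hX
  rw [← mul_sum, mul_assoc, ← mul_sub, abs_mul]
  calc |a| * |∑ b ∈ B X, f b - v * (B X).card|
      ≤ (|a| + 1) * (δ / (|a| + 1) * (B X).card + ε / (|a| + 1) * X) := by
        refine mul_le_mul (by linarith) h3 (abs_nonneg _) (by positivity)
    _ = δ * (B X).card + ε * X := by field_simp

theorem MD.congr {B : ℕ → Finset β} {f h : β → ℝ} {v w : ℝ} (hf : MD B f v)
    (h1 : ∀ x, h x = f x) (h2 : w = v) : MD B h w := by
  rw [h2, show h = f from funext h1]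
  exact hf

theorem MD.zero (B : ℕ → Finset β) : MD B (fun _ => 0) 0 := by
  intro δ hδ ε hε
  refine ⟨0, fun X _ => ?_⟩
  rw [sum_const_zero, zero_mul, sub_zero, abs_zero]
  positivity

theorem MD.sum {ι : Type} {B : ℕ → Finset β} {f : ι → β → ℝ} {v : ι → ℝ} (s : Finset ι)
    (h : ∀ i ∈ s, MD B (f i) (v i)) : MD B (fun x => ∑ i ∈ s, f i x) (∑ i ∈ s, v i) := by
  classical
  induction s using Finset.induction_on with
  | empty => exact (MD.zero B).congr (fun _ => rfl) rfl
  | insert a s ha ih =>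
    exact ((h a (mem_insert_self _ _)).add (ih fun i hi => h i (mem_insert_of_mem hi))).congr
      (fun x => sum_insert ha) (sum_insert ha)

/-! ### The indicators -/

variable {ι : Type} [DecidableEq ι] [PS ι] {D : DatE ι} {A : Type} [Fintype A] [DecidableEq A]

open Classical in
/-- The sets of primes outside `B` in the class `α`. -/
def BA (D : DatE ι) (B : Finset ι) (α : F4) (X : ℕ) : Finset (Finset ι) :=
  (Sx ι X).filter fun S => Disjoint S B ∧ D.toDat.A S = α

open Classical in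
/-- The indicator of the event that all the kernels are zero. -/
def inJ (Q : A → Bs D) (T : A → Finset ι) (S : Finset ι) : ℝ :=
  ∏ a, if (Q a).kz (S ∪ T a) = 1 then 1 else 0

theorem MD_inJ [Nonempty A] (hD : D.toDat.Rec) (Q : A → Bs D) {B : Finset ι}
    (hB : (offG D B).OK) {T : A → Finset ι} (hT : ∀ a, T a ⊆ B)
    (hi : Function.Injective fun a => ((Q a).ρ, (Q a).τ, T a)) (α : F4) :
    MD (BA D B α) (inJ Q T) (cinf ^ Fintype.card A) := by
  classical
  intro δ hδ ε hε
  obtain ⟨X1, h1⟩ := dens_J hD Q hB hT hi α (κ₀ := cinf ^ Fintype.card A - δ) (by linarith) ε hε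
  obtain ⟨X2, h2⟩ := dens_J_upper hD Q hB hT hi α (κ₀ := cinf ^ Fintype.card A + δ)
    (by linarith) ε hε
  refine ⟨max X1 X2, fun X hX => ?_⟩
  have h3 := h1 X (le_trans (le_max_left _ _) hX)
  have h4 := h2 X (le_trans (le_max_right _ _) hX)
  have e1 : ∑ S ∈ BA D B α X, inJ Q T S =
      (((Sx ι X).filter fun S => Disjoint S B ∧ D.toDat.A S = α ∧
        ∀ a, (Q a).kz (S ∪ T a) = 1).card : ℝ) := by
    have e2 : ∀ S, inJ Q T S = if ∀ a, (Q a).kz (S ∪ T a) = 1 then 1 else 0 := by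
      intro S
      unfold inJ
      split_ifs with h
      · exact prod_eq_one fun a _ => if_pos (h a)
      · push Not at h
        obtain ⟨a, ha⟩ := h
        exact prod_eq_zero (mem_univ a) (if_neg ha)
    rw [sum_congr rfl fun S _ => e2 S, BA, card_eq_sum_ones, sum_filter, sum_filter]
    push_cast
    refine sum_congr rfl fun S _ => ?_
    by_cases h : Disjoint S B ∧ D.toDat.A S = α
    · rw [if_pos h]
      refine if_congr ?_ rfl rfl
      tauto
    · rw [if_neg h, if_neg]
      tauto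
  have e3 : ((BA D B α X).card : ℝ) =
      (((Sx ι X).filter fun S => Disjoint S B ∧ D.toDat.A S = α).card : ℝ) := by
    unfold BA
    exact card_any _ _ _ _
  have e4 := card_any (Sx ι X) (fun S => Disjoint S B ∧ D.toDat.A S = α)
  have e5 := card_any (Sx ι X) (fun S => Disjoint S B ∧ D.toDat.A S = α ∧
        ∀ a, (Q a).kz (S ∪ T a) = 1)
  rw [e4 _ (Classical.decPred _), e5 _ (Classical.decPred _)] at h3 h4
  rw [e4 _ (Classical.decPred _)] at e3
  rw [e5 _ (Classical.decPred _)] at e1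
  rw [e1, e3, abs_le]
  constructor <;> linarith

/-- **Combinations of the joint densities.** -/
theorem dens_comb [Nonempty A] {J : Type} [Fintype J] [DecidableEq J] (hD : D.toDat.Rec)
    (Q : A → J → Bs D) (w : A → J → ℝ) {B : Finset ι} (hB : (offG D B).OK) {T : A → Finset ι}
    (hT : ∀ a, T a ⊆ B) (ρ τ : A → ZMod 2) (hρ : ∀ a j, (Q a j).ρ = ρ a)
    (hτ : ∀ a j, (Q a j).τ = τ a) (hi : Function.Injective fun a => (ρ a, τ a, T a))
    (P : A → Finset ι → Prop) (h0 : ∀ a S, 0 ≤ ∑ j, w a j * (if (Q a j).kz S = 1 then 1 else 0))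
    (h1 : ∀ a S, ∑ j, w a j * (if (Q a j).kz S = 1 then 1 else 0) ≤ 1)
    (hP : ∀ a S, ¬ P a S → ∑ j, w a j * (if (Q a j).kz S = 1 then 1 else 0) = 0) (α : F4)
    {κ₀ : ℝ} (hκ : κ₀ < (∏ a, ∑ j, w a j) * cinf ^ Fintype.card A) (ε : ℝ) (hε : 0 < ε) : by
    classical exact ∃ X₀ : ℕ, ∀ X : ℕ, X₀ ≤ X →
      κ₀ * (((Sx ι X).filter fun S => Disjoint S B ∧ D.toDat.A S = α).card : ℝ) - ε * X ≤
      (((Sx ι X).filter fun S => Disjoint S B ∧ D.toDat.A S = α ∧
        ∀ a, P a (S ∪ T a)).card : ℝ) := by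
  classical
  have hm : MD (BA D B α) (fun S => ∑ g : A → J, (∏ a, w a (g a)) *
      inJ (fun a => Q a (g a)) T S) (∑ g : A → J, (∏ a, w a (g a)) * cinf ^ Fintype.card A) := by
    refine MD.sum univ fun g _ => MD.smul ?_ _
    refine MD_inJ hD (fun a => Q a (g a)) hB hT ?_ α
    have e : (fun a => ((Q a (g a)).ρ, (Q a (g a)).τ, T a)) = fun a => (ρ a, τ a, T a) :=
      funext fun a => by rw [hρ, hτ]
    rw [e]
    exact hi
  have e1 : ∑ g : A → J, (∏ a, w a (g a)) * cinf ^ Fintype.card A =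
      (∏ a, ∑ j, w a j) * cinf ^ Fintype.card A := by
    rw [prod_univ_sum, Fintype.piFinset_univ, sum_mul]
  have e2 : ∀ S, ∑ g : A → J, (∏ a, w a (g a)) * inJ (fun a => Q a (g a)) T S =
      ∏ a, ∑ j, w a j * (if (Q a j).kz (S ∪ T a) = 1 then 1 else 0) := by
    intro S
    rw [prod_univ_sum, Fintype.piFinset_univ]
    refine sum_congr rfl fun g _ => ?_
    unfold inJ
    rw [← prod_mul_distrib]
  rw [e1] at hm
  set v : ℝ := (∏ a, ∑ j, w a j) * cinf ^ Fintype.card A with hv
  obtain ⟨X0, hX0⟩ := hm (v - κ₀) (by linarith) ε hε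
  refine ⟨X0, fun X hX => ?_⟩
  have h3 := (abs_le.1 (hX0 X hX)).1
  have h4 : ∑ S ∈ BA D B α X, ∑ g : A → J, (∏ a, w a (g a)) * inJ (fun a => Q a (g a)) T S ≤
      (((Sx ι X).filter fun S => Disjoint S B ∧ D.toDat.A S = α ∧
        ∀ a, P a (S ∪ T a)).card : ℝ) := by
    rw [BA, card_eq_sum_ones, sum_filter, sum_filter]
    push_cast
    refine sum_le_sum fun S _ => ?_
    by_cases h : Disjoint S B ∧ D.toDat.A S = α
    · rw [if_pos h, e2]
      by_cases hPS : ∀ a, P a (S ∪ T a)
      · rw [if_pos ⟨h.1, h.2, hPS⟩]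
        exact prod_le_one (fun a _ => h0 a _) fun a _ => h1 a _
      · rw [if_neg fun h' => hPS h'.2.2]
        push Not at hPS
        obtain ⟨a, ha⟩ := hPS
        exact (prod_eq_zero (mem_univ a) (hP a _ ha)).le
    · rw [if_neg h, if_neg]
      tauto
  have e3 : ((BA D B α X).card : ℝ) =
      (((Sx ι X).filter fun S => Disjoint S B ∧ D.toDat.A S = α).card : ℝ) := by
    unfold BA
    exact card_any _ _ _ _
  rw [← e3]
  linarith

end

end Pool.Agent.Lib.MP_1a91b9_ntP
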