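import Pool.Agent.Lib.MP_1a91b9_ntN.G.RDefs
import Pool.Agent.Lib.MP_1a91b9_ntP.J.Dsj
import Pool.Agent.Lib.MP_1a91b9_ntP.J.ExX
import Pool.Agent.Lib.MP_1a91b9_ntP.J.Pair

/-!
# MP_1a91b9_nt, several twists over `Q(sqrt -3)`, part D: the joint density for pairs of opposite
labels

For an even class `c` let `E0`, `E1`, `E2` be the indicators of the three determinants of `NE c`,
`NE (c + 1)`, `NX c`. Then `0 ≤ (E0 + E1 - E2) / 2 ≤ E0 * E1`.
-/

set_option autoImplicit false

namespace Pool.Agent.Lib.MP_1a91b9_ntP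

open NumberField Finset Pool.Agent.Lib.MP_1a91b9_ntT Pool.Agent.Lib.MP_1a91b9_ntH
  Pool.Agent.Lib.MP_1a91b9_ntH2 Pool.Agent.Lib.MP_1a91b9_ntH2.Db Pool.Agent.Lib.MP_1a91b9_ntE
  Pool.Agent.Lib.MP_1a91b9_ntS

noncomputable section

/-- The base system of a pair. -/
def exB {ι : Type} [DecidableEq ι] (D : DatE ι) (c : F4) : Bs D where
  W n := (Fin n → F4) × (Fin n → F4)
  fin _ := inferInstance
  L n := exL n c
  b n := 4 ^ n
  kz S := kcX D c S
  ρ := 1 + F4.tr c
  τ := 1
  pos _ := by positivity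
  ok n := exL_Ok n c
  G n y := exL_G n c y
  exp n S := exL_exp D c S n
  pow S := kcX_pow D c S

/-- The three base systems of a pair of labels. -/
def trQ : Bool → F4 → Fin 3 → Bs qE
  | true, c => ![evB qE c, evB qE (c + 1), exB qE c]
  | false, c => ![odB qE c, odB qE c, odB qE c]

/-- The weights. -/
def trW : Bool → Fin 3 → ℝ
  | true => ![1 / 2, 1 / 2, -(1 / 2)]
  | false => ![1, 0, 0]

theorem trQ_rho : ∀ (f : Bool) (c : F4) (j : Fin 3), (trQ f c j).ρ = 1 + F4.tr c
  | true, c, j => by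
    have h : ∀ c : F4, 1 + F4.tr (c + 1) = 1 + F4.tr c := by decide
    fin_cases j
    · rfl
    · exact h c
    · rfl
  | false, c, j => by
    fin_cases j <;> rfl

theorem trQ_tau : ∀ (f : Bool) (c : F4) (j : Fin 3),
    (trQ f c j).τ = if f = true then 1 else 0
  | true, c, j => by
    fin_cases j <;> rfl
  | false, c, j => by
    fin_cases j <;> rfl

theorem trW_sum (f : Bool) : ∑ j, trW f j = if f = true then 1 / 2 else 1 := by
  rw [Fin.sum_univ_three]
  cases f
  · show (1 : ℝ) + 0 + 0 = if false = true then 1 / 2 else 1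
    rw [if_neg Bool.false_ne_true]
    norm_num
  · show (1 / 2 : ℝ) + 1 / 2 + -(1 / 2) = if true = true then 1 / 2 else 1
    rw [if_pos rfl]
    norm_num

/-- The matrices of the odd classes `c` and `c + 1` are conjugate. -/
theorem tw_one (c : F4) (S : Finset Pq) :
    ((tw (c + 1) qd).M S) = cjH.mapMatrix ((tw c qd).M S) := by
  refine Matrix.ext fun i j => ?_
  have hc : ∀ t : ZMod 2, F4.of t = F4.cj (F4.of t) := by decide
  show (if i = j then F4.cj (qd.a i + F4.of (F4.tr ((c + 1) * qd.a i))) +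
    ∑ k ∈ S.erase (i : Pq), F4.of (qd.s i k) else F4.of (qd.s i j)) =
    F4.cj (if i = j then F4.cj (qd.a i + F4.of (F4.tr (c * qd.a i))) +
    ∑ k ∈ S.erase (i : Pq), F4.of (qd.s i k) else F4.of (qd.s i j))
  by_cases h : i = j
  · rw [if_pos h, if_pos h]
    have e : F4.cj (∑ k ∈ S.erase (i : Pq), F4.of (qd.s i k)) =
        ∑ k ∈ S.erase (i : Pq), F4.of (qd.s i k) := by
      rw [F4.cj_sum]
      exact sum_congr rfl fun k _ => (hc _).symm
    generalize (∑ k ∈ S.erase (i : Pq), F4.of (qd.s i k)) = z at e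
    have hd : ∀ c a : F4, F4.cj (a + F4.of (F4.tr ((c + 1) * a))) =
        F4.cj (F4.cj (a + F4.of (F4.tr (c * a)))) := by decide
    rw [F4.cj_add (F4.cj (qd.a i + F4.of (F4.tr (c * qd.a i)))) z, e, hd]
  · rw [if_neg h, if_neg h, ← hc]

theorem GdE_false_add (c : F4) (S : Finset Pq) : GdE false (c + 1) S ↔ GdE false c S := by
  have h1 : ((tw (c + 1) qd).M S).det = F4.cj ((tw c qd).M S).det := by
    rw [tw_one]
    exact (RingHom.map_det cjH _).symm
  have h2 : ∀ x : F4, F4.cj x ≠ 0 ↔ x ≠ 0 := by decide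
  unfold GdE
  rw [if_neg Bool.false_ne_true, if_neg Bool.false_ne_true, h1]
  exact h2 _

theorem exB_one (c : F4) (S : Finset Pq) : (exB qE c).kz S = 1 ↔ (NX qE c S).det ≠ 0 :=
  kcX_eq_one qE c S

open Classical in
/-- The combination of the three indicators. -/
theorem tr_val (f : Bool) (c : F4) (S : Finset Pq) :
    (0 ≤ ∑ j, trW f j * (if (trQ f c j).kz S = 1 then 1 else 0)) ∧
    (∑ j, trW f j * (if (trQ f c j).kz S = 1 then 1 else 0) ≤ 1) ∧
    (¬ (GdE f c S ∧ GdE f (c + 1) S) →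
      ∑ j, trW f j * (if (trQ f c j).kz S = 1 then 1 else 0) = 0) := by
  rw [Fin.sum_univ_three]
  cases f
  · have h1 : (odB qE c).kz S = 1 ↔ GdE false c S := bsQ_one false c S
    show (0 ≤ (1 : ℝ) * (if (odB qE c).kz S = 1 then 1 else 0) +
        0 * (if (odB qE c).kz S = 1 then 1 else 0) + 0 * (if (odB qE c).kz S = 1 then 1 else 0)) ∧
      ((1 : ℝ) * (if (odB qE c).kz S = 1 then 1 else 0) +
        0 * (if (odB qE c).kz S = 1 then 1 else 0) + 0 * (if (odB qE c).kz S = 1 then 1 else 0)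
          ≤ 1) ∧ (_ → (1 : ℝ) * (if (odB qE c).kz S = 1 then 1 else 0) +
        0 * (if (odB qE c).kz S = 1 then 1 else 0) + 0 * (if (odB qE c).kz S = 1 then 1 else 0)
          = 0)
    rw [GdE_false_add, ← h1, and_self_iff]
    by_cases h : (odB qE c).kz S = 1
    · rw [if_pos h]
      refine ⟨by norm_num, by norm_num, fun h' => absurd h h'⟩
    · rw [if_neg h]
      refine ⟨by norm_num, by norm_num, fun _ => by norm_num⟩
  · have h1 : (evB qE c).kz S = 1 ↔ GdE true c S := bsQ_one true c S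
    have h2 : (evB qE (c + 1)).kz S = 1 ↔ GdE true (c + 1) S := bsQ_one true (c + 1) S
    have e1 := evB_one qE c S
    have e2 := evB_one qE (c + 1) S
    have e3 := exB_one c S
    obtain ⟨t1, t2, t3⟩ := NX_three qE c S
    rw [← not_iff_not, not_not] at e1 e2 e3
    rw [← e1, ← e2, ← e3] at t1 t2 t3
    show (0 ≤ (1 / 2 : ℝ) * (if (evB qE c).kz S = 1 then 1 else 0) +
        1 / 2 * (if (evB qE (c + 1)).kz S = 1 then 1 else 0) +
        -(1 / 2) * (if (exB qE c).kz S = 1 then 1 else 0)) ∧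
      ((1 / 2 : ℝ) * (if (evB qE c).kz S = 1 then 1 else 0) +
        1 / 2 * (if (evB qE (c + 1)).kz S = 1 then 1 else 0) +
        -(1 / 2) * (if (exB qE c).kz S = 1 then 1 else 0) ≤ 1) ∧
      (_ → (1 / 2 : ℝ) * (if (evB qE c).kz S = 1 then 1 else 0) +
        1 / 2 * (if (evB qE (c + 1)).kz S = 1 then 1 else 0) +
        -(1 / 2) * (if (exB qE c).kz S = 1 then 1 else 0) = 0)
    rw [← h1, ← h2]
    by_cases ha : (evB qE c).kz S = 1 <;> by_cases hb : (evB qE (c + 1)).kz S = 1 <;>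
      by_cases hc : (exB qE c).kz S = 1
    · rw [if_pos ha, if_pos hb, if_pos hc]
      exact ⟨by norm_num, by norm_num, fun h' => absurd ⟨ha, hb⟩ h'⟩
    · rw [if_pos ha, if_pos hb, if_neg hc]
      exact ⟨by norm_num, by norm_num, fun h' => absurd ⟨ha, hb⟩ h'⟩
    · rw [if_pos ha, if_neg hb, if_pos hc]
      exact ⟨by norm_num, by norm_num, fun _ => by norm_num⟩
    · exact absurd ha ((t2 hb).2 hc)
    · rw [if_neg ha, if_pos hb, if_pos hc]
      exact ⟨by norm_num, by norm_num, fun _ => by norm_num⟩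
    · exact absurd hb ((t1 ha).2 hc)
    · exact absurd hc ((t1 ha).1 hb)
    · rw [if_neg ha, if_neg hb, if_neg hc]
      exact ⟨by norm_num, by norm_num, fun _ => by norm_num⟩

/-- **The joint density for pairs of opposite labels.** -/
theorem dsp2 : Pool.Agent.Lib.MP_1a91b9_ntN.G.DSP2 := by
  classical
  intro N hN f c T B hT hi α κ₀ hκ ε hε
  have : Nonempty (Fin N) := ⟨⟨0, hN⟩⟩
  have hκ' : κ₀ < (∏ i, ∑ j, trW (f i) j) * Da.cinf ^ Fintype.card (Fin N) := by
    have h1 : (∏ i, ∑ j, trW (f i) j) * Da.cinf ^ Fintype.card (Fin N) =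
        ∏ i, (if f i = true then Da.cinf / 2 else Da.cinf) := by
      rw [← card_univ, ← prod_const, ← prod_mul_distrib]
      refine prod_congr rfl fun i _ => ?_
      rw [trW_sum]
      split_ifs
      · ring
      · ring
    rw [h1]
    exact hκ
  have hinj : Function.Injective fun i => (1 + F4.tr (c i), (if f i = true then (1 : ZMod 2) else 0),
      T i) := by
    intro a a' h
    have h1 : 1 + F4.tr (c a) = 1 + F4.tr (c a') := congrArg Prod.fst h
    have h2 : (if f a = true then (1 : ZMod 2) else 0) = if f a' = true then 1 else 0 :=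
      congrArg (fun x => x.2.1) h
    have h3 : T a = T a' := congrArg (fun x => x.2.2) h
    have h4 : ∀ x y : Bool, (if x = true then (1 : ZMod 2) else 0) =
        (if y = true then 1 else 0) → x = y := by decide
    exact hi (Prod.ext (h4 _ _ h2) (Prod.ext (add_left_cancel h1) h3))
  obtain ⟨X0, h0⟩ := dens_comb qE_OK.rec_ (fun i j => trQ (f i) (c i) j) (fun i j => trW (f i) j)
    (qG_OK B) hT (fun i => 1 + F4.tr (c i)) (fun i => if f i = true then 1 else 0)
    (fun i j => trQ_rho (f i) (c i) j) (fun i j => trQ_tau (f i) (c i) j) hinj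
    (fun i S => GdE (f i) (c i) S ∧ GdE (f i) (c i + 1) S)
    (fun i S => (tr_val (f i) (c i) S).1) (fun i S => (tr_val (f i) (c i) S).2.1)
    (fun i S h => (tr_val (f i) (c i) S).2.2 h) α hκ' ε hε
  refine ⟨X0, fun X hX => ?_⟩
  have h1 := h0 X hX
  refine le_trans (le_of_eq ?_) (h1.trans (le_of_eq ?_))
  · exact congrArg (fun x : ℝ => κ₀ * x - ε * X)
      (card_any (Sx Pq X) (fun S => Disjoint S B ∧ qd.A S = α) _ _)
  · exact card_any (Sx Pq X) (fun S => Disjoint S B ∧ qd.A S = α ∧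
      ∀ i, GdE (f i) (c i) (S ∪ T i) ∧ GdE (f i) (c i + 1) (S ∪ T i)) _ _

end

end Pool.Agent.Lib.MP_1a91b9_ntP
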