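import Pool.Agent.Lib.MP_1a91b9_ntH.D.K1

/-!
# MP_1a91b9_nt, several twists over `Q(sqrt -3)`, part D: products of label systems

`LabJ k` is the product of the labels `Lab (k a)`, `a : A`, with the sum of the quadratic forms.
-/

set_option autoImplicit false
set_option linter.unusedSectionVars false

namespace Pool.Agent.Lib.MP_1a91b9_ntP

open Finset Pool.Agent.Lib.MP_1a91b9_ntH Pool.Agent.Lib.MP_1a91b9_ntH.Da

noncomputable section

variable {A : Type} [Fintype A] [DecidableEq A]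

/-- The labels. -/
abbrev LabJ (k : A → ℕ) : Type := ∀ a, Lab (k a)

variable {k : A → ℕ}

/-- The quadratic form. -/
def QJ (l : LabJ k) : ZMod 2 := ∑ a, Qf (l a)

/-- Its polar form. -/
def BJ (l m : LabJ k) : ZMod 2 := ∑ a, Bf (l a) (m a)

theorem QJ_add (l m : LabJ k) : QJ (l + m) = QJ l + QJ m + BJ l m := by
  simp only [QJ, BJ, Pi.add_apply, Qf_add, sum_add_distrib]

theorem lj_add_self (l : LabJ k) : l + l = 0 := funext fun a => ladd_self (l a)

theorem lj_add_add (l m : LabJ k) : l + m + m = l := by rw [add_assoc, lj_add_self, add_zero]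

theorem BJ_add' (l m n : LabJ k) : BJ (l + m) n = BJ l n + BJ m n := by
  simp only [BJ, Pi.add_apply, Bf_add', sum_add_distrib]

/-- Unlinked sets. -/
def UnlJ (U : Finset (LabJ k)) : Prop := ∀ l ∈ U, ∀ m ∈ U, QJ (l + m) = 0

/-- The numbering of the coordinates. -/
def sgJ (k : A → ℕ) : (Σ a, Fin (k a)) ≃ Fin (∑ a, k a) :=
  Fintype.equivFinOfCardEq (by rw [Fintype.card_sigma]; simp)

/-- The first coordinates. -/
def cj1 (l : LabJ k) (s : Σ a, Fin (k a)) : F4 := (l s.1).1 s.2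

/-- The second coordinates. -/
def cj2 (l : LabJ k) (s : Σ a, Fin (k a)) : F4 := (l s.1).2 s.2

/-- The labels as one label. -/
def toJ (k : A → ℕ) (l : LabJ k) : Lab (∑ a, k a) :=
  (fun i => cj1 l ((sgJ k).symm i), fun i => cj2 l ((sgJ k).symm i))

theorem toJ_fst (l : LabJ k) (a : A) (j : Fin (k a)) : (toJ k l).1 (sgJ k ⟨a, j⟩) = (l a).1 j :=
  congrArg (cj1 l) ((sgJ k).symm_apply_apply ⟨a, j⟩)

theorem toJ_snd (l : LabJ k) (a : A) (j : Fin (k a)) : (toJ k l).2 (sgJ k ⟨a, j⟩) = (l a).2 j :=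
  congrArg (cj2 l) ((sgJ k).symm_apply_apply ⟨a, j⟩)

theorem toJ_inj (k : A → ℕ) : Function.Injective (toJ k) := by
  intro l m h
  funext a
  refine Prod.ext (funext fun j => ?_) (funext fun j => ?_)
  · rw [← toJ_fst l a j, ← toJ_fst m a j, h]
  · rw [← toJ_snd l a j, ← toJ_snd m a j, h]

theorem toJ_add (l m : LabJ k) : toJ k (l + m) = toJ k l + toJ k m := rfl

theorem toJ_zero : toJ k 0 = 0 := rfl

theorem sum_sgJ (f : Fin (∑ a, k a) → F4) :
    ∑ i, f i = ∑ a, ∑ j : Fin (k a), f (sgJ k ⟨a, j⟩) := by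
  rw [← Equiv.sum_comp (sgJ k), Fintype.sum_sigma]

theorem Qf_toJ (l : LabJ k) : Qf (toJ k l) = QJ l := by
  rw [Qf, dotProduct, sum_sgJ, QJ, F4.tr_sum]
  refine sum_congr rfl fun a _ => ?_
  rw [Qf, dotProduct]
  congr 1
  refine sum_congr rfl fun j _ => ?_
  rw [toJ_fst, toJ_snd]

theorem Bf_toJ (l m : LabJ k) : Bf (toJ k l) (toJ k m) = BJ l m := by
  have h1 := Qf_add (toJ k l) (toJ k m)
  rw [← toJ_add, Qf_toJ, Qf_toJ, Qf_toJ, QJ_add] at h1
  have h2 : ∀ a b c d : ZMod 2, a + b + c = a + b + d → d = c := by decide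
  exact h2 _ _ _ _ h1

/-- The set of labels as a set of labels of the sum. -/
def imJ (U : Finset (LabJ k)) : Finset (Lab (∑ a, k a)) := U.image (toJ k)

theorem card_imJ (U : Finset (LabJ k)) : (imJ U).card = U.card :=
  card_image_of_injective _ (toJ_inj k)

theorem mem_imJ {U : Finset (LabJ k)} {l : LabJ k} : toJ k l ∈ imJ U ↔ l ∈ U := by
  rw [imJ, mem_image]
  exact ⟨fun ⟨m, hm, h⟩ => toJ_inj k h ▸ hm, fun h => ⟨l, h, rfl⟩⟩

theorem Unl_imJ {U : Finset (LabJ k)} (h : UnlJ U) : Unl (imJ U) := by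
  intro x hx y hy
  rw [imJ, mem_image] at hx hy
  obtain ⟨l, hl, rfl⟩ := hx
  obtain ⟨m, hm, rfl⟩ := hy
  rw [Lk_eq, ← toJ_add, Qf_toJ]
  exact h l hl m hm

theorem prod_four_pow (k : A → ℕ) : ∏ a, 4 ^ k a = 4 ^ ∑ a, k a := prod_pow_eq_pow_sum _ _ _

/-- (K1) -/
theorem K1J {U : Finset (LabJ k)} (h : UnlJ U) : U.card ≤ ∏ a, 4 ^ k a := by
  have h1 := K1 (Unl_imJ h)
  rwa [card_imJ, ← prod_four_pow] at h1

/-- (K2) -/
theorem K2J {U : Finset (LabJ k)} (h : UnlJ U) (hc : U.card = ∏ a, 4 ^ k a) {x : LabJ k}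
    (hx : x ∉ U) : ∃ l ∈ U, ∃ l' ∈ U, QJ (l + x) = 1 ∧ QJ (l' + x) = 0 := by
  have hx' : toJ k x ∉ imJ U := fun h' => hx (mem_imJ.1 h')
  obtain ⟨y, hy, y', hy', h1, h2⟩ := K2 (Unl_imJ h) (by rw [card_imJ, hc, prod_four_pow]) hx'
  rw [imJ, mem_image] at hy hy'
  obtain ⟨l, hl, rfl⟩ := hy
  obtain ⟨l', hl', rfl⟩ := hy'
  rw [Lk_eq, ← toJ_add, Qf_toJ] at h1 h2
  exact ⟨l, hl, l', hl', h1, h2⟩

/-- A maximal unlinked set which contains `0`. -/
structure MxJ (W : Finset (LabJ k)) : Prop where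
  unl : UnlJ W
  card : W.card = ∏ a, 4 ^ k a
  zero : 0 ∈ W

theorem MxJ.im {W : Finset (LabJ k)} (h : MxJ W) : Mx (imJ W) where
  unl := Unl_imJ h.unl
  card := by rw [card_imJ, h.card, prod_four_pow]
  zero := by rw [← toJ_zero, mem_imJ]; exact h.zero

theorem MxJ.mem_iff {W : Finset (LabJ k)} (h : MxJ W) {l : LabJ k} :
    l ∈ W ↔ ∀ w ∈ W, BJ l w = 0 := by
  rw [← mem_imJ, h.im.mem_iff]
  constructor
  · intro h1 w hw
    rw [← Bf_toJ]
    exact h1 _ (mem_imJ.2 hw)
  · intro h1 y hy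
    rw [imJ, mem_image] at hy
    obtain ⟨w, hw, rfl⟩ := hy
    rw [Bf_toJ]
    exact h1 w hw

theorem MxJ.add_mem {W : Finset (LabJ k)} (h : MxJ W) {l m : LabJ k} (hl : l ∈ W) (hm : m ∈ W) :
    l + m ∈ W := by
  rw [h.mem_iff] at hl hm ⊢
  intro w hw
  rw [BJ_add', hl w hw, hm w hw, add_zero]

theorem MxJ.Q {W : Finset (LabJ k)} (h : MxJ W) {l : LabJ k} (hl : l ∈ W) : QJ l = 0 := by
  have h1 := h.unl l hl 0 h.zero
  rwa [add_zero] at h1

/-- The product of a label with a function. -/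
def fmJ (f : A → ZMod 2) (l : LabJ k) : LabJ k := fun a => F4.of (f a) • l a

theorem Bf_of (z : ZMod 2) {n : ℕ} (l m : Lab n) : Bf (F4.of z • l) m = z * Bf l m := by
  have h : z = 0 ∨ z = 1 := zmod_two z
  rcases h with rfl | rfl
  · have h1 : F4.of 0 = 0 := rfl
    have h2 : Bf (0 : Lab n) m = 0 := by simp [Bf, F4.tr_zero]
    rw [h1, zero_smul, zero_mul, h2]
  · have h1 : F4.of 1 = 1 := rfl
    rw [h1, one_smul, one_mul]

theorem BJ_fmJ (f : A → ZMod 2) (l m : LabJ k) : BJ (fmJ f l) m = ∑ a, f a * Bf (l a) (m a) := by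
  rw [BJ]
  exact sum_congr rfl fun a _ => Bf_of (f a) (l a) (m a)

theorem F4of_mul (x y : ZMod 2) : F4.of (x * y) = F4.of x * F4.of y := by
  revert x y
  decide

theorem F4of_add (x y : ZMod 2) : F4.of (x + y) = F4.of x + F4.of y := by
  revert x y
  decide

theorem F4of_one : F4.of 1 = 1 := rfl

theorem F4of_zero : F4.of 0 = 0 := rfl

theorem fmJ_mul (f g : A → ZMod 2) (l : LabJ k) : fmJ (f * g) l = fmJ f (fmJ g l) :=
  funext fun a => by
    show F4.of (f a * g a) • l a = F4.of (f a) • F4.of (g a) • l a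
    rw [F4of_mul, mul_smul]

theorem fmJ_add (f g : A → ZMod 2) (l : LabJ k) : fmJ (f + g) l = fmJ f l + fmJ g l :=
  funext fun a => by
    show F4.of (f a + g a) • l a = F4.of (f a) • l a + F4.of (g a) • l a
    rw [F4of_add, add_smul]

theorem fmJ_one (l : LabJ k) : fmJ 1 l = l := funext fun a => by
  show F4.of 1 • l a = l a
  rw [F4of_one, one_smul]

theorem fmJ_zero (l : LabJ k) : fmJ 0 l = 0 := funext fun a => by
  show F4.of 0 • l a = 0
  rw [F4of_zero, zero_smul]

/-- The indicator function. -/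
def iaJ (a : A) : A → ZMod 2 := Pi.single a 1

/-- The functions which preserve `W` separate the points: `W` is a product. -/
theorem MxJ.fm_mem {κ : Type} {W : Finset (LabJ k)} (h : MxJ W) {c : A → κ → ZMod 2}
    (hc : Function.Injective c)
    (hst : ∀ j, ∀ x ∈ W, ∀ y ∈ W, ∑ a, c a j * Bf (x a) (y a) = 0) (a : A) {x : LabJ k}
    (hx : x ∈ W) : fmJ (iaJ a) x ∈ W := by
  have h1 : ∀ j, ∀ x ∈ W, fmJ (fun a => c a j) x ∈ W := by
    intro j x hx
    rw [h.mem_iff]
    intro y hy
    rw [BJ_fmJ]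
    exact hst j x hx y hy
  have h0 : ∀ z : ZMod 2, ∀ x ∈ W, fmJ (fun _ => z) x ∈ W := by
    intro z x hx
    have h2 : z = 0 ∨ z = 1 := zmod_two z
    rcases h2 with rfl | rfl
    · have : fmJ (fun _ : A => (0 : ZMod 2)) x = 0 := fmJ_zero x
      rw [this]
      exact h.zero
    · have : fmJ (fun _ : A => (1 : ZMod 2)) x = x := fmJ_one x
      rw [this]
      exact hx
  have h2 : ∀ b, b ≠ a → ∃ j, c a j ≠ c b j := by
    intro b hb
    by_contra hcon
    push Not at hcon
    exact hb (hc (funext hcon)).symm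
  choose j hj using h2
  set g : A → A → ZMod 2 := fun b =>
    if hb : b ≠ a then (fun a' => c a' (j b hb)) + fun _ => c b (j b hb) else 1 with hg
  have h3 : iaJ a = ∏ b, g b := by
    funext a'
    rw [Finset.prod_apply]
    by_cases ha : a' = a
    · subst ha
      rw [iaJ, Pi.single_eq_same, prod_eq_one]
      intro b _
      by_cases hb : b ≠ a'
      · have h4 := hj b hb
        have h5 : ∀ u v : ZMod 2, u ≠ v → u + v = 1 := by decide
        simp only [hg, dif_pos hb]
        exact h5 _ _ h4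
      · simp only [hg, dif_neg hb]
        rfl
    · rw [iaJ, Pi.single_eq_of_ne ha]
      refine (prod_eq_zero (mem_univ a') ?_).symm
      simp only [hg, dif_pos (show a' ≠ a from ha)]
      exact zadd_self _
  have h4 : ∀ s : Finset A, ∀ x ∈ W, fmJ (∏ b ∈ s, g b) x ∈ W := by
    intro s
    induction s using Finset.induction_on with
    | empty =>
      intro x hx
      rw [prod_empty, fmJ_one]
      exact hx
    | insert b s hb ih =>
      intro x hx
      rw [prod_insert hb, fmJ_mul]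
      by_cases hb' : b ≠ a
      · simp only [hg, dif_pos hb', fmJ_add]
        exact h.add_mem (h1 _ _ (ih x hx)) (h0 _ _ (ih x hx))
      · simp only [hg, dif_neg hb', fmJ_one]
        exact ih x hx
  rw [h3]
  exact h4 _ x hx

/-- The projection of a set of labels. -/
def pjJ (U : Finset (LabJ k)) (a : A) : Finset (Lab (k a)) := by
  classical exact U.image fun l => l a

theorem mem_pjJ {U : Finset (LabJ k)} {a : A} {x : Lab (k a)} :
    x ∈ pjJ U a ↔ ∃ l ∈ U, l a = x := by
  classical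
  rw [pjJ, mem_image]

/-- **A maximal unlinked set whose directions are preserved by functions which separate the points
is a product.** -/
theorem decJ {κ : Type} {c : A → κ → ZMod 2} (hc : Function.Injective c)
    {U : Finset (LabJ k)} (hU : UnlJ U) (hcd : U.card = ∏ a, 4 ^ k a)
    (hst : ∀ u ∈ U, ∀ x y : LabJ k, u + x ∈ U → u + y ∈ U → u + x + y ∈ U → ∀ j,
      ∑ a, c a j * Bf (x a) (y a) = 0) :
    U = Fintype.piFinset (pjJ U) ∧ ∀ a, pjJ U a ∈ Us (k a) := by
  classical
  have hne : U.Nonempty := by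
    rw [← card_pos, hcd]
    exact prod_pos fun a _ => by positivity
  obtain ⟨u, hu⟩ := hne
  set W : Finset (LabJ k) := U.image fun l => l + u with hW
  have hmW : ∀ x, x ∈ W ↔ x + u ∈ U := by
    intro x
    rw [hW, mem_image]
    constructor
    · rintro ⟨l, hl, rfl⟩
      rw [lj_add_add]
      exact hl
    · intro h
      exact ⟨x + u, h, lj_add_add x u⟩
  have hM : MxJ W := by
    refine ⟨?_, ?_, ?_⟩
    · intro x hx y hy
      rw [hmW] at hx hy
      have h1 := hU _ hx _ hy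
      have e : x + u + (y + u) = x + y := by
        have : x + u + (y + u) = x + y + (u + u) := by abel
        rw [this, lj_add_self, add_zero]
      rwa [e] at h1
    · rw [hW, card_image_of_injective _ (add_left_injective u), hcd]
    · rw [hmW, zero_add]
      exact hu
  have hst' : ∀ j, ∀ x ∈ W, ∀ y ∈ W, ∑ a, c a j * Bf (x a) (y a) = 0 := by
    intro j x hx y hy
    have hxy := hM.add_mem hx hy
    rw [hmW] at hx hy hxy
    have e1 : x + y + u = u + x + y := by abel
    rw [add_comm x u] at hx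
    rw [add_comm y u] at hy
    rw [e1] at hxy
    exact hst u hu x y hx hy hxy j
  have hfm : ∀ a, ∀ x ∈ W, fmJ (iaJ a) x ∈ W := fun a x hx => hM.fm_mem hc hst' a hx
  have hsum : ∀ (s : Finset A) (x : A → LabJ k), (∀ a ∈ s, x a ∈ W) → ∑ a ∈ s, x a ∈ W := by
    intro s x
    induction s using Finset.induction_on with
    | empty =>
      intro _
      rw [sum_empty]
      exact hM.zero
    | insert b s hb ih =>
      intro h
      rw [sum_insert hb]
      exact hM.add_mem (h b (mem_insert_self _ _)) (ih fun a ha => h a (mem_insert_of_mem ha))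
  have hprod : U = Fintype.piFinset (pjJ U) := by
    ext l
    rw [Fintype.mem_piFinset]
    constructor
    · exact fun hl a => mem_pjJ.2 ⟨l, hl, rfl⟩
    · intro hl
      have h1 : ∀ a, ∃ v ∈ U, v a = l a := fun a => mem_pjJ.1 (hl a)
      choose v hv hv2 using h1
      have h2 : ∀ a, fmJ (iaJ a) (v a + u) ∈ W := by
        intro a
        refine hfm a _ ((hmW _).2 ?_)
        rw [lj_add_add]
        exact hv a
      have h3 : ∑ a, fmJ (iaJ a) (v a + u) = l + u := by
        funext b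
        rw [Finset.sum_apply, sum_eq_single b]
        · show F4.of (iaJ b b) • (v b b + u b) = l b + u b
          rw [iaJ, Pi.single_eq_same, F4of_one, one_smul, hv2]
        · intro a _ hab
          show F4.of (iaJ a b) • _ = (0 : Lab (k b))
          rw [iaJ, Pi.single_eq_of_ne hab.symm, F4of_zero, zero_smul]
        · exact fun h => absurd (mem_univ _) h
      have h4 := hsum univ (fun a => fmJ (iaJ a) (v a + u)) fun a _ => h2 a
      rw [h3, hmW, lj_add_add] at h4
      exact h4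
  have hunl : ∀ a, Unl (pjJ U a) := by
    intro a x hx y hy
    obtain ⟨l, hl, rfl⟩ := mem_pjJ.1 hx
    obtain ⟨l', hl', rfl⟩ := mem_pjJ.1 hy
    have h1 : l + l' ∈ W := by
      have h2 : l + u ∈ W := (hmW _).2 (by rw [lj_add_add]; exact hl)
      have h3 : l' + u ∈ W := (hmW _).2 (by rw [lj_add_add]; exact hl')
      have h4 := hM.add_mem h2 h3
      have e : l + u + (l' + u) = l + l' := by
        have : l + u + (l' + u) = l + l' + (u + u) := by abel
        rw [this, lj_add_self, add_zero]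
      rwa [e] at h4
    have h2 := hM.Q (hfm a _ h1)
    have h3 : QJ (fmJ (iaJ a) (l + l')) = Qf (l a + l' a) := by
      rw [QJ, sum_eq_single a]
      · show Qf (F4.of (iaJ a a) • (l a + l' a)) = _
        rw [iaJ, Pi.single_eq_same, F4of_one, one_smul]
      · intro b _ hb
        show Qf (F4.of (iaJ a b) • (l b + l' b)) = 0
        rw [iaJ, Pi.single_eq_of_ne hb, F4of_zero, zero_smul, Qf_zero]
      · exact fun h => absurd (mem_univ _) h
    rw [Lk_eq, ← h3, h2]
  refine ⟨hprod, fun a => mem_filter.2 ⟨mem_univ _, hunl a, ?_⟩⟩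
  have hle : ∀ a, (pjJ U a).card ≤ 4 ^ k a := fun a => K1 (hunl a)
  have hpos : ∀ a, 0 < (pjJ U a).card := fun a => card_pos.2 ⟨u a, mem_pjJ.2 ⟨u, hu, rfl⟩⟩
  have hpr : ∏ a, (pjJ U a).card = ∏ a, 4 ^ k a := by
    rw [← Fintype.card_piFinset, ← hprod, hcd]
  by_contra hcon
  have h5 : ∏ a, (pjJ U a).card < ∏ a, 4 ^ k a :=
    prod_lt_prod (fun a _ => hpos a) (fun a _ => hle a) ⟨a, mem_univ a, lt_of_le_of_ne (hle a) hcon⟩
  exact absurd hpr h5.ne

theorem mem_Us' {n : ℕ} {U : Finset (Lab n)} : U ∈ Us n ↔ Unl U ∧ U.card = 4 ^ n := by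
  classical
  rw [Us, mem_filter]
  exact ⟨fun h => h.2, fun h => ⟨mem_univ _, h⟩⟩

theorem Us_nonempty {n : ℕ} {U : Finset (Lab n)} (h : U ∈ Us n) : U.Nonempty := by
  rw [← card_pos, (mem_Us'.1 h).2]
  positivity

/-- Products of maximal unlinked sets. -/
theorem pi_UnlJ {V : ∀ a, Finset (Lab (k a))} (h : ∀ a, V a ∈ Us (k a)) :
    UnlJ (Fintype.piFinset V) ∧ (Fintype.piFinset V).card = ∏ a, 4 ^ k a := by
  refine ⟨fun l hl m hm => ?_, ?_⟩
  · rw [Fintype.mem_piFinset] at hl hm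
    refine sum_eq_zero fun a _ => ?_
    rw [Pi.add_apply, ← Lk_eq]
    exact (mem_Us'.1 (h a)).1 _ (hl a) _ (hm a)
  · rw [Fintype.card_piFinset]
    exact prod_congr rfl fun a _ => (mem_Us'.1 (h a)).2

theorem pjJ_pi {V : ∀ a, Finset (Lab (k a))} (h : ∀ a, V a ∈ Us (k a)) :
    pjJ (Fintype.piFinset V) = V := by
  classical
  funext a
  ext x
  rw [mem_pjJ]
  constructor
  · rintro ⟨f, hf, rfl⟩
    exact Fintype.mem_piFinset.1 hf a
  · intro hx
    choose v hv using fun b => Us_nonempty (h b)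
    refine ⟨Function.update v a x, Fintype.mem_piFinset.2 fun b => ?_, Function.update_self ..⟩
    by_cases hb : b = a
    · subst hb
      rw [Function.update_self]
      exact hx
    · rw [Function.update_of_ne hb]
      exact hv b

end

end Pool.Agent.Lib.MP_1a91b9_ntP
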