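import Pool.Agent.Lib.MP_1a91b9_ntP.J.Th
import Pool.Agent.Lib.MP_1a91b9_ntP.D.Defs

/-!
# MP_1a91b9_nt, several twists over `Q(sqrt -3)`, part D: local systems and the joint system

A local system `P` describes the expansion of the `n`-th moment of one matrix: `W` are the
coordinates on the border, `e0` is the sign, `gam` and `del` are the linear terms. The joint system
has the products of the labels. A maximal unlinked set with nonzero average is a product, if the
quadratic parts `(ρ, τ)` of the linear terms are different.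
-/

set_option autoImplicit false
set_option linter.unusedSectionVars false

namespace Pool.Agent.Lib.MP_1a91b9_ntP

open Finset Pool.Agent.Lib.MP_1a91b9_ntH Pool.Agent.Lib.MP_1a91b9_ntH.Da

noncomputable section

/-- A local system. -/
structure Loc (κ : Type) (n : ℕ) (W : Type) where
  e0 : W → ZMod 2
  gam : W → Lab n → F4
  del : W → Lab n → κ → ZMod 2

/-- The numbering of a finite type. -/
def oL {L : Type} [Fintype L] (l : L) : ℕ := (Fintype.equivFin L l : ℕ)

theorem oL_inj {L : Type} [Fintype L] : Function.Injective (oL (L := L)) := fun _ _ h =>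
  (Fintype.equivFin L).injective (Fin.ext h)

/-- The label system of a local system with the character `y`. -/
def Loc.sys {κ : Type} {n : ℕ} {W : Type} (P : Loc κ n W) (y : F4) (w : W) :
    LSysG (Lab n) κ where
  Phi := Phi
  gam l := P.gam w l + y
  o := oL
  m := 4 ^ n
  del := P.del w

/-- The main term of a local system. -/
def Loc.G {κ : Type} [Fintype κ] {n : ℕ} {W : Type} [Fintype W] (P : Loc κ n W) (y : F4) : ℝ :=
  ∑ w, sg (P.e0 w) * ∑ U ∈ Us n, (P.sys y w).cU U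

/-- The hypotheses on the linear terms; `ρ`, `τ` describe the quadratic part. -/
structure Loc.Ok {κ : Type} {n : ℕ} {W : Type} (P : Loc κ n W) (ρ : ZMod 2) (τ : κ → ZMod 2) :
    Prop where
  gam4 : ∀ w u x y, F4.tr (P.gam w u + P.gam w (u + x) + P.gam w (u + y) + P.gam w (u + x + y)) =
    ρ * Bf x y
  del4 : ∀ w u x y j, P.del w u j + P.del w (u + x) j + P.del w (u + y) j +
    P.del w (u + x + y) j = τ j * Bf x y
  cst : ∀ w, ∀ U ∈ Us n, ∀ j, (∀ l ∈ U, ∀ l' ∈ U, P.del w l j = P.del w l' j) →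
    ∀ l ∈ U, P.del w l j = 0

variable {A : Type} [Fintype A] [DecidableEq A] {k : A → ℕ} {κ : Type} [Fintype κ]
  {W : A → Type}

/-- The joint system. -/
def LJ (P : ∀ a, Loc κ (k a) (W a)) (y : F4) (w : ∀ a, W a) : LSysG (LabJ k) κ where
  Phi l m := ∑ a, Phi (l a) (m a)
  gam l := ∑ a, (P a).gam (w a) (l a) + y
  o := oL
  m := ∏ a, 4 ^ k a
  del l := ∑ a, (P a).del (w a) (l a)

variable (P : ∀ a, Loc κ (k a) (W a)) (y : F4) (w : ∀ a, W a)

theorem LJ_inj : Function.Injective (LJ P y w).o := oL_inj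

theorem LJ_lk (l m : LabJ k) : (LJ P y w).lk l m = QJ (l + m) := by
  show ∑ a, Phi (l a) (m a) + ∑ a, Phi (m a) (l a) = _
  rw [← sum_add_distrib, QJ]
  refine sum_congr rfl fun a _ => ?_
  rw [Pi.add_apply, ← Lk_eq]
  rfl

theorem Phi_self {n : ℕ} (l : Lab n) : Phi l l = 0 := by
  have h : l.1 + l.1 = 0 := vadd_self l.1
  rw [Phi, h, dotProduct_zero, F4.tr_zero]

theorem LJ_diag (l : LabJ k) : (LJ P y w).Phi l l = 0 :=
  sum_eq_zero fun a _ => Phi_self (l a)

theorem LJ_Unl {U : Finset (LabJ k)} : (LJ P y w).Unl U ↔ UnlJ U := by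
  unfold LSys.Unl UnlJ
  simp only [LJ_lk]

theorem LJ_OK (h : 2 ≤ ∏ a, 4 ^ k a) : (LJ P y w).OK where
  diag := LJ_diag P y w
  inj := LJ_inj P y w
  two := h
  k1 U hU := K1J ((LJ_Unl P y w).1 hU)
  k2 U hU hc x hx := by
    obtain ⟨l, hl, l', hl', h1, h2⟩ := K2J ((LJ_Unl P y w).1 hU) hc hx
    refine ⟨l, hl, l', hl', ?_⟩
    rw [LJ_lk, LJ_lk, h1, h2]
    exact one_ne_zero

theorem mem_UsJ {U : Finset (LabJ k)} :
    U ∈ (LJ P y w).Us ↔ UnlJ U ∧ U.card = ∏ a, 4 ^ k a := by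
  rw [LSys.mem_Us, LJ_Unl]
  rfl

theorem sys_Unl {n : ℕ} {W : Type} (P : Loc κ n W) (y : F4) (w : W) {U : Finset (Lab n)} :
    (P.sys y w).Unl U ↔ Unl U := Iff.rfl

theorem sys_inj {n : ℕ} {W : Type} (P : Loc κ n W) (y : F4) (w : W) :
    Function.Injective (P.sys y w).o := oL_inj

/-- The six terms. -/
theorem Phi_six {n : ℕ} (u x y : Lab n) :
    Phi u (u + x) + Phi u (u + y) + Phi u (u + x + y) + Phi (u + x) (u + y) +
      Phi (u + x) (u + x + y) + Phi (u + y) (u + x + y) = Qf x + F4.tr (y.2 ⬝ᵥ x.1) := by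
  have hv : ∀ v : Fin n → F4, v + v = 0 := vadd_self
  have e1 : Phi u (u + x) = F4.tr (u.2 ⬝ᵥ x.1) := by
    rw [Phi, Prod.fst_add, ← add_assoc, hv, zero_add]
  have e2 : Phi u (u + y) = F4.tr (u.2 ⬝ᵥ y.1) := by
    rw [Phi, Prod.fst_add, ← add_assoc, hv, zero_add]
  have e3 : Phi u (u + x + y) = F4.tr (u.2 ⬝ᵥ x.1) + F4.tr (u.2 ⬝ᵥ y.1) := by
    have h : u.1 + (u + x + y).1 = x.1 + y.1 := by
      rw [Prod.fst_add, Prod.fst_add, add_assoc, ← add_assoc, hv, zero_add]
    rw [Phi, h, dotProduct_add, F4.tr_add]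
  have e4 : Phi (u + x) (u + y) = F4.tr (u.2 ⬝ᵥ x.1) + F4.tr (u.2 ⬝ᵥ y.1) +
      (F4.tr (x.2 ⬝ᵥ x.1) + F4.tr (x.2 ⬝ᵥ y.1)) := by
    have h : (u + x).1 + (u + y).1 = x.1 + y.1 := by
      rw [Prod.fst_add, Prod.fst_add, add_add_add_comm, hv, zero_add]
    rw [Phi, h, Prod.snd_add, add_dotProduct, dotProduct_add, dotProduct_add, F4.tr_add,
      F4.tr_add, F4.tr_add]
  have e5 : Phi (u + x) (u + x + y) = F4.tr (u.2 ⬝ᵥ y.1) + F4.tr (x.2 ⬝ᵥ y.1) := by
    have h : (u + x).1 + (u + x + y).1 = y.1 := by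
      rw [Prod.fst_add (u + x), ← add_assoc, hv, zero_add]
    rw [Phi, h, Prod.snd_add, add_dotProduct, F4.tr_add]
  have e6 : Phi (u + y) (u + x + y) = F4.tr (u.2 ⬝ᵥ x.1) + F4.tr (y.2 ⬝ᵥ x.1) := by
    have h : (u + y).1 + (u + x + y).1 = x.1 := by
      have h2 : u + x + y = u + y + x := by abel
      rw [h2, Prod.fst_add (u + y), ← add_assoc, hv, zero_add]
    rw [Phi, h, Prod.snd_add, add_dotProduct, F4.tr_add]
  rw [e1, e2, e3, e4, e5, e6, Qf]
  generalize F4.tr (u.2 ⬝ᵥ x.1) = x1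
  generalize F4.tr (u.2 ⬝ᵥ y.1) = x2
  generalize F4.tr (x.2 ⬝ᵥ x.1) = x3
  generalize F4.tr (x.2 ⬝ᵥ y.1) = x4
  generalize F4.tr (y.2 ⬝ᵥ x.1) = x5
  revert x1 x2 x3 x4 x5
  decide

/-- `Phi` is affine in the second variable. -/
theorem Phi_aff {n : ℕ} (l u x y : Lab n) :
    Phi l u + Phi l (u + x) + Phi l (u + y) + Phi l (u + x + y) = 0 := by
  have e : ∀ m : Lab n, Phi l m = F4.tr (l.2 ⬝ᵥ l.1) + F4.tr (l.2 ⬝ᵥ m.1) := fun m => by
    rw [Phi, dotProduct_add, F4.tr_add]
  rw [e, e, e, e]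
  simp only [Prod.fst_add, dotProduct_add, F4.tr_add]
  generalize F4.tr (l.2 ⬝ᵥ l.1) = x1
  generalize F4.tr (l.2 ⬝ᵥ u.1) = x2
  generalize F4.tr (l.2 ⬝ᵥ x.1) = x3
  generalize F4.tr (l.2 ⬝ᵥ y.1) = x4
  revert x1 x2 x3 x4
  decide

variable {P y w}

/-- **The maximal unlinked sets with nonzero average are products.** -/
theorem decLJ {ρ : A → ZMod 2} {τ : A → κ → ZMod 2} (hP : ∀ a, (P a).Ok (ρ a) (τ a))
    (hd : Function.Injective fun a => (ρ a, τ a)) {U : Finset (LabJ k)}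
    (hU : U ∈ (LJ P y w).Us) (hc : (LJ P y w).cU U ≠ 0) :
    U = Fintype.piFinset (pjJ U) ∧ ∀ a, pjJ U a ∈ Us (k a) := by
  classical
  obtain ⟨hU1, hU2⟩ := (mem_UsJ P y w).1 hU
  have hdel : ∀ l ∈ U, (LJ P y w).del l = 0 := by
    by_contra h
    exact hc (by rw [LSysG.cU, if_neg h])
  have hc' : (LJ P y w).toLSys.cU U ≠ 0 := by
    rw [LSysG.cU, if_pos hdel] at hc
    exact hc
  set c : A → Unit ⊕ κ → ZMod 2 := fun a => Sum.elim (fun _ => ρ a) (τ a) with hcd
  have hci : Function.Injective c := by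
    intro a b h
    refine hd (Prod.ext ?_ ?_)
    · exact congrFun h (Sum.inl ())
    · exact funext fun j => congrFun h (Sum.inr j)
  refine decJ hci hU1 hU2 fun u hu x z hx hz hxz j => ?_
  rcases j with j | j
  · have h1 := cU_four (LJ_inj P y w) (LJ_diag P y w) ((LJ_Unl P y w).2 hU1) hu hx hz hxz hc'
      fun l _ => by
        show ∑ a, Phi (l a) (u a) + ∑ a, Phi (l a) ((u + x) a) + ∑ a, Phi (l a) ((u + z) a) +
          ∑ a, Phi (l a) ((u + x + z) a) = 0
        rw [← sum_add_distrib, ← sum_add_distrib, ← sum_add_distrib]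
        exact sum_eq_zero fun a _ => Phi_aff (l a) (u a) (x a) (z a)
    rw [← h1]
    show ∑ a, ρ a * Bf (x a) (z a) = F4.tr ((∑ a, (P a).gam (w a) (u a) + y) +
      (∑ a, (P a).gam (w a) ((u + x) a) + y) + (∑ a, (P a).gam (w a) ((u + z) a) + y) +
      (∑ a, (P a).gam (w a) ((u + x + z) a) + y))
    have e1 : (∑ a, (P a).gam (w a) (u a) + y) +
      (∑ a, (P a).gam (w a) ((u + x) a) + y) + (∑ a, (P a).gam (w a) ((u + z) a) + y) +
      (∑ a, (P a).gam (w a) ((u + x + z) a) + y) =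
      ∑ a, ((P a).gam (w a) (u a) + (P a).gam (w a) (u a + x a) + (P a).gam (w a) (u a + z a) +
        (P a).gam (w a) (u a + x a + z a)) := by
      simp only [sum_add_distrib]
      have h2 : y + y = 0 := F4.add_self y
      linear_combination 2 * h2
    rw [e1, F4.tr_sum]
    exact sum_congr rfl fun a _ => ((hP a).gam4 (w a) (u a) (x a) (z a)).symm
  · show ∑ a, τ a j * Bf (x a) (z a) = 0
    have e1 : ∀ l ∈ U, ∑ a, (P a).del (w a) (l a) j = 0 := by
      intro l hl
      have h2 := congrFun (hdel l hl) j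
      rw [← Finset.sum_apply]
      exact h2
    have e2 : ∑ a, τ a j * Bf (x a) (z a) = ∑ a, (P a).del (w a) (u a) j +
        ∑ a, (P a).del (w a) ((u + x) a) j + ∑ a, (P a).del (w a) ((u + z) a) j +
        ∑ a, (P a).del (w a) ((u + x + z) a) j := by
      rw [← sum_add_distrib, ← sum_add_distrib, ← sum_add_distrib]
      exact sum_congr rfl fun a _ => ((hP a).del4 (w a) (u a) (x a) (z a) j).symm
    rw [e2, e1 _ hu, e1 _ hx, e1 _ hz, e1 _ hxz, add_zero, add_zero, add_zero]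

/-! ### The exponent on a product -/

/-- The marginals. -/
def mgJ (V : ∀ a, Finset (Lab (k a))) (a : A) (B : LabJ k → F4) (u : Lab (k a)) : F4 := by
  classical exact ∑ l ∈ (Fintype.piFinset V).filter (fun l => l a = u), B l

theorem sum_mgJ (V : ∀ a, Finset (Lab (k a))) (a : A) (B : LabJ k → F4) (g : Lab (k a) → F4) :
    ∑ u ∈ V a, g u * mgJ V a B u = ∑ l ∈ Fintype.piFinset V, g (l a) * B l := by
  classical
  rw [← sum_fiberwise_of_maps_to (s := Fintype.piFinset V) (t := V a) (g := fun l => l a)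
    (fun l hl => Fintype.mem_piFinset.1 hl a)]
  refine sum_congr rfl fun u _ => ?_
  rw [mgJ, mul_sum]
  refine sum_congr (by ext l; simp only [mem_filter]) fun l hl => ?_
  rw [(mem_filter.1 hl).2]

theorem th_pi {V : ∀ a, Finset (Lab (k a))} (hV : ∀ a, V a ∈ Us (k a)) (B : LabJ k → F4) :
    (LJ P y w).th (Fintype.piFinset V) B =
      ∑ a, ((P a).sys 0 (w a)).th (V a) (mgJ V a B) +
        F4.tr (y * ∑ l ∈ Fintype.piFinset V, B l) := by
  classical
  obtain ⟨hU1, -⟩ := pi_UnlJ hV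
  set U := Fintype.piFinset V with hUd
  -- the linear part
  have e1 : ∑ l ∈ U, F4.tr ((LJ P y w).gam l * B l) =
      ∑ a, ∑ u ∈ V a, F4.tr (((P a).sys 0 (w a)).gam u * mgJ V a B u) +
        F4.tr (y * ∑ l ∈ U, B l) := by
    rw [mul_sum, F4.tr_sum]
    have h1 : ∀ a, ∑ u ∈ V a, F4.tr (((P a).sys 0 (w a)).gam u * mgJ V a B u) =
        ∑ l ∈ U, F4.tr ((P a).gam (w a) (l a) * B l) := by
      intro a
      rw [← F4.tr_sum, ← F4.tr_sum, ← sum_mgJ V a B fun u => (P a).gam (w a) u]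
      refine congrArg _ (sum_congr rfl fun u _ => ?_)
      show ((P a).gam (w a) u + 0) * _ = _
      rw [add_zero]
    rw [sum_congr rfl fun a _ => h1 a, sum_comm, ← sum_add_distrib]
    refine sum_congr rfl fun l _ => ?_
    show F4.tr ((∑ a, (P a).gam (w a) (l a) + y) * B l) = _
    rw [add_mul, F4.tr_add, sum_mul, F4.tr_sum]
  -- the quadratic part
  have e2 : ∑ l ∈ U, ∑ m ∈ U, (if (LJ P y w).o l < (LJ P y w).o m then
      (LJ P y w).Phi m l * F4.tr (B l * B m) else 0) =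
      ∑ a, ∑ u ∈ V a, ∑ v ∈ V a, (if ((P a).sys 0 (w a)).o u < ((P a).sys 0 (w a)).o v then
        ((P a).sys 0 (w a)).Phi v u * F4.tr (mgJ V a B u * mgJ V a B v) else 0) := by
    have h1 : ∀ a, ∑ u ∈ V a, ∑ v ∈ V a, (if ((P a).sys 0 (w a)).o u < ((P a).sys 0 (w a)).o v then
        ((P a).sys 0 (w a)).Phi v u * F4.tr (mgJ V a B u * mgJ V a B v) else 0) =
        ∑ l ∈ U, ∑ m ∈ U, (if oL (l a) < oL (m a) then Phi (m a) (l a) * F4.tr (B l * B m)
          else 0) := by
      intro a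
      have h2 : ∀ u v, (if ((P a).sys 0 (w a)).o u < ((P a).sys 0 (w a)).o v then
          ((P a).sys 0 (w a)).Phi v u * F4.tr (mgJ V a B u * mgJ V a B v) else 0) =
          F4.tr ((if oL u < oL v then F4.of (Phi v u) else 0) * mgJ V a B v * mgJ V a B u) := by
        intro u v
        show (if oL u < oL v then Phi v u * F4.tr (mgJ V a B u * mgJ V a B v) else 0) = _
        have hd : ∀ (t : ZMod 2) (x y : F4), t * F4.tr (x * y) = F4.tr (F4.of t * y * x) := by
          decide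
        split_ifs
        · exact hd _ _ _
        · rw [zero_mul, zero_mul, F4.tr_zero]
      simp only [h2]
      have h3 : ∀ u, ∑ v ∈ V a, F4.tr ((if oL u < oL v then F4.of (Phi v u) else 0) *
          mgJ V a B v * mgJ V a B u) =
          F4.tr ((∑ m ∈ U, (if oL u < oL (m a) then F4.of (Phi (m a) u) else 0) * B m) *
            mgJ V a B u) := by
        intro u
        rw [← F4.tr_sum, ← sum_mul, sum_mgJ V a B fun v => if oL u < oL v then F4.of (Phi v u)
          else 0]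
      simp only [h3]
      rw [← F4.tr_sum, sum_mgJ V a B fun u => ∑ m ∈ U, (if oL u < oL (m a) then
        F4.of (Phi (m a) u) else 0) * B m, F4.tr_sum]
      refine sum_congr rfl fun l _ => ?_
      rw [sum_mul, F4.tr_sum]
      refine sum_congr rfl fun m _ => ?_
      have hd : ∀ (t : ZMod 2) (x y : F4), F4.tr (F4.of t * y * x) = t * F4.tr (x * y) := by
        decide
      split_ifs
      · exact hd _ _ _
      · rw [zero_mul, zero_mul, F4.tr_zero]
    rw [sum_congr rfl fun a _ => h1 a]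
    have h4 : ∀ a, ∑ l ∈ U, ∑ m ∈ U, (if oL (l a) < oL (m a) then
        Phi (m a) (l a) * F4.tr (B l * B m) else 0) =
        ∑ l ∈ U, ∑ m ∈ U, (if oL l < oL m then Phi (m a) (l a) * F4.tr (B l * B m) else 0) := by
      intro a
      refine (sum_order (o := oL (L := LabJ k)) oL_inj (o' := oL (L := Lab (k a))) oL_inj
        (fun l : LabJ k => l a) (fun l _ m _ h => ?_) fun l hl m hm => ?_).symm
      · rw [← h, Phi_self, zero_mul]
      · have h5 : Phi (m a) (l a) = Phi (l a) (m a) :=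
          Phi_symm (Λ := ((P a).sys 0 (w a)).toLSys) (U := V a) (mem_Us'.1 (hV a)).1
            (Fintype.mem_piFinset.1 hm a) (Fintype.mem_piFinset.1 hl a)
        rw [h5, mul_comm (B m)]
    rw [sum_congr rfl fun a _ => h4 a]
    refine Eq.trans ?_ sum_comm
    refine sum_congr rfl fun l _ => ?_
    refine Eq.trans ?_ sum_comm
    refine sum_congr rfl fun m _ => ?_
    show (if oL l < oL m then (∑ a, Phi (m a) (l a)) * F4.tr (B l * B m) else 0) = _
    split_ifs
    · rw [sum_mul]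
    · exact (sum_eq_zero fun _ _ => rfl).symm
  unfold LSys.th
  rw [e1, e2, sum_add_distrib]
  ring

end

end Pool.Agent.Lib.MP_1a91b9_ntP
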