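import Pool.Agent.Lib.MP_1a91b9_ntH.D.Fourier
import Pool.Agent.Lib.MP_1a91b9_ntP.J.Lab

/-!
# MP_1a91b9_nt, several twists over `Q(sqrt -3)`, part D: the exponent `θ_U` of a maximal unlinked
set, polarisation and symmetric sums
-/

set_option autoImplicit false
set_option linter.unusedSectionVars false

namespace Pool.Agent.Lib.MP_1a91b9_ntP

open Finset Pool.Agent.Lib.MP_1a91b9_ntH Pool.Agent.Lib.MP_1a91b9_ntH.Da

noncomputable section

/-- A symmetric sum which vanishes on the diagonal is zero. -/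
theorem sum_symm_zero {L : Type} [DecidableEq L] {U : Finset L} {o : L → ℕ}
    (ho : Function.Injective o) {F : L → L → ZMod 2} (h0 : ∀ l ∈ U, F l l = 0)
    (hs : ∀ l ∈ U, ∀ m ∈ U, F l m = F m l) : ∑ l ∈ U, ∑ m ∈ U, F l m = 0 := by
  have h1 : ∀ l ∈ U, ∀ m ∈ U, F l m = (if o l < o m then F l m else 0) +
      (if o m < o l then F l m else 0) := by
    intro l hl m hm
    rcases lt_trichotomy (o l) (o m) with h | h | h
    · rw [if_pos h, if_neg (by omega), add_zero]
    · have : l = m := ho h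
      subst this
      rw [h0 l hl, if_neg (lt_irrefl _), add_zero]
    · rw [if_neg (by omega), if_pos h, zero_add]
  rw [sum_congr rfl fun l hl => sum_congr rfl fun m hm => h1 l hl m hm]
  simp only [sum_add_distrib]
  have h2 : ∑ l ∈ U, ∑ m ∈ U, (if o m < o l then F l m else 0) =
      ∑ l ∈ U, ∑ m ∈ U, (if o l < o m then F l m else 0) := by
    rw [sum_comm]
    refine sum_congr rfl fun l hl => sum_congr rfl fun m hm => ?_
    rw [hs m hm l hl]
  rw [h2]
  exact zadd_self _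

/-- The order of the pairs does not matter. -/
theorem sum_order {L M : Type} [DecidableEq L] {U : Finset L} {o : L → ℕ}
    (ho : Function.Injective o) {o' : M → ℕ} (ho' : Function.Injective o') (f : L → M)
    {H : L → L → ZMod 2} (h0 : ∀ l ∈ U, ∀ m ∈ U, f l = f m → H l m = 0)
    (hs : ∀ l ∈ U, ∀ m ∈ U, H l m = H m l) :
    ∑ l ∈ U, ∑ m ∈ U, (if o l < o m then H l m else 0) =
      ∑ l ∈ U, ∑ m ∈ U, (if o' (f l) < o' (f m) then H l m else 0) := by
  have h1 : ∑ l ∈ U, ∑ m ∈ U, ((if o l < o m then H l m else 0) +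
      (if o' (f l) < o' (f m) then H l m else 0)) = 0 := by
    refine sum_symm_zero ho (fun l hl => ?_) fun l hl m hm => ?_
    · rw [if_neg (lt_irrefl _), if_neg (lt_irrefl _), add_zero]
    · by_cases hf : f l = f m
      · rw [h0 l hl m hm hf, h0 m hm l hl hf.symm]
        simp only [ite_self]
      · have hl' : l ≠ m := fun h => hf (by rw [h])
        have e1 : o l ≠ o m := fun h => hl' (ho h)
        have e2 : o' (f l) ≠ o' (f m) := fun h => hf (ho' h)
        rw [hs m hm l hl]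
        generalize H l m = x
        have e3 : x + x = 0 := zadd_self x
        rcases lt_or_gt_of_ne e1 with h | h <;> rcases lt_or_gt_of_ne e2 with h' | h'
        · rw [if_pos h, if_pos h', if_neg (by omega), if_neg (by omega), e3, add_zero]
        · rw [if_pos h, if_neg (by omega), if_neg (by omega), if_pos h', add_zero, zero_add]
        · rw [if_neg (by omega), if_pos h', if_pos h, if_neg (by omega), add_zero, zero_add]
        · rw [if_neg (by omega), if_neg (by omega), if_pos h, if_pos h', e3, add_zero]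
  simp only [sum_add_distrib] at h1
  have h2 : ∀ x y : ZMod 2, x + y = 0 → x = y := by decide
  exact h2 _ _ h1

section

variable {L : Type} [Fintype L] [DecidableEq L]

theorem Phi_symm {Λ : LSys L} {U : Finset L} (hU : Λ.Unl U) {l m : L} (hl : l ∈ U) (hm : m ∈ U) :
    Λ.Phi l m = Λ.Phi m l := by
  have h := hU l hl m hm
  unfold LSys.lk at h
  have h2 : ∀ x y : ZMod 2, x + y = 0 → x = y := by decide
  exact h2 _ _ h

/-- The polar form. -/
def plU (Λ : LSys L) (U : Finset L) (A K : L → F4) : ZMod 2 :=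
  ∑ l ∈ U, ∑ m ∈ U, Λ.Phi l m * F4.tr (A l * K m)

/-- The polarisation of the exponent. -/
theorem th_add {Λ : LSys L} (hi : Function.Injective Λ.o) (hd : ∀ l, Λ.Phi l l = 0)
    {U : Finset L} (hU : Λ.Unl U) (A K : L → F4) :
    Λ.th U (A + K) = Λ.th U A + Λ.th U K + plU Λ U A K := by
  have h1 : ∀ l m, (if Λ.o l < Λ.o m then Λ.Phi m l * F4.tr ((A + K) l * (A + K) m) else 0) =
      (if Λ.o l < Λ.o m then Λ.Phi m l * F4.tr (A l * A m) else 0) +
      (if Λ.o l < Λ.o m then Λ.Phi m l * F4.tr (K l * K m) else 0) +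
      ((if Λ.o l < Λ.o m then Λ.Phi m l * F4.tr (A l * K m) else 0) +
      (if Λ.o l < Λ.o m then Λ.Phi m l * F4.tr (K l * A m) else 0)) := by
    intro l m
    split_ifs
    · simp only [Pi.add_apply, add_mul, mul_add, F4.tr_add]
      ring
    · simp only [add_zero]
  have h2 : ∑ l ∈ U, ∑ m ∈ U, ((if Λ.o l < Λ.o m then Λ.Phi m l * F4.tr (A l * K m) else 0) +
      (if Λ.o l < Λ.o m then Λ.Phi m l * F4.tr (K l * A m) else 0)) = plU Λ U A K := by
    simp only [sum_add_distrib]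
    have h3 : ∑ l ∈ U, ∑ m ∈ U, (if Λ.o l < Λ.o m then Λ.Phi m l * F4.tr (K l * A m) else 0) =
        ∑ l ∈ U, ∑ m ∈ U, (if Λ.o m < Λ.o l then Λ.Phi l m * F4.tr (A l * K m) else 0) := by
      rw [sum_comm]
      refine sum_congr rfl fun l _ => sum_congr rfl fun m _ => ?_
      rw [mul_comm (K m) (A l)]
    rw [h3, plU, ← sum_add_distrib]
    refine sum_congr rfl fun l hl => ?_
    rw [← sum_add_distrib]
    refine sum_congr rfl fun m hm => ?_
    rw [Phi_symm hU hm hl]
    rcases lt_trichotomy (Λ.o l) (Λ.o m) with h | h | h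
    · rw [if_pos h, if_neg (by omega), add_zero]
    · have : l = m := hi h
      subst this
      rw [hd, if_neg (lt_irrefl _), zero_mul, add_zero]
    · rw [if_neg (by omega), if_pos h, zero_add]
  unfold LSys.th
  rw [sum_congr rfl fun l _ => sum_congr rfl fun m _ => h1 l m]
  have h4 : ∑ l ∈ U, F4.tr (Λ.gam l * (A + K) l) = ∑ l ∈ U, F4.tr (Λ.gam l * A l) +
      ∑ l ∈ U, F4.tr (Λ.gam l * K l) := by
    rw [← sum_add_distrib]
    refine sum_congr rfl fun l _ => ?_
    rw [Pi.add_apply, mul_add, F4.tr_add]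
  rw [h4]
  have h5 : ∑ l ∈ U, ∑ m ∈ U, ((if Λ.o l < Λ.o m then Λ.Phi m l * F4.tr (A l * A m) else 0) +
      (if Λ.o l < Λ.o m then Λ.Phi m l * F4.tr (K l * K m) else 0) +
      ((if Λ.o l < Λ.o m then Λ.Phi m l * F4.tr (A l * K m) else 0) +
      (if Λ.o l < Λ.o m then Λ.Phi m l * F4.tr (K l * A m) else 0))) =
      ∑ l ∈ U, ∑ m ∈ U, (if Λ.o l < Λ.o m then Λ.Phi m l * F4.tr (A l * A m) else 0) +
      ∑ l ∈ U, ∑ m ∈ U, (if Λ.o l < Λ.o m then Λ.Phi m l * F4.tr (K l * K m) else 0) +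
      plU Λ U A K := by
    rw [← h2]
    simp only [sum_add_distrib]
  rw [h5]
  ring

theorem plU_add (Λ : LSys L) (U : Finset L) (A K K' : L → F4) :
    plU Λ U A (K + K') = plU Λ U A K + plU Λ U A K' := by
  unfold plU
  rw [← sum_add_distrib]
  refine sum_congr rfl fun l _ => ?_
  rw [← sum_add_distrib]
  refine sum_congr rfl fun m _ => ?_
  rw [Pi.add_apply, mul_add, F4.tr_add]
  ring

theorem plU_single (Λ : LSys L) {U : Finset L} (A : L → F4) {p : L} (hp : p ∈ U) (t : F4) :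
    plU Λ U A (Pi.single p t) = ∑ l ∈ U, Λ.Phi l p * F4.tr (A l * t) := by
  unfold plU
  refine sum_congr rfl fun l _ => ?_
  rw [sum_eq_single p]
  · rw [Pi.single_eq_same]
  · intro m _ hm
    rw [Pi.single_eq_of_ne hm, mul_zero, F4.tr_zero, mul_zero]
  · intro h
    exact absurd hp h

theorem plU_single_single (Λ : LSys L) {U : Finset L} {p p' : L} (hp : p ∈ U) (hp' : p' ∈ U)
    (t t' : F4) : plU Λ U (Pi.single p t) (Pi.single p' t') = Λ.Phi p p' * F4.tr (t * t') := by
  rw [plU_single Λ _ hp', sum_eq_single p]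
  · rw [Pi.single_eq_same]
  · intro m _ hm
    rw [Pi.single_eq_of_ne hm, zero_mul, F4.tr_zero, mul_zero]
  · intro h
    exact absurd hp h

theorem th_single (Λ : LSys L) {U : Finset L} {p : L} (hp : p ∈ U) (t : F4) :
    Λ.th U (Pi.single p t) = F4.tr (Λ.gam p * t) := by
  unfold LSys.th
  have h1 : ∑ l ∈ U, F4.tr (Λ.gam l * (Pi.single p t : L → F4) l) = F4.tr (Λ.gam p * t) := by
    rw [sum_eq_single p]
    · rw [Pi.single_eq_same]
    · intro m _ hm
      rw [Pi.single_eq_of_ne hm, mul_zero, F4.tr_zero]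
    · intro h
      exact absurd hp h
  rw [h1]
  have h2 : ∑ l ∈ U, ∑ m ∈ U, (if Λ.o l < Λ.o m then Λ.Phi m l *
      F4.tr ((Pi.single p t : L → F4) l * (Pi.single p t : L → F4) m) else 0) = 0 := by
    refine sum_eq_zero fun l _ => sum_eq_zero fun m _ => ?_
    split_ifs with h
    · by_cases hl : l = p
      · have hm : m ≠ p := by
          rintro rfl
          rw [hl] at h
          exact lt_irrefl _ h
        rw [Pi.single_eq_of_ne hm, mul_zero, F4.tr_zero, mul_zero]
      · rw [Pi.single_eq_of_ne hl, zero_mul, F4.tr_zero, mul_zero]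
    · rfl
  rw [h2, add_zero]

/-- The shift of four points. -/
def four (p0 p1 p2 p3 : L) (t : F4) : L → F4 :=
  Pi.single p0 t + (Pi.single p1 t + (Pi.single p2 t + Pi.single p3 t))

theorem th_four {Λ : LSys L} (hi : Function.Injective Λ.o) (hd : ∀ l, Λ.Phi l l = 0)
    {U : Finset L} (hU : Λ.Unl U) {p0 p1 p2 p3 : L} (h0 : p0 ∈ U) (h1 : p1 ∈ U) (h2 : p2 ∈ U)
    (h3 : p3 ∈ U) (t : F4) :
    Λ.th U (four p0 p1 p2 p3 t) = F4.tr ((Λ.gam p0 + Λ.gam p1 + Λ.gam p2 + Λ.gam p3) * t) +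
      (Λ.Phi p0 p1 + Λ.Phi p0 p2 + Λ.Phi p0 p3 + Λ.Phi p1 p2 + Λ.Phi p1 p3 + Λ.Phi p2 p3) *
        F4.tr (t * t) := by
  unfold four
  rw [th_add hi hd hU, th_add hi hd hU, th_add hi hd hU, th_single Λ h0, th_single Λ h1,
    th_single Λ h2, th_single Λ h3, plU_add, plU_add, plU_add, plU_single_single Λ h0 h1,
    plU_single_single Λ h0 h2, plU_single_single Λ h0 h3, plU_single_single Λ h1 h2,
    plU_single_single Λ h1 h3, plU_single_single Λ h2 h3]
  simp only [add_mul, F4.tr_add]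
  ring

/-- If the average is not zero, the four points satisfy a linear relation. -/
theorem cU_four {Λ : LSys L} (hi : Function.Injective Λ.o) (hd : ∀ l, Λ.Phi l l = 0)
    {U : Finset L} (hU : Λ.Unl U) {p0 p1 p2 p3 : L} (h0 : p0 ∈ U) (h1 : p1 ∈ U) (h2 : p2 ∈ U)
    (h3 : p3 ∈ U) (hc : Λ.cU U ≠ 0)
    (hP : ∀ l ∈ U, Λ.Phi l p0 + Λ.Phi l p1 + Λ.Phi l p2 + Λ.Phi l p3 = 0) :
    F4.tr (Λ.gam p0 + Λ.gam p1 + Λ.gam p2 + Λ.gam p3) = 0 := by
  by_contra hne
  apply hc
  have h4 : F4.tr (Λ.gam p0 + Λ.gam p1 + Λ.gam p2 + Λ.gam p3) = 1 := by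
    have h5 : ∀ x : ZMod 2, x ≠ 0 → x = 1 := by decide
    exact h5 _ hne
  unfold LSys.cU
  rw [sum_sg_eq_zero (fun A => Λ.th U A) (four p0 p1 p2 p3 1) fun A => ?_, zero_div]
  rw [th_add hi hd hU, th_four hi hd hU h0 h1 h2 h3]
  have h5 : plU Λ U A (four p0 p1 p2 p3 1) = 0 := by
    unfold four
    rw [plU_add, plU_add, plU_add, plU_single Λ A h0, plU_single Λ A h1, plU_single Λ A h2,
      plU_single Λ A h3, ← sum_add_distrib, ← sum_add_distrib, ← sum_add_distrib]
    refine sum_eq_zero fun l hl => ?_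
    have h6 := hP l hl
    linear_combination F4.tr (A l * 1) * h6
  have h6 : F4.tr ((1 : F4) * 1) = 0 := by decide
  rw [h5, h6, mul_zero, add_zero, add_zero, mul_one, h4]

end

end

end Pool.Agent.Lib.MP_1a91b9_ntP
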